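import Mathlib

/-!
# Cyclic contractions of matrices and their alternating sums
-/

set_option autoImplicit false
set_option linter.unusedSectionVars false

namespace Run7.h539

open Equiv

section

variable {I : Type*} [Fintype I] [DecidableEq I] {J : Type*} [Fintype J] [DecidableEq J]
  {N : Type*} [Fintype N] [DecidableEq N] {R : Type*} [CommRing R]

/-- The product of the traces of the products of the matrices `x i` along the cycles of `ν`. -/
def GG (ν : Perm I) (x : I → Matrix N N R) : R := ∑ c : I → N, ∏ i, x i (c i) (c (ν i))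

/-- The alternating sum of `GG`. -/
def aG (ν : Perm I) (x : I → Matrix N N R) : R :=
  ∑ σ : Perm I, ((Perm.sign σ : ℤ) : R) * GG ν (fun i => x (σ i))

theorem GG_comp (ν : Perm I) (e : I ≃ J) (x : J → Matrix N N R) :
    GG ν (fun i => x (e i)) = GG (e.permCongr ν) x := by
  unfold GG
  refine Fintype.sum_equiv (e.arrowCongr (Equiv.refl N)) _ _ fun c => ?_
  rw [← Equiv.prod_comp e]
  refine Finset.prod_congr rfl fun i _ => ?_
  simp [Equiv.arrowCongr, Equiv.permCongr]

theorem permCongr_perm (τ ν : Perm I) : τ.permCongr ν = τ * ν * τ⁻¹ := by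
  ext i
  simp [Equiv.permCongr]

theorem GG_comp' (ν τ : Perm I) (x : I → Matrix N N R) :
    GG ν (fun i => x (τ i)) = GG (τ * ν * τ⁻¹) x := by
  rw [← permCongr_perm]
  exact GG_comp ν τ x

theorem aG_comp (ν τ : Perm I) (x : I → Matrix N N R) :
    aG ν (fun i => x (τ i)) = ((Perm.sign τ : ℤ) : R) * aG ν x := by
  unfold aG
  rw [Finset.mul_sum]
  refine Fintype.sum_equiv (Equiv.mulLeft τ) _ _ fun σ => ?_
  simp only [Equiv.coe_mulLeft, Perm.mul_apply, Perm.sign_mul, Units.val_mul, Int.cast_mul]
  rw [← mul_assoc, ← mul_assoc]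
  congr 1
  rcases Int.units_eq_one_or (Perm.sign τ) with h | h <;> rw [h] <;> simp

theorem aG_permCongr (ν : Perm I) (e : I ≃ J) (x : J → Matrix N N R) :
    aG (e.permCongr ν) x = aG ν (fun i => x (e i)) := by
  unfold aG
  refine Fintype.sum_equiv e.symm.permCongr _ _ fun σ => ?_
  rw [Perm.sign_permCongr]
  congr 1
  rw [← GG_comp]
  congr 1
  funext i
  simp [Equiv.permCongr]

theorem aG_conj (ν τ : Perm I) (x : I → Matrix N N R) :
    aG (τ * ν * τ⁻¹) x = ((Perm.sign τ : ℤ) : R) * aG ν x := by
  rw [← permCongr_perm, aG_permCongr, aG_comp]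

theorem aG_two_mul_eq_zero (ν τ : Perm I) (h : Commute τ ν) (hs : Perm.sign τ = -1)
    (x : I → Matrix N N R) : 2 * aG ν x = 0 := by
  have h1 := aG_conj ν τ x
  rw [h.eq, mul_assoc, mul_inv_cancel, mul_one, hs] at h1
  simp only [Units.val_neg, Units.val_one, Int.cast_neg, Int.cast_one, neg_mul, one_mul] at h1
  linear_combination h1

theorem GG_mul_shift (ν : Perm I) (y w : I → Matrix N N R) :
    GG ν (fun i => y i * w (ν i)) = GG ν (fun i => w i * y i) := by
  have h1 : GG ν (fun i => y i * w (ν i)) =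
      ∑ c : I → N, ∑ a : I → N, (∏ i, y i (c i) (a i)) * ∏ i, w i (a (ν.symm i)) (c i) := by
    unfold GG
    refine Finset.sum_congr rfl fun c _ => ?_
    have h2 : ∀ i, (y i * w (ν i)) (c i) (c (ν i)) =
        ∑ a, y i (c i) a * w (ν i) a (c (ν i)) := fun i => Matrix.mul_apply
    simp only [h2]
    rw [Finset.prod_univ_sum]
    rw [Fintype.piFinset_univ]
    refine Finset.sum_congr rfl fun a _ => ?_
    rw [Finset.prod_mul_distrib]
    congr 1
    rw [← Equiv.prod_comp ν (fun i => w i (a (ν.symm i)) (c i))]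
    refine Finset.prod_congr rfl fun i _ => ?_
    rw [Equiv.symm_apply_apply]
  have h3 : GG ν (fun i => w i * y i) =
      ∑ a : I → N, ∑ c : I → N, (∏ i, w i (a i) (c i)) * ∏ i, y i (c i) (a (ν i)) := by
    unfold GG
    refine Finset.sum_congr rfl fun a _ => ?_
    have h2 : ∀ i, (w i * y i) (a i) (a (ν i)) =
        ∑ c, w i (a i) c * y i c (a (ν i)) := fun i => Matrix.mul_apply
    simp only [h2]
    rw [Finset.prod_univ_sum]
    rw [Fintype.piFinset_univ]
    refine Finset.sum_congr rfl fun c _ => ?_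
    rw [Finset.prod_mul_distrib]
  rw [h1, h3, Finset.sum_comm]
  refine Fintype.sum_equiv (ν.symm.arrowCongr (Equiv.refl N)).symm _ _ fun a => ?_
  refine Finset.sum_congr rfl fun c _ => ?_
  simp [Equiv.arrowCongr, mul_comm]

theorem GG_gauge (ν : Perm I) (z P Q : I → Matrix N N R) (h : ∀ i, Q i * P i = 1) :
    GG ν (fun i => P i * z i * Q (ν i)) = GG ν z := by
  rw [GG_mul_shift ν (fun i => P i * z i) Q]
  congr 1
  funext i
  rw [← mul_assoc, h, one_mul]

theorem GG_conj (ν : Perm I) (z : I → Matrix N N R) (P Q : Matrix N N R) (h : Q * P = 1) :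
    GG ν (fun i => P * z i * Q) = GG ν z :=
  GG_gauge ν z (fun _ => P) (fun _ => Q) (fun _ => h)

theorem aG_conj_matrix (ν : Perm I) (z : I → Matrix N N R) (P Q : Matrix N N R) (h : Q * P = 1) :
    aG ν (fun i => P * z i * Q) = aG ν z := by
  unfold aG
  refine Finset.sum_congr rfl fun σ _ => ?_
  rw [GG_conj ν (fun i => z (σ i)) P Q h]

theorem GG_map {S : Type*} [CommRing S] (g : R →+* S) (ν : Perm I) (x : I → Matrix N N R) :
    GG ν (fun i => (x i).map g) = g (GG ν x) := by
  unfold GG
  rw [map_sum]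
  refine Finset.sum_congr rfl fun c _ => ?_
  rw [map_prod]
  rfl

theorem aG_map {S : Type*} [CommRing S] (g : R →+* S) (ν : Perm I) (x : I → Matrix N N R) :
    aG ν (fun i => (x i).map g) = g (aG ν x) := by
  unfold aG
  rw [map_sum]
  refine Finset.sum_congr rfl fun σ _ => ?_
  rw [map_mul, GG_map, map_intCast]

end

/-! ### Products along a path -/

section

variable {N : Type*} [Fintype N] [DecidableEq N] {R : Type*} [CommRing R]

theorem path_entry : ∀ (m : ℕ) (x : Fin m → Matrix N N R) (a b : N),
    (List.ofFn x).prod a b = ∑ c : Fin (m + 1) → N,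
      if c 0 = a ∧ c (Fin.last m) = b then ∏ i : Fin m, x i (c i.castSucc) (c i.succ) else 0
  | 0, x, a, b => by
    rw [List.ofFn_zero, List.prod_nil, Matrix.one_apply]
    rw [← Equiv.sum_comp (Equiv.funUnique (Fin 1) N).symm]
    simp only [Finset.univ_eq_empty, Finset.prod_empty]
    by_cases h : a = b
    · subst h
      simp [Equiv.funUnique]
    · rw [if_neg h]
      symm
      refine Finset.sum_eq_zero fun c _ => ?_
      rw [if_neg]
      rintro ⟨h1, h2⟩
      exact h (h1.symm.trans h2)
  | m + 1, x, a, b => by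
    rw [List.ofFn_succ, List.prod_cons, Matrix.mul_apply]
    simp only [path_entry m (fun i => x i.succ)]
    rw [← Equiv.sum_comp (Fin.consEquiv (fun _ => N))]
    rw [Fintype.sum_prod_type]
    simp only [Finset.mul_sum]
    rw [Finset.sum_comm]
    have h1 : ∀ (y : Fin (m + 1) → N),
        ∑ e, x 0 a e * (if y 0 = e ∧ y (Fin.last m) = b then
          ∏ i : Fin m, x i.succ (y i.castSucc) (y i.succ) else 0) =
        (if y (Fin.last m) = b then
          x 0 a (y 0) * ∏ i : Fin m, x i.succ (y i.castSucc) (y i.succ) else 0) := by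
      intro y
      rw [Finset.sum_eq_single (y 0)]
      · by_cases h : y (Fin.last m) = b <;> simp [h]
      · intro e _ he
        rw [if_neg, mul_zero]
        rintro ⟨h, _⟩
        exact he h.symm
      · intro h
        exact absurd (Finset.mem_univ _) h
    rw [Finset.sum_congr rfl (fun y _ => h1 y)]
    rw [Finset.sum_comm]
    refine Finset.sum_congr rfl fun y _ => ?_
    rw [Finset.sum_eq_single a]
    · have h2 : (Fin.consEquiv (fun _ => N)) (a, y) (Fin.last (m + 1)) = y (Fin.last m) := by
        rw [← Fin.succ_last]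
        rfl
      have h3 : (Fin.consEquiv (fun _ => N)) (a, y) 0 = a := rfl
      rw [h2, h3]
      by_cases h : y (Fin.last m) = b
      · rw [if_pos h, if_pos ⟨rfl, h⟩, Fin.prod_univ_succ]
        rfl
      · rw [if_neg h, if_neg (fun h' => h h'.2)]
    · intro e _ he
      have h3 : (Fin.consEquiv (fun _ => N)) (e, y) 0 = e := rfl
      rw [h3, if_neg]
      rintro ⟨h, _⟩
      exact he h
    · intro h
      exact absurd (Finset.mem_univ _) h

theorem GG_finRotate (m : ℕ) (x : Fin (m + 1) → Matrix N N R) :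
    GG (finRotate (m + 1)) x = ((List.ofFn x).prod).trace := by
  unfold Matrix.trace GG
  simp only [Matrix.diag_apply, path_entry]
  rw [Finset.sum_comm]
  have h1 : ∀ c : Fin (m + 1 + 1) → N,
      ∑ a, (if c 0 = a ∧ c (Fin.last (m + 1)) = a then
        ∏ i : Fin (m + 1), x i (c i.castSucc) (c i.succ) else 0) =
      if c (Fin.last (m + 1)) = c 0 then
        ∏ i : Fin (m + 1), x i (c i.castSucc) (c i.succ) else 0 := by
    intro c
    rw [Finset.sum_eq_single (c 0)]
    · simp
    · intro e _ he
      rw [if_neg]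
      rintro ⟨h, _⟩
      exact he h.symm
    · intro h
      exact absurd (Finset.mem_univ _) h
  rw [Finset.sum_congr rfl (fun c _ => h1 c)]
  rw [← Equiv.sum_comp (Fin.snocEquiv (n := m + 1) (fun _ => N))]
  rw [Fintype.sum_prod_type]
  rw [Finset.sum_comm]
  refine Finset.sum_congr rfl fun y _ => ?_
  rw [Finset.sum_eq_single (y 0)]
  · have h2 : (Fin.snocEquiv (fun _ => N)) (y 0, y) (Fin.last (m + 1)) = y 0 := by
      simp [Fin.snocEquiv]
    have h3 : (Fin.snocEquiv (fun _ => N)) (y 0, y) 0 = y 0 := by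
      change Fin.snoc (α := fun _ => N) y (y 0) (Fin.castSucc 0) = y 0
      rw [Fin.snoc_castSucc]
    rw [h2, h3, if_pos rfl]
    refine Finset.prod_congr rfl fun i _ => ?_
    have h4 : (Fin.snocEquiv (fun _ => N)) (y 0, y) i.castSucc = y i := by
      change Fin.snoc (α := fun _ => N) y (y 0) (Fin.castSucc i) = y i
      rw [Fin.snoc_castSucc]
    have h5 : (Fin.snocEquiv (fun _ => N)) (y 0, y) i.succ = y (finRotate (m + 1) i) := by
      change Fin.snoc (α := fun _ => N) y (y 0) i.succ = _
      by_cases hi : i = Fin.last m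
      · subst hi
        rw [Fin.succ_last, Fin.snoc_last, finRotate_last]
      · have hlt : (i : ℕ) < m := by
          have h6 := i.2
          have h7 : (i : ℕ) ≠ m := fun h => hi (Fin.ext h)
          omega
        have h8 : i.succ = (finRotate (m + 1) i).castSucc := by
          ext
          rw [Fin.val_succ, Fin.val_castSucc, coe_finRotate_of_ne_last hi]
        rw [h8, Fin.snoc_castSucc]
    rw [h4, h5]
  · intro e _ he
    have h2 : (Fin.snocEquiv (fun _ => N)) (e, y) (Fin.last (m + 1)) = e := by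
      simp [Fin.snocEquiv]
    have h3 : (Fin.snocEquiv (fun _ => N)) (e, y) 0 = y 0 := by
      change Fin.snoc (α := fun _ => N) y e (Fin.castSucc 0) = y 0
      rw [Fin.snoc_castSucc]
    rw [h2, h3, if_neg he]
  · intro h
    exact absurd (Finset.mem_univ _) h

end

end Run7.h539
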