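import Mathlib
import Pool.Agent.H204R3.GP.FFT
import Pool.Agent.Run7.h539.Cyc

/-!
# The first fundamental theorem for `gl_n`
-/

set_option autoImplicit false
set_option linter.unusedSectionVars false

namespace Run7.h539

open Equiv Pool.Agent.H204R3.GP Pool.Agent.H204R3.SP

section

variable {n : ℕ} {I : Type} [Fintype I] [DecidableEq I]

/-- The index involution. -/
def ginv (x : Fin n × Bool) : Fin n × Bool := (x.1, !x.2)

/-- The sign function of the form. -/
def gjj (x : Fin n × Bool) : ℂ := if x.2 then 1 else -1

/-- The multilinear form `GG π`. -/
noncomputable def GGm (π : Perm I) : MultilinearMap ℂ (fun _ : I => Matrix (Fin n) (Fin n) ℂ) ℂ :=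
  ∑ c : I → Fin n, (MultilinearMap.mkPiAlgebra ℂ I ℂ).compLinearMap
    (fun i => Matrix.entryLinearMap ℂ ℂ (c i) (c (π i)))

theorem GGm_apply (π : Perm I) (x : I → Matrix (Fin n) (Fin n) ℂ) : GGm π x = GG π x := by
  unfold GGm GG
  rw [sum_apply]
  refine Finset.sum_congr rfl fun c _ => ?_
  simp

/-- The coefficient function attached to a multilinear form. -/
noncomputable def cf (F : MultilinearMap ℂ (fun _ : I => Matrix (Fin n) (Fin n) ℂ) ℂ)
    (J : I × Bool → Fin n × Bool) : ℂ :=
  if ∀ k, (J k).2 = k.2 then F (fun i => Matrix.single (J (i, false)).1 (J (i, true)).1 1) else 0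

theorem cf_mem (F : MultilinearMap ℂ (fun _ : I => Matrix (Fin n) (Fin n) ℂ) ℂ)
    (hF : ∀ (y : Matrix (Fin n) (Fin n) ℂ) (x : I → Matrix (Fin n) (Fin n) ℂ),
      ∑ i, F (Function.update x i ⁅y, x i⁆) = 0) :
    cf F ∈ InvG (Ω := ℂ) (Prod.snd : Fin n × Bool → Bool) ginv gjj (I × Bool) Prod.snd := by
  have hkey : ∀ (p q : Fin n) (J : I × Bool → Fin n × Bool),
      ∑ k, (JJ ginv gjj (p, false) (J k) * cf F (Function.update J k (q, true)) +
        JJ ginv gjj (q, true) (J k) * cf F (Function.update J k (p, false))) = 0 := by
    intro p q J
    by_cases hJ : ∀ k, (J k).2 = k.2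
    · have h1 := hF (Matrix.single p q 1)
        (fun i => Matrix.single (J (i, false)).1 (J (i, true)).1 1)
      rw [Fintype.sum_prod_type]
      simp only [Fintype.sum_bool]
      have h2 : ∀ i : I, (JJ ginv gjj (p, false) (J (i, true)) *
          cf F (Function.update J (i, true) (q, true)) +
          JJ ginv gjj (q, true) (J (i, true)) * cf F (Function.update J (i, true) (p, false)) +
          (JJ ginv gjj (p, false) (J (i, false)) * cf F (Function.update J (i, false) (q, true)) +
          JJ ginv gjj (q, true) (J (i, false)) *
            cf F (Function.update J (i, false) (p, false)))) =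
          F (Function.update (fun i => Matrix.single (J (i, false)).1 (J (i, true)).1 (1 : ℂ)) i
            ⁅(Matrix.single p q 1 : Matrix (Fin n) (Fin n) ℂ),
              Matrix.single (J (i, false)).1 (J (i, true)).1 (1 : ℂ)⁆) := by
        intro i
        have hu1 : ∀ k, ((Function.update J (i, true) (q, true)) k).2 = k.2 := by
          intro k
          by_cases hk : k = (i, true)
          · subst hk
            simp
          · rw [Function.update_of_ne hk]
            exact hJ k
        have hu2 : ∀ k, ((Function.update J (i, false) (p, false)) k).2 = k.2 := by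
          intro k
          by_cases hk : k = (i, false)
          · subst hk
            simp
          · rw [Function.update_of_ne hk]
            exact hJ k
        have e1 : cf F (Function.update J (i, true) (q, true)) =
            F (Function.update (fun i => Matrix.single (J (i, false)).1 (J (i, true)).1 (1 : ℂ)) i
              (Matrix.single (J (i, false)).1 q 1)) := by
          unfold cf
          rw [if_pos hu1]
          congr 1
          funext j
          by_cases hj : j = i
          · subst hj
            rw [Function.update_self, Function.update_self, Function.update_of_ne (by simp)]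
          · rw [Function.update_of_ne (by simp [hj]), Function.update_of_ne (by simp [hj]),
              Function.update_of_ne hj]
        have e2 : cf F (Function.update J (i, false) (p, false)) =
            F (Function.update (fun i => Matrix.single (J (i, false)).1 (J (i, true)).1 (1 : ℂ)) i
              (Matrix.single p (J (i, true)).1 1)) := by
          unfold cf
          rw [if_pos hu2]
          congr 1
          funext j
          by_cases hj : j = i
          · subst hj
            rw [Function.update_self, Function.update_self, Function.update_of_ne (by simp)]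
          · rw [Function.update_of_ne (by simp [hj]), Function.update_of_ne (by simp [hj]),
              Function.update_of_ne hj]
        have e3 : JJ ginv gjj (q, true) (J (i, true)) = (0 : ℂ) := by
          unfold JJ ginv
          rw [if_neg]
          intro h3
          have h4 := hJ (i, true)
          rw [h3] at h4
          simp at h4
        have e4 : JJ ginv gjj (p, false) (J (i, false)) = (0 : ℂ) := by
          unfold JJ ginv
          rw [if_neg]
          intro h3
          have h4 := hJ (i, false)
          rw [h3] at h4
          simp at h4
        have e5 : JJ ginv gjj (p, false) (J (i, true)) =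
            (if (J (i, true)).1 = p then -1 else 0 : ℂ) := by
          unfold JJ ginv gjj
          have h4 := hJ (i, true)
          by_cases h5 : (J (i, true)).1 = p
          · rw [if_pos (Prod.ext h5 h4), if_pos h5]
            simp
          · rw [if_neg (fun h6 => h5 (congrArg Prod.fst h6)), if_neg h5]
        have e6 : JJ ginv gjj (q, true) (J (i, false)) =
            (if (J (i, false)).1 = q then 1 else 0 : ℂ) := by
          unfold JJ ginv gjj
          have h4 := hJ (i, false)
          by_cases h5 : (J (i, false)).1 = q
          · rw [if_pos (Prod.ext h5 h4), if_pos h5]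
            simp
          · rw [if_neg (fun h6 => h5 (congrArg Prod.fst h6)), if_neg h5]
        rw [e1, e2, e3, e4, e5, e6, Ring.lie_def, F.map_update_sub]
        have e7 : (Matrix.single p q (1 : ℂ) * Matrix.single (J (i, false)).1 (J (i, true)).1 1 :
            Matrix (Fin n) (Fin n) ℂ) =
            (if (J (i, false)).1 = q then (1 : ℂ) else 0) • Matrix.single p (J (i, true)).1 1 := by
          by_cases h5 : (J (i, false)).1 = q
          · rw [if_pos h5, one_smul, ← h5, Matrix.single_mul_single_same, mul_one]
          · rw [if_neg h5, zero_smul, Matrix.single_mul_single_of_ne]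
            exact fun h6 => h5 h6.symm
        have e8 : (Matrix.single (J (i, false)).1 (J (i, true)).1 1 * Matrix.single p q (1 : ℂ) :
            Matrix (Fin n) (Fin n) ℂ) =
            (if (J (i, true)).1 = p then (1 : ℂ) else 0) • Matrix.single (J (i, false)).1 q 1 := by
          by_cases h5 : (J (i, true)).1 = p
          · rw [if_pos h5, one_smul, ← h5, Matrix.single_mul_single_same, mul_one]
          · rw [if_neg h5, zero_smul, Matrix.single_mul_single_of_ne]
            exact h5
        rw [e7, e8, F.map_update_smul, F.map_update_smul, smul_eq_mul, smul_eq_mul]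
        split_ifs <;> ring
      rw [Finset.sum_congr rfl (fun i _ => h2 i)]
      exact h1
    · -- the tuple is not of the right type
      push Not at hJ
      obtain ⟨k0, hk0⟩ := hJ
      refine Finset.sum_eq_zero fun k _ => ?_
      by_cases hk : k = k0
      · subst hk
        by_cases h3 : J k = (p, true)
        · have e1 : cf F (Function.update J k (q, true)) = 0 := by
            unfold cf
            rw [if_neg]
            intro h4
            have h5 := h4 k
            rw [Function.update_self] at h5
            rw [h3] at hk0
            exact hk0 h5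
          have e2 : JJ ginv gjj (q, true) (J k) = (0 : ℂ) := by
            unfold JJ ginv
            rw [if_neg]
            rw [h3]
            simp
          rw [e1, e2]
          ring
        · have e1 : JJ ginv gjj (p, false) (J k) = (0 : ℂ) := by
            unfold JJ ginv
            rw [if_neg]
            simpa using h3
          rw [e1, zero_mul, zero_add]
          by_cases h4 : J k = (q, false)
          · have e2 : cf F (Function.update J k (p, false)) = 0 := by
              unfold cf
              rw [if_neg]
              intro h6
              have h5 := h6 k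
              rw [Function.update_self] at h5
              rw [h4] at hk0
              exact hk0 h5
            rw [e2, mul_zero]
          · have e2 : JJ ginv gjj (q, true) (J k) = (0 : ℂ) := by
              unfold JJ ginv
              rw [if_neg]
              simpa using h4
            rw [e2, zero_mul]
      · have e1 : ∀ c, cf F (Function.update J k c) = 0 := by
          intro c
          unfold cf
          rw [if_neg]
          intro h4
          have h5 := h4 k0
          rw [Function.update_of_ne (fun h6 => hk h6.symm)] at h5
          exact hk0 h5
        rw [e1, e1]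
        ring
  refine ⟨fun b c hbc J => ?_, fun J hJ k => ?_⟩
  · obtain ⟨p, b'⟩ := b
    obtain ⟨q, c'⟩ := c
    simp only [ginv] at hbc
    cases b'
    · have hc' : c' = true := by simpa using hbc.symm
      subst hc'
      exact hkey p q J
    · have hc' : c' = false := by simpa using hbc.symm
      subst hc'
      have h1 := hkey q p J
      rw [← h1]
      refine Finset.sum_congr rfl fun k _ => ?_
      ring
  · by_contra h
    apply hJ
    unfold cf
    rw [if_neg]
    intro h2
    exact h (h2 k)

/-- The index tuple of a tuple of matrix units. -/
def tJ (r s : I → Fin n) : I × Bool → Fin n × Bool :=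
  fun k => (if k.2 then s k.1 else r k.1, k.2)

theorem span_form (m : ℕ) (D : (I × Bool → Fin n × Bool) → ℂ)
    (hD : D ∈ MatG (Ω := ℂ) (Prod.snd : Fin n × Bool → Bool) ginv gjj (I × Bool) m) :
    ∃ a : Perm I → ℂ, ∀ r s : I → Fin n,
      D (tJ r s) = ∑ π, a π * ∏ i, (if s i = r (π i) then 1 else 0) := by
  unfold MatG at hD
  induction hD using Submodule.span_induction with
  | mem D hD =>
    obtain ⟨e, c, rfl⟩ := hD
    by_cases hA : ∀ u, (e (u, 1)).2 = !(e (u, 0)).2 ∧ (e (u, 0)).2 = c u
    · have ha : ∀ u, e (u, if (e (u, 0)).2 then 0 else 1) =
          ((e (u, if (e (u, 0)).2 then 0 else 1)).1, true) := by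
        intro u
        refine Prod.ext rfl ?_
        cases h : (e (u, 0)).2
        · have h1 := (hA u).1
          rw [h] at h1
          simpa using h1
        · simpa using h
      have hb : ∀ u, e (u, if (e (u, 0)).2 then 1 else 0) =
          ((e (u, if (e (u, 0)).2 then 1 else 0)).1, false) := by
        intro u
        refine Prod.ext rfl ?_
        cases h : (e (u, 0)).2
        · simpa using h
        · have h1 := (hA u).1
          rw [h] at h1
          simpa using h1
      have hcard : Fintype.card (Fin m) = Fintype.card I := by
        have h1 := Fintype.card_congr e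
        rw [Fintype.card_prod, Fintype.card_prod, Fintype.card_fin, Fintype.card_bool,
          Fintype.card_fin] at h1
        rw [Fintype.card_fin]
        omega
      have ha1 : Function.Bijective (fun u => (e (u, if (e (u, 0)).2 then 0 else 1)).1) := by
        refine (Fintype.bijective_iff_injective_and_card _).2 ⟨fun u u' huu => ?_, hcard⟩
        simp only at huu
        have h1 := ha u
        rw [huu, ← ha u'] at h1
        exact congrArg Prod.fst (e.injective h1)
      have hb1 : Function.Bijective (fun u => (e (u, if (e (u, 0)).2 then 1 else 0)).1) := by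
        refine (Fintype.bijective_iff_injective_and_card _).2 ⟨fun u u' huu => ?_, hcard⟩
        simp only at huu
        have h1 := hb u
        rw [huu, ← hb u'] at h1
        exact congrArg Prod.fst (e.injective h1)
      let Ea := Equiv.ofBijective _ ha1
      let Eb := Equiv.ofBijective _ hb1
      refine ⟨fun π => if π = Ea.symm.trans Eb then
        ∏ u, (if (e (u, 0)).2 then 1 else -1) else 0, fun r s => ?_⟩
      have h2 : ∀ u, (if (tJ r s (e (u, 0))).2 = c u then
          JJ ginv gjj (tJ r s (e (u, 0))) (tJ r s (e (u, 1))) else (0 : ℂ)) =
          (if (e (u, 0)).2 then 1 else -1) *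
            (if s (Ea u) = r ((Ea.symm.trans Eb) (Ea u)) then 1 else 0) := by
        intro u
        have h3 : (Ea.symm.trans Eb) (Ea u) = Eb u := by simp
        rw [h3]
        have h4 : (tJ r s (e (u, 0))).2 = c u := (hA u).2
        rw [if_pos h4]
        have h5 := ha u
        have h6 := hb u
        have h7 : Ea u = (e (u, if (e (u, 0)).2 then 0 else 1)).1 := rfl
        have h8 : Eb u = (e (u, if (e (u, 0)).2 then 1 else 0)).1 := rfl
        rw [h7, h8]
        cases h : (e (u, 0)).2
        · rw [h] at h5 h6
          simp only [Bool.false_eq_true, if_false] at h5 h6 ⊢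
          unfold JJ tJ ginv gjj
          rw [h5, h6]
          simp only [Bool.not_false, Prod.mk.injEq, and_true, if_true, Bool.false_eq_true,
            if_false]
          split_ifs <;> simp
        · rw [h] at h5 h6
          simp only [if_true] at h5 h6 ⊢
          unfold JJ tJ ginv gjj
          rw [h5, h6]
          simp only [Bool.not_true, Prod.mk.injEq, and_true, if_true, Bool.false_eq_true,
            if_false]
          by_cases h9 : r (e (u, 1)).1 = s (e (u, 0)).1
          · rw [if_pos h9, if_pos h9.symm, mul_one]
          · rw [if_neg h9, if_neg (fun h10 => h9 h10.symm), mul_zero]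
      rw [Finset.sum_eq_single (Ea.symm.trans Eb)]
      · beta_reduce
        rw [if_pos rfl]
        unfold matG
        rw [Finset.prod_congr rfl (fun u _ => h2 u), Finset.prod_mul_distrib]
        congr 1
        exact Equiv.prod_comp Ea (fun i => if s i = r ((Ea.symm.trans Eb) i) then (1 : ℂ) else 0)
      · intro π _ hπ
        beta_reduce
        rw [if_neg hπ, zero_mul]
      · intro h
        exact absurd (Finset.mem_univ _) h
    · refine ⟨fun _ => 0, fun r s => ?_⟩
      simp only [zero_mul, Finset.sum_const_zero]
      push Not at hA
      obtain ⟨u, hu⟩ := hA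
      unfold matG
      refine Finset.prod_eq_zero (Finset.mem_univ u) ?_
      by_cases h1 : (e (u, 1)).2 = !(e (u, 0)).2
      · have h2 := hu h1
        rw [if_neg]
        exact h2
      · have h3 : JJ ginv gjj (tJ r s (e (u, 0))) (tJ r s (e (u, 1))) = (0 : ℂ) := by
          unfold JJ
          rw [if_neg]
          intro h4
          exact h1 (congrArg Prod.snd h4)
        rw [h3]
        split_ifs <;> rfl
  | zero => exact ⟨fun _ => 0, fun r s => by simp⟩
  | add x y _ _ hx hy =>
    obtain ⟨a, ha⟩ := hx
    obtain ⟨b, hb⟩ := hy
    refine ⟨fun π => a π + b π, fun r s => ?_⟩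
    rw [Pi.add_apply, ha, hb, ← Finset.sum_add_distrib]
    exact Finset.sum_congr rfl fun π _ => by ring
  | smul c x _ hx =>
    obtain ⟨a, ha⟩ := hx
    refine ⟨fun π => c * a π, fun r s => ?_⟩
    rw [Pi.smul_apply, ha, smul_eq_mul, Finset.mul_sum]
    exact Finset.sum_congr rfl fun π _ => by ring

theorem GG_single (π : Perm I) (r s : I → Fin n) :
    GG π (fun i => Matrix.single (r i) (s i) (1 : ℂ)) =
      ∏ i, (if s i = r (π i) then 1 else 0) := by
  unfold GG
  rw [Finset.sum_eq_single r]
  · refine Finset.prod_congr rfl fun i _ => ?_
    beta_reduce
    rw [Matrix.single_apply]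
    by_cases h : s i = r (π i)
    · rw [if_pos ⟨rfl, h⟩, if_pos h]
    · rw [if_neg (fun h2 => h h2.2), if_neg h]
  · intro c _ hc
    obtain ⟨i, hi⟩ := Function.ne_iff.1 hc
    refine Finset.prod_eq_zero (Finset.mem_univ i) ?_
    beta_reduce
    rw [Matrix.single_apply, if_neg]
    exact fun h => hi h.1.symm
  · intro h
    exact absurd (Finset.mem_univ _) h

/-- **First fundamental theorem for `gl_n`**: an invariant multilinear form in matrices is a
linear combination of products of traces. -/
theorem fft_gl (F : MultilinearMap ℂ (fun _ : I => Matrix (Fin n) (Fin n) ℂ) ℂ)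
    (hF : ∀ (y : Matrix (Fin n) (Fin n) ℂ) (x : I → Matrix (Fin n) (Fin n) ℂ),
      ∑ i, F (Function.update x i ⁅y, x i⁆) = 0) :
    ∃ a : Perm I → ℂ, ∀ x, F x = ∑ π, a π * GG π x := by
  have h1 : cf F ∈ MatG (Ω := ℂ) (Prod.snd : Fin n × Bool → Bool) ginv gjj (I × Bool)
      (Fintype.card I) := by
    refine fftG (Ω := ℂ) (cls := (Prod.snd : Fin n × Bool → Bool)) (inv := ginv) (jj := gjj)
      ?_ ?_ ?_ ?_ (Fintype.card I) (I × Bool) ?_ Prod.snd (cf_mem F hF)
    · intro x
      simp [ginv]
    · intro x
      unfold gjj ginv
      cases x.2 <;> simp
    · intro x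
      unfold gjj
      cases x.2 <;> simp
    · intro x y hxy
      simp [ginv, hxy]
    · rw [Fintype.card_prod, Fintype.card_bool, mul_comm]
  obtain ⟨a, ha⟩ := span_form _ _ h1
  refine ⟨a, fun x => ?_⟩
  have h2 : F = ∑ π, a π • GGm π := by
    refine Module.Basis.ext_multilinear (fun _ => Matrix.stdBasis ℂ (Fin n) (Fin n)) fun v => ?_
    have h0 : ∀ p : Fin n × Fin n, Matrix.stdBasis ℂ (Fin n) (Fin n) p =
        Matrix.single p.1 p.2 1 := fun p => Matrix.stdBasis_eq_single ℂ p.1 p.2
    simp only [h0]
    rw [sum_apply]
    have h3 : F (fun i => Matrix.single (v i).1 (v i).2 1) =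
        cf F (tJ (fun i => (v i).1) (fun i => (v i).2)) := by
      unfold cf tJ
      rw [if_pos (fun k => rfl)]
      rfl
    rw [h3, ha]
    refine Finset.sum_congr rfl fun π _ => ?_
    rw [smul_apply, smul_eq_mul, GGm_apply, GG_single]
  rw [h2, sum_apply]
  refine Finset.sum_congr rfl fun π _ => ?_
  rw [smul_apply, smul_eq_mul, GGm_apply]

end

end Run7.h539
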