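import Mathlib
import Pool.Agent.Run7.h539.GlFFT

/-!
# Cartan forms of products of traces
-/

set_option autoImplicit false
set_option linter.unusedSectionVars false

namespace Run7.h539

open Equiv

/-! ### Transitive permutations -/

section

variable {X Y : Type*}

/-- A permutation with only one orbit. -/
def Full (π : Perm X) : Prop := ∀ x y, π.SameCycle x y

theorem Full.apply_ne {π : Perm X} [Nontrivial X] (h : Full π) (x : X) : π x ≠ x := by
  intro hx
  obtain ⟨y, hy⟩ := exists_ne x
  obtain ⟨m, hm⟩ := h x y
  have h1 : (π ^ m) x = x := Perm.zpow_apply_eq_self_of_apply_eq_self hx m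
  exact hy (hm.symm.trans h1)

theorem Full.isCycle {π : Perm X} [Nontrivial X] (h : Full π) : π.IsCycle := by
  obtain ⟨x, y, _⟩ := exists_pair_ne X
  exact ⟨x, h.apply_ne x, fun z _ => h x z⟩

theorem Full.support [Fintype X] [DecidableEq X] {π : Perm X} [Nontrivial X] (h : Full π) :
    π.support = Finset.univ := by
  ext x
  simp [h.apply_ne x]

theorem Full.isConj [Fintype X] [DecidableEq X] {π π' : Perm X} (h : Full π) (h' : Full π') :
    ∃ τ : Perm X, π' = τ * π * τ⁻¹ := by
  rcases subsingleton_or_nontrivial X with hX | hX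
  · exact ⟨1, Subsingleton.elim _ _⟩
  · have h1 := h.isCycle.isConj h'.isCycle (by rw [h.support, h'.support])
    obtain ⟨τ, hτ⟩ := isConj_iff.1 h1
    exact ⟨τ, hτ.symm⟩

theorem Full.isConj_fix [Fintype X] [DecidableEq X] {π π' : Perm X} (h : Full π) (h' : Full π')
    (x : X) : ∃ τ : Perm X, τ x = x ∧ π' = τ * π * τ⁻¹ := by
  obtain ⟨τ, hτ⟩ := h.isConj h'
  obtain ⟨m, hm⟩ := h' (τ x) x
  refine ⟨π' ^ m * τ, hm, ?_⟩
  have h1 : π' ^ m * τ * π * (π' ^ m * τ)⁻¹ = π' ^ m * (τ * π * τ⁻¹) * (π' ^ m)⁻¹ := by group
  rw [h1, ← hτ]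
  group

theorem full_finRotate (m : ℕ) : Full (finRotate (m + 1)) := by
  rcases m with _ | m
  · intro x y
    have : x = y := Fin.ext (by omega)
    rw [this]
  · intro x y
    have h1 : ∀ z, finRotate (m + 1 + 1) z ≠ z := by
      intro z
      have h2 : z ∈ (finRotate (m + 2)).support := by
        rw [support_finRotate]
        exact Finset.mem_univ _
      exact Perm.mem_support.1 h2
    exact isCycle_finRotate.sameCycle (h1 x) (h1 y)

theorem Full.permCongr {π : Perm X} (h : Full π) (e : X ≃ Y) : Full (e.permCongr π) := by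
  intro x y
  obtain ⟨m, hm⟩ := h (e.symm x) (e.symm y)
  refine ⟨m, ?_⟩
  have h1 : ∀ m : ℤ, (e.permCongr π) ^ m = e.permCongr (π ^ m) := by
    intro m
    exact (map_zpow (Equiv.permCongrHom e) π m).symm
  rw [h1]
  simp [hm]

end

/-! ### The permutation attached to a product of traces -/

section

variable {k : ℕ}

/-- The first letter. -/
def fl : Option (Fin k) → Option (Fin k × Bool)
  | none => none
  | some i => some (i, false)

/-- The last letter. -/
def ll : Option (Fin k) → Option (Fin k × Bool)
  | none => none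
  | some i => some (i, true)

/-- The permutation of the letters. -/
def nuF (π : Perm (Option (Fin k))) : Option (Fin k × Bool) → Option (Fin k × Bool)
  | none => fl (π none)
  | some (i, false) => some (i, true)
  | some (i, true) => fl (π (some i))

/-- Its inverse. -/
def nuB (π : Perm (Option (Fin k))) : Option (Fin k × Bool) → Option (Fin k × Bool)
  | none => ll (π.symm none)
  | some (i, false) => ll (π.symm (some i))
  | some (i, true) => some (i, false)

theorem nuF_ll (π : Perm (Option (Fin k))) (j : Option (Fin k)) : nuF π (ll j) = fl (π j) := by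
  cases j <;> rfl

theorem nuB_fl (π : Perm (Option (Fin k))) (j : Option (Fin k)) :
    nuB π (fl j) = ll (π.symm j) := by
  cases j <;> rfl

/-- The permutation of the letters. -/
def nu (π : Perm (Option (Fin k))) : Perm (Option (Fin k × Bool)) where
  toFun := nuF π
  invFun := nuB π
  left_inv := by
    rintro (_ | ⟨i, _ | _⟩)
    · change nuB π (fl (π none)) = none
      rw [nuB_fl, Equiv.symm_apply_apply]
      rfl
    · rfl
    · change nuB π (fl (π (some i))) = _
      rw [nuB_fl, Equiv.symm_apply_apply]
      rfl
  right_inv := by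
    rintro (_ | ⟨i, _ | _⟩)
    · change nuF π (ll (π.symm none)) = none
      rw [nuF_ll, Equiv.apply_symm_apply]
      rfl
    · change nuF π (ll (π.symm (some i))) = _
      rw [nuF_ll, Equiv.apply_symm_apply]
      rfl
    · rfl

theorem nu_none (π : Perm (Option (Fin k))) : nu π none = fl (π none) := rfl

theorem nu_false (π : Perm (Option (Fin k))) (i : Fin k) :
    nu π (some (i, false)) = some (i, true) := rfl

theorem nu_true (π : Perm (Option (Fin k))) (i : Fin k) :
    nu π (some (i, true)) = fl (π (some i)) := rfl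

/-- Forget the second component. -/
def pl : Option (Fin k × Bool) → Option (Fin k)
  | none => none
  | some (i, _) => some i

theorem pl_fl (j : Option (Fin k)) : pl (fl j) = j := by cases j <;> rfl

theorem sameCycle_pl (π : Perm (Option (Fin k))) (x : Option (Fin k × Bool)) :
    π.SameCycle (pl x) (pl (nu π x)) := by
  rcases x with _ | ⟨i, _ | _⟩
  · rw [nu_none, pl_fl]
    exact ⟨1, by simp [pl]⟩
  · exact Perm.SameCycle.refl _ _
  · rw [nu_true, pl_fl]
    exact ⟨1, by simp [pl]⟩

theorem sameCycle_of_nu (π : Perm (Option (Fin k))) (x y : Option (Fin k × Bool))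
    (h : (nu π).SameCycle x y) : π.SameCycle (pl x) (pl y) := by
  obtain ⟨m, hm⟩ := h.exists_nat_pow_eq
  rw [← hm]
  clear hm h
  induction m with
  | zero => exact Perm.SameCycle.refl _ _
  | succ m ih =>
    rw [pow_succ', Perm.mul_apply]
    exact ih.trans (sameCycle_pl π _)

theorem sameCycle_fl_step (π : Perm (Option (Fin k))) (j : Option (Fin k)) :
    (nu π).SameCycle (fl j) (fl (π j)) := by
  rcases j with _ | i
  · exact ⟨1, by simp [nu_none, fl]⟩
  · refine ⟨2, ?_⟩
    change (nu π ^ (2 : ℕ)) _ = _
    rw [pow_two, Perm.mul_apply]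
    rfl

theorem sameCycle_fl (π : Perm (Option (Fin k))) (j j' : Option (Fin k))
    (h : π.SameCycle j j') : (nu π).SameCycle (fl j) (fl j') := by
  obtain ⟨m, hm⟩ := h.exists_nat_pow_eq
  rw [← hm]
  clear hm h
  induction m with
  | zero => exact Perm.SameCycle.refl _ _
  | succ m ih =>
    rw [pow_succ', Perm.mul_apply]
    exact ih.trans (sameCycle_fl_step π _)

theorem full_nu {π : Perm (Option (Fin k))} (h : Full π) : Full (nu π) := by
  have h1 : ∀ x, (nu π).SameCycle none x := by
    intro x
    rcases x with _ | ⟨i, _ | _⟩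
    · exact Perm.SameCycle.refl _ _
    · exact sameCycle_fl π none (some i) (h none (some i))
    · refine (sameCycle_fl π none (some i) (h none (some i))).trans ⟨1, ?_⟩
      rfl
  intro x y
  exact (h1 x).symm.trans (h1 y)

theorem exists_not_sameCycle {π : Perm (Option (Fin k))} (h : ¬ Full π) :
    ∃ i : Fin k, ¬ π.SameCycle (some i) none := by
  by_contra hc
  push Not at hc
  apply h
  have h1 : ∀ x, π.SameCycle x none := by
    intro x
    rcases x with _ | i
    · exact Perm.SameCycle.refl _ _
    · exact hc i
  intro x y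
  exact (h1 x).trans (h1 y).symm

/-- If `π` is not transitive, some odd permutation commutes with `nu π`. -/
theorem exists_odd_commute {π : Perm (Option (Fin k))} (h : ¬ Full π) :
    ∃ τ : Perm (Option (Fin k × Bool)), Commute τ (nu π) ∧ Perm.sign τ = -1 := by
  classical
  obtain ⟨i, hi⟩ := exists_not_sameCycle h
  have hne : nu π (some (i, false)) ≠ some (i, false) := by
    rw [nu_false]
    simp
  have hmem : some (i, false) ∈ (nu π).support := Perm.mem_support.2 hne
  refine ⟨(nu π).cycleOf (some (i, false)), ?_, ?_⟩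
  · exact Perm.self_mem_cycle_factors_commute (Perm.cycleOf_mem_cycleFactorsFinset_iff.2 hmem)
  · rw [(Perm.isCycle_cycleOf _ hne).sign]
    have h1 : ((nu π).cycleOf (some (i, false))).support =
        ((Finset.univ.filter (fun j : Fin k => (nu π).SameCycle (some (i, false))
          (some (j, false)))) ×ˢ (Finset.univ : Finset Bool)).map
            ⟨some, Option.some_injective _⟩ := by
      ext x
      rw [Perm.mem_support_cycleOf_iff]
      simp only [Finset.mem_map, Finset.mem_product, Finset.mem_filter, Finset.mem_univ, true_and,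
        and_true, Function.Embedding.coeFn_mk, Prod.exists]
      constructor
      · rintro ⟨h2, _⟩
        rcases x with _ | ⟨j, b⟩
        · exfalso
          exact hi (sameCycle_of_nu π _ _ h2)
        · refine ⟨j, b, ?_, rfl⟩
          cases b
          · exact h2
          · have h3 : (nu π).SameCycle (some (j, false)) (some (j, true)) := ⟨1, rfl⟩
            exact h2.trans h3.symm
      · rintro ⟨j, b, h2, rfl⟩
        refine ⟨?_, hmem⟩
        cases b
        · exact h2
        · have h3 : (nu π).SameCycle (some (j, false)) (some (j, true)) := ⟨1, rfl⟩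
          exact h2.trans h3
    rw [h1, Finset.card_map, Finset.card_product, Finset.card_univ, Fintype.card_bool, mul_comm,
      pow_mul]
    simp

/-- Conjugation of `nu`. -/
theorem nu_conj (π : Perm (Option (Fin k))) (τ : Perm (Fin k)) :
    nu (τ.optionCongr * π * τ.optionCongr⁻¹) =
      (Equiv.prodCongrLeft (fun _ : Bool => τ)).optionCongr * nu π *
        ((Equiv.prodCongrLeft (fun _ : Bool => τ)).optionCongr)⁻¹ := by
  rw [eq_mul_inv_iff_mul_eq]
  have hfl : ∀ j : Option (Fin k), fl (τ.optionCongr j) =
      (Equiv.prodCongrLeft (fun _ : Bool => τ)).optionCongr (fl j) := by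
    intro j
    cases j <;> rfl
  apply Equiv.ext
  rintro (_ | ⟨i, _ | _⟩)
  · change nu (τ.optionCongr * π * τ.optionCongr⁻¹) none =
      (Equiv.prodCongrLeft (fun _ : Bool => τ)).optionCongr (nu π none)
    rw [nu_none, nu_none, ← hfl]
    congr 1
  · rfl
  · change nu (τ.optionCongr * π * τ.optionCongr⁻¹) (some (τ i, true)) =
      (Equiv.prodCongrLeft (fun _ : Bool => τ)).optionCongr (nu π (some (i, true)))
    rw [nu_true, nu_true, ← hfl]
    congr 1
    have h1 : (some (τ i) : Option (Fin k)) = τ.optionCongr (some i) := rfl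
    have h2 : (τ.optionCongr⁻¹ : Perm (Option (Fin k))) (τ.optionCongr (some i)) = some i :=
      Equiv.symm_apply_apply _ _
    rw [h1, Perm.mul_apply, Perm.mul_apply, h2]

theorem exists_sign_one {π π' : Perm (Option (Fin k))} (h : Full π) (h' : Full π') :
    ∃ T : Perm (Option (Fin k × Bool)), Perm.sign T = 1 ∧ nu π' = T * nu π * T⁻¹ := by
  obtain ⟨τ, hτ0, hτ⟩ := h.isConj_fix h' none
  have h1 : (Equiv.removeNone τ).optionCongr = τ := by
    rw [map_equiv_removeNone, hτ0, Equiv.swap_self]
    rfl
  refine ⟨(Equiv.prodCongrLeft (fun _ : Bool => Equiv.removeNone τ)).optionCongr, ?_, ?_⟩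
  · rw [Equiv.optionCongr_sign, Perm.sign_prodCongrLeft]
    rw [Fintype.prod_bool]
    exact Int.units_mul_self _
  · rw [← nu_conj, h1, hτ]

end

end Run7.h539
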