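import Mathlib
import Pool.Agent.Run7.h539.Cart

/-!
# Cartan forms of products of traces, continued
-/

set_option autoImplicit false
set_option linter.unusedSectionVars false

namespace Run7.h539

open Equiv

section

variable {k : ℕ} {N : Type*} [Fintype N] [DecidableEq N] {R : Type*} [CommRing R]

/-- Multiply the two letters in each pair. -/
def pr (y : Option (Fin k × Bool) → Matrix N N R) : Option (Fin k) → Matrix N N R :=
  fun j => Option.elim j (y none) (fun i => y (some (i, false)) * y (some (i, true)))

/-- Take the commutator of the two letters in each pair. -/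
def com (y : Option (Fin k × Bool) → Matrix N N R) : Option (Fin k) → Matrix N N R :=
  fun j => Option.elim j (y none) (fun i => ⁅y (some (i, false)), y (some (i, true))⁆)

/-- The indices of the letters. -/
def splitIdx (k : ℕ) (N : Type*) :
    (Option (Fin k × Bool) → N) ≃ (Option (Fin k) → N) × (Fin k → N) where
  toFun C := (fun j => C (fl j), fun i => C (some (i, true)))
  invFun p := fun x => Option.elim x (p.1 none) (fun q => if q.2 then p.2 q.1 else p.1 (some q.1))
  left_inv C := by
    funext x
    rcases x with _ | ⟨i, _ | _⟩ <;> rfl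
  right_inv p := by
    refine Prod.ext ?_ ?_
    · funext j
      cases j <;> rfl
    · rfl

theorem GG_pr (π : Perm (Option (Fin k))) (y : Option (Fin k × Bool) → Matrix N N R) :
    GG π (pr y) = GG (nu π) y := by
  unfold GG
  rw [← Equiv.sum_comp (splitIdx k N).symm, Fintype.sum_prod_type]
  refine Finset.sum_congr rfl fun c _ => ?_
  rw [Fintype.prod_option]
  have h1 : ∀ i : Fin k, pr y (some i) (c (some i)) (c (π (some i))) =
      ∑ m, y (some (i, false)) (c (some i)) m * y (some (i, true)) m (c (π (some i))) :=
    fun i => Matrix.mul_apply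
  simp only [h1]
  rw [Finset.prod_univ_sum, Fintype.piFinset_univ, Finset.mul_sum]
  refine Finset.sum_congr rfl fun m _ => ?_
  rw [Fintype.prod_option, Fintype.prod_prod_type]
  have hfl : ∀ j, (splitIdx k N).symm (c, m) (fl j) = c j := by
    intro j
    cases j <;> rfl
  rw [nu_none, hfl]
  congr 1
  refine Finset.prod_congr rfl fun i _ => ?_
  rw [Fintype.prod_bool, nu_true, nu_false, hfl, mul_comm]
  rfl

/-- The alternating sums of the trace forms `GG π` over matrices of size at most `k` vanish. -/
theorem sum_sign_GG_eq_zero {I : Type*} [Fintype I] [DecidableEq I]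
    (hN : Fintype.card N < Fintype.card I) (y : I → Matrix N N R) :
    ∑ π : Perm I, ((Perm.sign π : ℤ) : R) * GG π y = 0 := by
  unfold GG
  simp only [Finset.mul_sum]
  rw [Finset.sum_comm]
  refine Finset.sum_eq_zero fun c _ => ?_
  have h1 : ∑ π : Perm I, ((Perm.sign π : ℤ) : R) * ∏ i, y i (c i) (c (π i)) =
      (Matrix.of (fun i j => y j (c j) (c i))).det := by
    rw [Matrix.det_apply']
    rfl
  rw [h1]
  obtain ⟨i, j, hij, hc⟩ := Fintype.exists_ne_map_eq_of_card_lt c hN
  refine Matrix.det_zero_of_row_eq hij ?_
  funext l
  simp [hc]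

theorem aG_nu_eq_zero [IsDomain R] [CharZero R] {π : Perm (Option (Fin k))} (h : ¬ Full π)
    (x : Option (Fin k × Bool) → Matrix N N R) : aG (nu π) x = 0 := by
  obtain ⟨τ, h1, h2⟩ := exists_odd_commute h
  have h3 := aG_two_mul_eq_zero (nu π) τ h1 h2 x
  rcases mul_eq_zero.1 h3 with h4 | h4
  · exact absurd h4 two_ne_zero
  · exact h4

theorem aG_nu_eq {π π' : Perm (Option (Fin k))} (h : Full π) (h' : Full π')
    (x : Option (Fin k × Bool) → Matrix N N R) : aG (nu π') x = aG (nu π) x := by
  obtain ⟨T, h1, h2⟩ := exists_sign_one h h'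
  rw [h2, aG_conj, h1]
  simp

/-- The Amitsur–Levitzki theorem. -/
theorem aG_nu_eq_zero_of_le [IsDomain R] [CharZero R] {π : Perm (Option (Fin k))} (h : Full π)
    (hN : Fintype.card N ≤ k) (x : Option (Fin k × Bool) → Matrix N N R) :
    aG (nu π) x = 0 := by
  classical
  have h1 : ∑ π' : Perm (Option (Fin k)), ((Perm.sign π' : ℤ) : R) * aG (nu π') x = 0 := by
    unfold aG
    simp only [Finset.mul_sum]
    rw [Finset.sum_comm]
    refine Finset.sum_eq_zero fun σ _ => ?_
    have h2 := sum_sign_GG_eq_zero (I := Option (Fin k)) (by simpa using hN)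
      (pr (fun i => x (σ i)))
    simp only [GG_pr] at h2
    have h3 : ∀ π' : Perm (Option (Fin k)), ((Perm.sign π' : ℤ) : R) *
        (((Perm.sign σ : ℤ) : R) * GG (nu π') (fun i => x (σ i))) =
        ((Perm.sign σ : ℤ) : R) * (((Perm.sign π' : ℤ) : R) * GG (nu π') (fun i => x (σ i))) :=
      fun π' => by ring
    simp only [h3]
    rw [← Finset.mul_sum, h2, mul_zero]
  have h2 : ∀ π' : Perm (Option (Fin k)), ((Perm.sign π' : ℤ) : R) * aG (nu π') x =
      if Full π' then ((Perm.sign π : ℤ) : R) * aG (nu π) x else 0 := by
    intro π'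
    by_cases hf : Full π'
    · rw [if_pos hf, aG_nu_eq h hf]
      congr 2
      obtain ⟨τ, hτ⟩ := h.isConj hf
      rw [hτ]
      simp only [Perm.sign_mul, Perm.sign_inv]
      rw [mul_comm (Perm.sign τ) (Perm.sign π), mul_assoc, Int.units_mul_self, mul_one]
    · rw [if_neg hf, aG_nu_eq_zero hf, mul_zero]
  rw [Finset.sum_congr rfl (fun π' _ => h2 π')] at h1
  rw [← Finset.sum_filter, Finset.sum_const, nsmul_eq_mul] at h1
  rcases mul_eq_zero.1 h1 with h3 | h3
  · exfalso
    rw [Nat.cast_eq_zero, Finset.card_eq_zero] at h3
    have h4 : π ∈ Finset.univ.filter (fun π' : Perm (Option (Fin k)) => Full π') := by simp [h]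
    rw [h3] at h4
    simp at h4
  · rcases mul_eq_zero.1 h3 with h4 | h4
    · exfalso
      rcases Int.units_eq_one_or (Perm.sign π) with h5 | h5 <;> rw [h5] at h4 <;> simp at h4
    · exact h4

/-- Some commutators replaced by twice the products. -/
def mixd (S : Finset (Fin k)) (y : Option (Fin k × Bool) → Matrix N N R) :
    Option (Fin k) → Matrix N N R :=
  fun j => Option.elim j (y none) (fun i => if i ∈ S then
    (2 : R) • (y (some (i, false)) * y (some (i, true))) else
    ⁅y (some (i, false)), y (some (i, true))⁆)

theorem sum_mixd (F : MultilinearMap R (fun _ : Option (Fin k) => Matrix N N R) R)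
    (x : Option (Fin k × Bool) → Matrix N N R) (S : Finset (Fin k)) :
    ∑ σ : Perm (Option (Fin k × Bool)), ((Perm.sign σ : ℤ) : R) * F (mixd S (fun i => x (σ i))) =
      ∑ σ : Perm (Option (Fin k × Bool)), ((Perm.sign σ : ℤ) : R) *
        F (com (fun i => x (σ i))) := by
  induction S using Finset.induction_on with
  | empty =>
    refine Finset.sum_congr rfl fun σ _ => ?_
    congr 2
  | insert i0 S hi0 ih =>
    rw [← ih]
    -- the auxiliary functions
    have e1 : ∀ y : Option (Fin k × Bool) → Matrix N N R, mixd (insert i0 S) y =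
        Function.update (mixd S y) (some i0)
          ((2 : R) • (y (some (i0, false)) * y (some (i0, true)))) := by
      intro y
      funext j
      rcases j with _ | i
      · rw [Function.update_of_ne (by simp)]
        rfl
      · by_cases hi : i = i0
        · subst hi
          rw [Function.update_self]
          simp [mixd]
        · rw [Function.update_of_ne (by simpa using hi)]
          simp [mixd, hi]
    have e2 : ∀ y : Option (Fin k × Bool) → Matrix N N R, mixd S y =
        Function.update (mixd S y) (some i0)
          (y (some (i0, false)) * y (some (i0, true)) -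
            y (some (i0, true)) * y (some (i0, false))) := by
      intro y
      funext j
      rcases j with _ | i
      · rw [Function.update_of_ne (by simp)]
      · by_cases hi : i = i0
        · subst hi
          rw [Function.update_self]
          simp [mixd, hi0, Ring.lie_def]
        · rw [Function.update_of_ne (by simpa using hi)]
    have e3 : ∀ y : Option (Fin k × Bool) → Matrix N N R,
        F (Function.update (mixd S y) (some i0) (y (some (i0, true)) * y (some (i0, false)))) =
        (fun z : Option (Fin k × Bool) → Matrix N N R =>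
          F (Function.update (mixd S z) (some i0) (z (some (i0, false)) * z (some (i0, true)))))
        (fun i => y (Equiv.swap (some (i0, false)) (some (i0, true)) i)) := by
      intro y
      simp only
      congr 1
      funext j
      rcases j with _ | i
      · rw [Function.update_of_ne (by simp), Function.update_of_ne (by simp)]
        have h1 : Equiv.swap (some (i0, false)) (some (i0, true)) (none : Option (Fin k × Bool)) =
            none := Equiv.swap_apply_of_ne_of_ne (by simp) (by simp)
        simp only [mixd, Option.elim_none, h1]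
      · by_cases hi : i = i0
        · subst hi
          rw [Function.update_self, Function.update_self, Equiv.swap_apply_left,
            Equiv.swap_apply_right]
        · rw [Function.update_of_ne (by simpa using hi), Function.update_of_ne (by simpa using hi)]
          have h1 : ∀ b, Equiv.swap (some (i0, false)) (some (i0, true))
              (some (i, b) : Option (Fin k × Bool)) = some (i, b) := fun b =>
            Equiv.swap_apply_of_ne_of_ne (by simp [hi]) (by simp [hi])
          simp only [mixd, Option.elim_some, h1]
    have e4 : ∑ σ : Perm (Option (Fin k × Bool)), ((Perm.sign σ : ℤ) : R) *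
        F (Function.update (mixd S (fun i => x (σ i))) (some i0)
          (x (σ (some (i0, true))) * x (σ (some (i0, false))))) =
        -∑ σ : Perm (Option (Fin k × Bool)), ((Perm.sign σ : ℤ) : R) *
        F (Function.update (mixd S (fun i => x (σ i))) (some i0)
          (x (σ (some (i0, false))) * x (σ (some (i0, true))))) := by
      rw [← Finset.sum_neg_distrib]
      refine Fintype.sum_equiv
        (Equiv.mulRight (Equiv.swap (some (i0, false)) (some (i0, true)))) _ _ fun σ => ?_
      have h1 := e3 (fun i => x (σ i))
      simp only at h1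
      rw [h1, Equiv.coe_mulRight, Perm.sign_mul, Perm.sign_swap (by simp)]
      simp [Perm.mul_apply]
    have e5 : ∀ σ : Perm (Option (Fin k × Bool)), ((Perm.sign σ : ℤ) : R) *
        F (mixd S (fun i => x (σ i))) =
        ((Perm.sign σ : ℤ) : R) * F (Function.update (mixd S (fun i => x (σ i))) (some i0)
          (x (σ (some (i0, false))) * x (σ (some (i0, true))))) -
        ((Perm.sign σ : ℤ) : R) * F (Function.update (mixd S (fun i => x (σ i))) (some i0)
          (x (σ (some (i0, true))) * x (σ (some (i0, false))))) := by
      intro σ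
      rw [← mul_sub, ← F.map_update_sub, ← e2 (fun i => x (σ i))]
    have e6 : ∀ σ : Perm (Option (Fin k × Bool)), ((Perm.sign σ : ℤ) : R) *
        F (mixd (insert i0 S) (fun i => x (σ i))) =
        2 * (((Perm.sign σ : ℤ) : R) * F (Function.update (mixd S (fun i => x (σ i))) (some i0)
          (x (σ (some (i0, false))) * x (σ (some (i0, true)))))) := by
      intro σ
      rw [e1, F.map_update_smul, smul_eq_mul]
      ring
    rw [Finset.sum_congr rfl (fun σ _ => e5 σ), Finset.sum_congr rfl (fun σ _ => e6 σ),
      Finset.sum_sub_distrib, e4, ← Finset.mul_sum]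
    ring

theorem sum_com (F : MultilinearMap R (fun _ : Option (Fin k) => Matrix N N R) R)
    (x : Option (Fin k × Bool) → Matrix N N R) :
    ∑ σ : Perm (Option (Fin k × Bool)), ((Perm.sign σ : ℤ) : R) * F (com (fun i => x (σ i))) =
      2 ^ k * ∑ σ : Perm (Option (Fin k × Bool)), ((Perm.sign σ : ℤ) : R) *
        F (pr (fun i => x (σ i))) := by
  rw [← sum_mixd F x Finset.univ, Finset.mul_sum]
  refine Finset.sum_congr rfl fun σ _ => ?_
  have h1 : mixd Finset.univ (fun i => x (σ i)) = fun j : Option (Fin k) =>
      (Option.elim j (1 : R) (fun _ => 2)) • pr (fun i => x (σ i)) j := by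
    funext j
    rcases j with _ | i
    · simp [mixd, pr]
    · simp [mixd, pr]
  rw [h1, F.map_smul_univ, Fintype.prod_option]
  simp
  ring

/-- The Cartan form of a linear combination of products of traces is a multiple of the
alternating trace. -/
theorem cartan_form {n : ℕ}
    (F : MultilinearMap ℂ (fun _ : Option (Fin k) => Matrix (Fin n) (Fin n) ℂ) ℂ)
    (hF : ∀ (y : Matrix (Fin n) (Fin n) ℂ) (x : Option (Fin k) → Matrix (Fin n) (Fin n) ℂ),
      ∑ i, F (Function.update x i ⁅y, x i⁆) = 0) (π₀ : Perm (Option (Fin k))) (h₀ : Full π₀) :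
    ∃ C : ℂ, ∀ x : Option (Fin k × Bool) → Matrix (Fin n) (Fin n) ℂ,
      ∑ σ : Perm (Option (Fin k × Bool)), ((Perm.sign σ : ℤ) : ℂ) *
        F (com (fun i => x (σ i))) = C * aG (nu π₀) x := by
  classical
  obtain ⟨a, ha⟩ := fft_gl F hF
  refine ⟨2 ^ k * ∑ π, if Full π then a π else 0, fun x => ?_⟩
  rw [sum_com, mul_assoc]
  congr 1
  simp only [ha, GG_pr]
  have h1 : ∀ π : Perm (Option (Fin k)), a π * aG (nu π) x =
      (if Full π then a π else 0) * aG (nu π₀) x := by
    intro π
    by_cases h : Full π
    · rw [if_pos h, aG_nu_eq h₀ h]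
    · rw [if_neg h, aG_nu_eq_zero h]
      ring
  rw [Finset.sum_mul, ← Finset.sum_congr rfl (fun π _ => h1 π)]
  unfold aG
  simp only [Finset.mul_sum]
  rw [Finset.sum_comm]
  refine Finset.sum_congr rfl fun π _ => Finset.sum_congr rfl fun σ _ => ?_
  ring

end

end Run7.h539
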