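import Mathlib

/-!
# The matrices of the `(n-1)`-st symmetric power of the standard representation of `sl₂`
-/

set_option autoImplicit false
set_option linter.unusedSectionVars false

namespace Run7.h539

open Finset

section

variable {R : Type*} [CommRing R]

/-- The translation `g(x) ↦ g(x + t)` on polynomials of degree `< n`. -/
def UU (n : ℕ) (t : R) : Matrix (Fin n) (Fin n) R :=
  fun i j => ((j : ℕ).choose (i : ℕ) : R) * t ^ ((j : ℕ) - (i : ℕ))

/-- The divided power `F^k / k!` of the lowering operator `(n-1) x - x² d/dx`. -/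
def FF (n k : ℕ) : Matrix (Fin n) (Fin n) R :=
  fun i j => if (i : ℕ) = (j : ℕ) + k then ((n - 1 - (j : ℕ)).choose k : R) else 0

/-- The derivative. -/
def EE (n : ℕ) : Matrix (Fin n) (Fin n) R :=
  fun i j => if (i : ℕ) + 1 = (j : ℕ) then ((j : ℕ) : R) else 0

/-- The conjugates of the divided power of `F` by translations. -/
def XX (n k : ℕ) (t : R) : Matrix (Fin n) (Fin n) R := UU n (-t) * FF n k * UU n t

theorem UU_add (n : ℕ) (s t : R) : UU n s * UU n t = UU n (s + t) := by
  ext i j
  rw [Matrix.mul_apply]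
  unfold UU
  by_cases hij : (i : ℕ) ≤ j
  · have h1 : ∀ l : Fin n, ((l : ℕ).choose (i : ℕ) : R) * s ^ ((l : ℕ) - (i : ℕ)) *
        (((j : ℕ).choose (l : ℕ) : R) * t ^ ((j : ℕ) - (l : ℕ))) =
        (fun l : ℕ => (l.choose (i : ℕ) : R) * s ^ (l - (i : ℕ)) *
        (((j : ℕ).choose l : R) * t ^ ((j : ℕ) - l))) (l : ℕ) := fun l => rfl
    rw [Finset.sum_congr rfl (fun l _ => h1 l)]
    rw [Fin.sum_univ_eq_sum_range (fun l : ℕ => (l.choose (i : ℕ) : R) * s ^ (l - (i : ℕ)) *
        (((j : ℕ).choose l : R) * t ^ ((j : ℕ) - l))) n]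
    have h2 : Finset.Ico (i : ℕ) ((i : ℕ) + ((j : ℕ) - i + 1)) ⊆ Finset.range n := by
      intro l hl
      rw [Finset.mem_Ico] at hl
      rw [Finset.mem_range]
      have := j.2
      omega
    rw [← Finset.sum_subset h2]
    · rw [Finset.sum_Ico_eq_sum_range]
      have h3 : (i : ℕ) + ((j : ℕ) - i + 1) - i = (j : ℕ) - i + 1 := by omega
      rw [h3, add_pow, Finset.mul_sum]
      refine Finset.sum_congr rfl fun l hl => ?_
      rw [Finset.mem_range] at hl
      have h4 : (i : ℕ) + l - i = l := by omega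
      have h5 : (j : ℕ) - ((i : ℕ) + l) = (j : ℕ) - i - l := by omega
      rw [h4, h5]
      have h6 : ((j : ℕ).choose (i + l) : R) * (((i : ℕ) + l).choose i : R) =
          ((j : ℕ).choose i : R) * (((j : ℕ) - i).choose l : R) := by
        have h7 := Nat.choose_mul (n := (j : ℕ)) (k := (i : ℕ) + l) (s := (i : ℕ)) (by omega)
        have h8 : (i : ℕ) + l - i = l := by omega
        rw [h8] at h7
        rw [← Nat.cast_mul, ← Nat.cast_mul, h7]
      linear_combination (s ^ l * t ^ ((j : ℕ) - i - l)) * h6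
    · intro l hl hl'
      rw [Finset.mem_Ico, not_and_or] at hl'
      rcases hl' with h | h
      · rw [Nat.choose_eq_zero_of_lt (by omega : l < (i : ℕ))]
        simp
      · rw [Nat.choose_eq_zero_of_lt (by omega : (j : ℕ) < l)]
        simp
  · rw [Nat.choose_eq_zero_of_lt (by omega : (j : ℕ) < i)]
    rw [Nat.cast_zero, zero_mul]
    refine Finset.sum_eq_zero fun l _ => ?_
    by_cases h : (l : ℕ) < i
    · rw [Nat.choose_eq_zero_of_lt h]
      simp
    · rw [Nat.choose_eq_zero_of_lt (by omega : (j : ℕ) < l)]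
      simp

theorem UU_zero (n : ℕ) : UU n (0 : R) = 1 := by
  ext i j
  unfold UU
  rw [Matrix.one_apply]
  by_cases h : i = j
  · subst h
    simp
  · rw [if_neg h]
    by_cases h2 : (i : ℕ) < j
    · rw [zero_pow (by omega), mul_zero]
    · rw [Nat.choose_eq_zero_of_lt (by
        have : (i : ℕ) ≠ j := fun h' => h (Fin.ext h')
        omega : (j : ℕ) < i)]
      simp

theorem UU_neg_mul (n : ℕ) (t : R) : UU n (-t) * UU n t = 1 := by
  rw [UU_add, neg_add_cancel, UU_zero]

theorem UU_mul_neg (n : ℕ) (t : R) : UU n t * UU n (-t) = 1 := by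
  rw [UU_add, add_neg_cancel, UU_zero]

theorem UU_map {S : Type*} [CommRing S] (g : R →+* S) (n : ℕ) (t : R) :
    (UU n t).map g = UU n (g t) := by
  ext i j
  simp [UU]

theorem FF_map {S : Type*} [CommRing S] (g : R →+* S) (n k : ℕ) :
    (FF n k : Matrix _ _ R).map g = FF n k := by
  ext i j
  simp only [FF, Matrix.map_apply]
  split_ifs <;> simp

theorem XX_map {S : Type*} [CommRing S] (g : R →+* S) (n k : ℕ) (t : R) :
    (XX n k t).map g = XX n k (g t) := by
  unfold XX
  rw [Matrix.map_mul, Matrix.map_mul, UU_map, UU_map, FF_map, map_neg]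

theorem FF_eq_zero (n k : ℕ) (h : n ≤ k) : (FF n k : Matrix _ _ R) = 0 := by
  ext i j
  unfold FF
  rw [if_neg (by have := i.2; omega)]
  rfl

theorem XX_eq_zero (n k : ℕ) (h : n ≤ k) (t : R) : XX n k t = 0 := by
  unfold XX
  rw [FF_eq_zero n k h, mul_zero, zero_mul]

theorem trace_FF_mul_UU (n k : ℕ) (a : R) :
    (FF n k * UU n a).trace = a ^ k * ∑ j ∈ Finset.range (n - k),
      ((n - 1 - j).choose k : R) * ((j + k).choose k : R) := by
  unfold Matrix.trace
  simp only [Matrix.diag_apply, Matrix.mul_apply]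
  rw [Finset.sum_comm]
  have h1 : ∀ j : Fin n, ∑ i, FF n k i j * UU n a j i =
      if (j : ℕ) + k < n then ((n - 1 - (j : ℕ)).choose k : R) *
        ((((j : ℕ) + k).choose k : R) * a ^ k) else 0 := by
    intro j
    by_cases h : (j : ℕ) + k < n
    · rw [if_pos h, Finset.sum_eq_single (⟨(j : ℕ) + k, h⟩ : Fin n)]
      · unfold FF UU
        rw [if_pos rfl]
        congr 1
        have h2 : ((⟨(j : ℕ) + k, h⟩ : Fin n) : ℕ) - (j : ℕ) = k := by
          simp
        rw [h2]
        congr 2
        simp only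
        rw [add_comm (j : ℕ) k, Nat.choose_symm_add]
      · intro i _ hi
        unfold FF
        rw [if_neg, zero_mul]
        intro h2
        exact hi (Fin.ext h2)
      · intro h2
        exact absurd (Finset.mem_univ _) h2
    · rw [if_neg h]
      refine Finset.sum_eq_zero fun i _ => ?_
      unfold FF
      rw [if_neg, zero_mul]
      intro h2
      have := i.2
      omega
  rw [Finset.sum_congr rfl (fun j _ => h1 j)]
  rw [Fin.sum_univ_eq_sum_range (fun j : ℕ => if j + k < n then ((n - 1 - j).choose k : R) *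
        (((j + k).choose k : R) * a ^ k) else 0) n]
  rw [← Finset.sum_filter, Finset.mul_sum]
  refine Finset.sum_congr ?_ fun j _ => by ring
  ext j
  simp only [Finset.mem_filter, Finset.mem_range]
  omega

/-- `∑ C(n-1-j, k) C(j+k, k) = C(n+k, 2k+1)`. -/
theorem sum_choose_choose (n k : ℕ) (h : k < n) :
    ∑ j ∈ Finset.range (n - k), (n - 1 - j).choose k * (j + k).choose k =
      (n + k).choose (2 * k + 1) := by
  have h1 := congrArg (PowerSeries.coeff (n - 1 - k))
    (congrArg Units.val (PowerSeries.invOneSubPow_add ℤ (k + 1) (k + 1)))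
  rw [PowerSeries.invOneSubPow_val_eq_mk_sub_one_add_choose_of_pos ℤ (k + 1 + (k + 1)) (by omega),
    Units.val_mul, PowerSeries.invOneSubPow_val_eq_mk_sub_one_add_choose_of_pos ℤ (k + 1) (by omega),
    PowerSeries.coeff_mul, PowerSeries.coeff_mk] at h1
  simp only [PowerSeries.coeff_mk] at h1
  rw [Finset.Nat.sum_antidiagonal_eq_sum_range_succ_mk] at h1
  have h2 : (n - 1 - k).succ = n - k := by omega
  rw [h2] at h1
  have h3 : k + 1 + (k + 1) - 1 + (n - 1 - k) = n + k := by omega
  have h4 : k + 1 + (k + 1) - 1 = 2 * k + 1 := by omega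
  rw [h3, h4] at h1
  have h5 : ((∑ j ∈ Finset.range (n - k), (n - 1 - j).choose k * (j + k).choose k : ℕ) : ℤ) =
      ((n + k).choose (2 * k + 1) : ℤ) := by
    rw [h1, Nat.cast_sum]
    refine Finset.sum_congr rfl fun j hj => ?_
    rw [Finset.mem_range] at hj
    rw [Nat.cast_mul, mul_comm]
    congr 2
    · congr 1
      omega
    · have h6 : k + 1 - 1 + (n - 1 - k - j) = n - 1 - j := by omega
      rw [h6]
      congr 1
  exact_mod_cast h5

end

end Run7.h539
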