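import Mathlib
import Pool.Agent.Run7.h539.Cyc
import Pool.Agent.Run7.h539.Mats

/-!
# Polynomial dependence on the dimension
-/

set_option autoImplicit false
set_option linter.unusedSectionVars false

namespace Run7.h539

open Polynomial

section

variable {K : Type*} [Field K] [CharZero K]

/-- `c` is given by an odd polynomial of degree at most `D`. -/
def Good (D : ℕ) (c : ℕ → K) : Prop :=
  ∃ Q : K[X], Q.natDegree ≤ D ∧ (∀ n : ℕ, Q.eval (n : K) = c n) ∧
    ∀ n : ℕ, Q.eval (-(n : K)) = -c n

theorem Good.zero (D : ℕ) : Good D (fun _ => (0 : K)) :=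
  ⟨0, by simp, by simp, by simp⟩

theorem Good.mono {D D' : ℕ} (h : D ≤ D') {c : ℕ → K} (hc : Good D c) : Good D' c := by
  obtain ⟨Q, h1, h2, h3⟩ := hc
  exact ⟨Q, h1.trans h, h2, h3⟩

theorem Good.add {D : ℕ} {c c' : ℕ → K} (hc : Good D c) (hc' : Good D c') :
    Good D (fun n => c n + c' n) := by
  obtain ⟨Q, h1, h2, h3⟩ := hc
  obtain ⟨Q', h1', h2', h3'⟩ := hc'
  refine ⟨Q + Q', (natDegree_add_le _ _).trans (max_le h1 h1'), fun n => ?_, fun n => ?_⟩
  · rw [eval_add, h2, h2']
  · rw [eval_add, h3, h3']
    ring

theorem Good.smul {D : ℕ} {c : ℕ → K} (a : K) (hc : Good D c) :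
    Good D (fun n => a * c n) := by
  obtain ⟨Q, h1, h2, h3⟩ := hc
  refine ⟨C a * Q, (natDegree_C_mul_le _ _).trans h1, fun n => ?_, fun n => ?_⟩
  · rw [eval_mul, eval_C, h2]
  · rw [eval_mul, eval_C, h3]
    ring

theorem Good.sum {D : ℕ} {ι : Type*} (s : Finset ι) (c : ι → ℕ → K)
    (hc : ∀ i ∈ s, Good D (c i)) : Good D (fun n => ∑ i ∈ s, c i n) := by
  classical
  induction s using Finset.induction_on with
  | empty => simpa using Good.zero D
  | insert a s ha ih =>
    have h1 := (hc a (Finset.mem_insert_self _ _)).add
      (ih (fun i hi => hc i (Finset.mem_insert_of_mem hi)))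
    convert h1 using 2 with n
    rw [Finset.sum_insert ha]

/-! ### Indefinite sums -/

theorem exists_sum_monomial (a : ℕ) : ∃ Q : K[X], Q.natDegree ≤ a + 1 ∧ Q.eval 0 = 0 ∧
    ∀ x, Q.eval (x + 1) = Q.eval x + x ^ a := by
  induction a using Nat.strong_induction_on with
  | _ a ih =>
    choose! B hB0 hB1 hB2 using ih
    refine ⟨C ((a : K) + 1)⁻¹ * (X ^ (a + 1) - ∑ j ∈ Finset.range a,
      C ((a + 1).choose j : K) * B j), ?_, ?_, ?_⟩
    · refine (natDegree_C_mul_le _ _).trans ((natDegree_sub_le _ _).trans (max_le ?_ ?_))
      · rw [natDegree_X_pow]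
      · refine natDegree_sum_le_of_forall_le _ _ fun j hj => ?_
        rw [Finset.mem_range] at hj
        exact (natDegree_C_mul_le _ _).trans ((hB0 j hj).trans (by omega))
    · rw [eval_mul, eval_sub, eval_pow, eval_X, eval_finsetSum]
      rw [Finset.sum_eq_zero]
      · simp
      · intro j hj
        rw [Finset.mem_range] at hj
        rw [eval_mul, hB1 j hj, mul_zero]
    · intro x
      rw [eval_mul, eval_sub, eval_pow, eval_X, eval_finsetSum, eval_mul, eval_sub, eval_pow,
        eval_X, eval_finsetSum, eval_C, eval_C]
      have h1 : ∑ j ∈ Finset.range a, eval (x + 1) (C ((a + 1).choose j : K) * B j) =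
          ∑ j ∈ Finset.range a, eval x (C ((a + 1).choose j : K) * B j) +
          ∑ j ∈ Finset.range a, ((a + 1).choose j : K) * x ^ j := by
        rw [← Finset.sum_add_distrib]
        refine Finset.sum_congr rfl fun j hj => ?_
        rw [Finset.mem_range] at hj
        simp only [eval_mul, eval_C]
        rw [hB2 j hj]
        ring
      rw [h1]
      have h2 : (x + 1) ^ (a + 1) = ∑ j ∈ Finset.range a, ((a + 1).choose j : K) * x ^ j +
          ((a : K) + 1) * x ^ a + x ^ (a + 1) := by
        rw [add_pow, Finset.sum_range_succ, Finset.sum_range_succ]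
        simp only [one_pow, mul_one, Nat.choose_self, Nat.cast_one]
        congr 1
        congr 1
        · exact Finset.sum_congr rfl fun j _ => mul_comm _ _
        · rw [mul_comm, Nat.choose_succ_self_right]
          push_cast
          ring
      rw [h2]
      have h3 : ((a : K) + 1) ≠ 0 := by exact_mod_cast Nat.succ_ne_zero a
      field_simp
      ring

theorem exists_sum_poly (q : K[X]) : ∃ Q : K[X], Q.natDegree ≤ q.natDegree + 1 ∧ Q.eval 0 = 0 ∧
    ∀ x, Q.eval (x + 1) = Q.eval x + q.eval x := by
  choose B hB0 hB1 hB2 using exists_sum_monomial (K := K)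
  refine ⟨∑ j ∈ Finset.range (q.natDegree + 1), C (q.coeff j) * B j, ?_, ?_, ?_⟩
  · refine natDegree_sum_le_of_forall_le _ _ fun j hj => ?_
    rw [Finset.mem_range] at hj
    exact (natDegree_C_mul_le _ _).trans ((hB0 j).trans (by omega))
  · rw [eval_finsetSum]
    refine Finset.sum_eq_zero fun j _ => ?_
    rw [eval_mul, hB1, mul_zero]
  · intro x
    rw [eval_finsetSum, eval_finsetSum, eval_eq_sum_range (p := q), ← Finset.sum_add_distrib]
    refine Finset.sum_congr rfl fun j _ => ?_
    simp only [eval_mul, eval_C]
    rw [hB2]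
    ring

theorem eval_nat_of_sum {q Q : K[X]} (h0 : Q.eval 0 = 0)
    (h : ∀ x, Q.eval (x + 1) = Q.eval x + q.eval x) (n : ℕ) :
    Q.eval (n : K) = ∑ m ∈ Finset.range n, q.eval (m : K) := by
  induction n with
  | zero => simpa using h0
  | succ n ih =>
    rw [Finset.sum_range_succ, ← ih, ← h]
    push_cast
    rfl

theorem eval_neg_of_sum {q Q : K[X]} (h0 : Q.eval 0 = 0)
    (h : ∀ x, Q.eval (x + 1) = Q.eval x + q.eval x) (n : ℕ) :
    Q.eval (-(n : K)) = -∑ m ∈ Finset.range n, q.eval (-((m : K) + 1)) := by
  induction n with
  | zero => simpa using h0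
  | succ n ih =>
    rw [Finset.sum_range_succ, neg_add, ← ih]
    have h1 := h (-((n : K) + 1))
    have h2 : -((n : K) + 1) + 1 = -(n : K) := by ring
    rw [h2] at h1
    push_cast
    rw [h1]
    ring

theorem exists_expand (S : List ℤ) : ∃ q : ℕ → K[X],
    (∀ j, (q j).natDegree ≤ 2 * S.length - j) ∧
    (∀ j, S.length < j → q j = 0) ∧
    ∀ x y : K, (S.map (fun s : ℤ => (x + s) * (y - x - s))).prod =
      ∑ j ∈ Finset.range (S.length + 1), y ^ j * (q j).eval x := by
  induction S with
  | nil =>
    refine ⟨fun j => if j = 0 then 1 else 0, fun j => ?_, fun j hj => ?_, fun x y => ?_⟩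
    · simp only
      split_ifs <;> simp
    · simp only [List.length_nil] at hj
      exact if_neg (by omega)
    · simp
  | cons s S ih =>
    obtain ⟨q, h1, h2, h3⟩ := ih
    refine ⟨fun j => (if j = 0 then 0 else (X + C (s : K)) * q (j - 1)) -
      (X + C (s : K)) ^ 2 * q j, fun j => ?_, fun j hj => ?_, fun x y => ?_⟩
    · rw [List.length_cons]
      simp only
      refine (natDegree_sub_le _ _).trans (max_le ?_ ?_)
      · split_ifs with hj
        · simp
        · by_cases hj2 : S.length < j - 1
          · rw [h2 _ hj2, mul_zero, natDegree_zero]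
            omega
          · refine natDegree_mul_le.trans ?_
            have h4 := h1 (j - 1)
            rw [natDegree_X_add_C]
            omega
      · by_cases hj2 : S.length < j
        · rw [h2 _ hj2, mul_zero, natDegree_zero]
          omega
        · refine natDegree_mul_le.trans ?_
          have h4 := h1 j
          rw [natDegree_pow, natDegree_X_add_C]
          omega
    · rw [List.length_cons] at hj
      simp only
      rw [if_neg (by omega), h2 _ (by omega), h2 _ (by omega), mul_zero, mul_zero, sub_zero]
    · rw [List.map_cons, List.prod_cons, h3, List.length_cons]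
      simp only [eval_sub, eval_mul, eval_add, eval_X, eval_C, eval_pow, mul_sub]
      rw [Finset.sum_sub_distrib, Finset.sum_range_succ' (fun j => y ^ j * eval x
        (if j = 0 then 0 else (X + C (s : K)) * q (j - 1)))]
      rw [Finset.sum_range_succ (fun j => y ^ j * ((x + s) ^ 2 * eval x (q j))),
        h2 (S.length + 1) (by omega)]
      simp only [if_true, eval_zero, mul_zero, add_zero, Nat.add_eq_zero_iff, one_ne_zero,
        and_false, if_false, Nat.add_sub_cancel, eval_mul, eval_add, eval_X, eval_C]
      rw [Finset.mul_sum, ← Finset.sum_sub_distrib]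
      refine Finset.sum_congr rfl fun j _ => ?_
      ring

theorem good_list (S : List ℤ) : Good (2 * S.length + 1) (fun n : ℕ =>
    ∑ m ∈ Finset.range n, (S.map (fun s : ℤ => ((m : K) + s) * ((n : K) - m - s))).prod) := by
  obtain ⟨q, h1, h2, h3⟩ := exists_expand (K := K) S
  choose B hB0 hB1 hB2 using fun j => exists_sum_poly (q j)
  refine ⟨∑ j ∈ Finset.range (S.length + 1), X ^ j * B j, ?_, fun n => ?_, fun n => ?_⟩
  · refine natDegree_sum_le_of_forall_le _ _ fun j hj => ?_
    rw [Finset.mem_range] at hj
    refine natDegree_mul_le.trans ?_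
    rw [natDegree_X_pow]
    have h4 := hB0 j
    have h5 := h1 j
    omega
  · rw [eval_finsetSum]
    simp only [h3]
    rw [Finset.sum_comm]
    refine Finset.sum_congr rfl fun j _ => ?_
    rw [eval_mul, eval_pow, eval_X, eval_nat_of_sum (hB1 j) (hB2 j), Finset.mul_sum]
  · rw [eval_finsetSum]
    have h4 : ∀ j ∈ Finset.range (S.length + 1), eval (-(n : K)) (X ^ j * B j) =
        -∑ m ∈ Finset.range n, (-(n : K)) ^ j * (q j).eval (-((m : K) + 1)) := by
      intro j _
      rw [eval_mul, eval_pow, eval_X, eval_neg_of_sum (hB1 j) (hB2 j), ← Finset.mul_sum]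
      ring
    rw [Finset.sum_congr rfl h4, Finset.sum_neg_distrib, Finset.sum_comm]
    simp only [← h3]
    congr 1
    rw [← Finset.sum_range_reflect]
    refine Finset.sum_congr rfl fun m hm => ?_
    rw [Finset.mem_range] at hm
    congr 1
    refine List.map_congr_left fun s _ => ?_
    have h5 : ((n - 1 - m : ℕ) : K) = (n : K) - 1 - m := by
      rw [Nat.cast_sub (by omega), Nat.cast_sub (by omega)]
      simp
    rw [h5]
    ring

/-! ### Traces of words -/

/-- The raising operator, second normalisation. -/
def E2 (n : ℕ) : Matrix (Fin n) (Fin n) K :=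
  fun i j => if (i : ℕ) + 1 = (j : ℕ) then ((j : ℕ) : K) * ((n : K) - ((j : ℕ) : K)) else 0

/-- The lowering operator, second normalisation. -/
def F2 (n : ℕ) : Matrix (Fin n) (Fin n) K :=
  fun i j => if (i : ℕ) = (j : ℕ) + 1 then 1 else 0

/-- Words in two elements of a monoid. -/
def wd {M : Type*} [Monoid M] (e f : M) (l : List Bool) : M :=
  (l.map (fun b => if b then e else f)).prod

/-- The total shift of a word. -/
def sh : List Bool → ℤ
  | [] => 0
  | true :: l => sh l - 1
  | false :: l => sh l + 1

/-- The shifts at which the raising operator is applied. -/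
def SS : List Bool → List ℤ
  | [] => []
  | true :: l => sh l :: SS l
  | false :: l => SS l

theorem SS_length (l : List Bool) : (SS l).length = l.count true := by
  induction l with
  | nil => rfl
  | cons b l ih => cases b <;> simp [SS, ih]

theorem sh_eq (l : List Bool) : sh l = (l.length : ℤ) - 2 * (l.count true : ℤ) := by
  induction l with
  | nil => rfl
  | cons b l ih =>
    cases b
    · simp [sh, ih]
      ring
    · simp [sh, ih]
      ring

/-- The coefficient of a word. -/
def PP (l : List Bool) (m n : K) : K := ((SS l).map (fun s : ℤ => (m + s) * (n - m - s))).prod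

theorem word_entry (n : ℕ) (m : Fin n) (l : List Bool) :
    (∀ i : Fin n, wd (E2 n) (F2 n) l i m =
      if ((i : ℕ) : ℤ) = ((m : ℕ) : ℤ) + sh l then PP l ((m : ℕ) : K) (n : K) else 0) ∧
    (((m : ℕ) : ℤ) + sh l < 0 → PP l ((m : ℕ) : K) (n : K) = 0) := by
  induction l with
  | nil =>
    refine ⟨fun i => ?_, fun h => ?_⟩
    · simp only [wd, List.map_nil, List.prod_nil, sh, add_zero, PP, SS]
      rw [Matrix.one_apply]
      by_cases h : i = m
      · subst h
        simp
      · rw [if_neg h, if_neg]
        intro h2
        exact h (Fin.ext (by exact_mod_cast h2))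
    · simp only [sh] at h
      omega
  | cons b l ih =>
    obtain ⟨ih1, ih2⟩ := ih
    cases b
    · refine ⟨fun i => ?_, fun h => ?_⟩
      · have h1 : wd (E2 n : Matrix _ _ K) (F2 n) (false :: l) = F2 n * wd (E2 n) (F2 n) l := by
          simp [wd]
        rw [h1, Matrix.mul_apply]
        have h2 : PP (false :: l) ((m : ℕ) : K) (n : K) = PP l ((m : ℕ) : K) (n : K) := rfl
        have h3 : sh (false :: l) = sh l + 1 := rfl
        rw [h2, h3]
        by_cases hi : (i : ℕ) = 0
        · rw [Finset.sum_eq_zero]
          · split_ifs with h4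
            · rw [ih2 (by omega)]
            · rfl
          · intro j _
            unfold F2
            rw [if_neg (by omega), zero_mul]
        · have hi1 : (i : ℕ) - 1 < n := by have := i.2; omega
          rw [Finset.sum_eq_single (⟨(i : ℕ) - 1, hi1⟩ : Fin n)]
          · rw [ih1]
            unfold F2
            rw [if_pos (by simp only; omega), one_mul]
            by_cases h4 : ((i : ℕ) : ℤ) = ((m : ℕ) : ℤ) + (sh l + 1)
            · rw [if_pos h4, if_pos (by simp only; omega)]
            · rw [if_neg h4, if_neg (by simp only; omega)]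
          · intro j _ hj
            unfold F2
            rw [if_neg, zero_mul]
            intro h4
            apply hj
            apply Fin.ext
            simp only
            omega
          · intro h4
            exact absurd (Finset.mem_univ _) h4
      · have h3 : sh (false :: l) = sh l + 1 := rfl
        rw [h3] at h
        exact ih2 (by omega)
    · have h3 : sh (true :: l) = sh l - 1 := rfl
      have h2 : PP (true :: l) ((m : ℕ) : K) (n : K) =
          (((m : ℕ) : K) + (sh l : K)) * ((n : K) - ((m : ℕ) : K) - (sh l : K)) *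
            PP l ((m : ℕ) : K) (n : K) := by
        simp [PP, SS]
      refine ⟨fun i => ?_, fun h => ?_⟩
      · have h1 : wd (E2 n : Matrix _ _ K) (F2 n) (true :: l) = E2 n * wd (E2 n) (F2 n) l := by
          simp [wd]
        rw [h1, Matrix.mul_apply, h2, h3]
        by_cases hi : (i : ℕ) + 1 = n
        · rw [Finset.sum_eq_zero]
          · split_ifs with h4
            · have h5 : (n : ℤ) - ((m : ℕ) : ℤ) - sh l = 0 := by omega
              have h6 : (n : K) - ((m : ℕ) : K) - (sh l : K) = 0 := by exact_mod_cast h5
              rw [h6]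
              ring
            · rfl
          · intro j _
            unfold E2
            rw [if_neg (by have := j.2; omega), zero_mul]
        · have hi1 : (i : ℕ) + 1 < n := by have := i.2; omega
          rw [Finset.sum_eq_single (⟨(i : ℕ) + 1, hi1⟩ : Fin n)]
          · rw [ih1]
            unfold E2
            rw [if_pos rfl]
            by_cases h4 : ((i : ℕ) : ℤ) = ((m : ℕ) : ℤ) + (sh l - 1)
            · rw [if_pos h4, if_pos (by simp only; push_cast; omega)]
              have h5 : (((i : ℕ) + 1 : ℕ) : K) = ((m : ℕ) : K) + (sh l : K) := by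
                have h6 : (((i : ℕ) + 1 : ℕ) : ℤ) = ((m : ℕ) : ℤ) + sh l := by push_cast; omega
                exact_mod_cast h6
              simp only
              rw [h5]
              ring
            · rw [if_neg h4, if_neg (by simp only; push_cast; omega), mul_zero]
          · intro j _ hj
            unfold E2
            rw [if_neg, zero_mul]
            intro h4
            apply hj
            apply Fin.ext
            simp only
            omega
          · intro h4
            exact absurd (Finset.mem_univ _) h4
      · rw [h3] at h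
        rw [h2]
        by_cases h4 : ((m : ℕ) : ℤ) + sh l < 0
        · rw [ih2 h4, mul_zero]
        · have h5 : ((m : ℕ) : ℤ) + sh l = 0 := by omega
          have h6 : ((m : ℕ) : K) + (sh l : K) = 0 := by exact_mod_cast h5
          rw [h6]
          ring

theorem good_word2 (l : List Bool) :
    Good (l.length + 1) (fun n => (wd (E2 n) (F2 n) l : Matrix (Fin n) (Fin n) K).trace) := by
  have h1 : ∀ n, (wd (E2 n) (F2 n) l : Matrix (Fin n) (Fin n) K).trace =
      if sh l = 0 then ∑ m ∈ Finset.range n, PP l (m : K) (n : K) else 0 := by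
    intro n
    unfold Matrix.trace
    simp only [Matrix.diag_apply, (word_entry n _ l).1]
    by_cases h : sh l = 0
    · rw [if_pos h, ← Fin.sum_univ_eq_sum_range (fun m : ℕ => PP l (m : K) (n : K))]
      refine Finset.sum_congr rfl fun i _ => ?_
      rw [h, add_zero, if_pos rfl]
    · rw [if_neg h]
      refine Finset.sum_eq_zero fun i _ => ?_
      rw [if_neg (by omega)]
  simp only [h1]
  by_cases h : sh l = 0
  · simp only [if_pos h]
    have h2 := good_list (K := K) (SS l)
    refine h2.mono ?_
    rw [SS_length]
    have h3 := sh_eq l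
    omega
  · simp only [if_neg h]
    exact Good.zero _

end

end Run7.h539
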