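import Mathlib
import Pool.Agent.Run7.h539.Good

/-!
# The alternating trace depends polynomially on the dimension
-/

set_option autoImplicit false
set_option linter.unusedSectionVars false

namespace Run7.h539

open Polynomial

section

variable {K : Type*} [Field K] [CharZero K]

/-- The diagonal gauge matrix. -/
def DD (n : ℕ) : Matrix (Fin n) (Fin n) K :=
  Matrix.diagonal (fun j => ((n - 1).descFactorial (j : ℕ) : K))

/-- Its inverse. -/
def DDi (n : ℕ) : Matrix (Fin n) (Fin n) K :=
  Matrix.diagonal (fun j => ((n - 1).descFactorial (j : ℕ) : K)⁻¹)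

theorem descFactorial_ne_zero (n : ℕ) (j : Fin n) :
    ((n - 1).descFactorial (j : ℕ) : K) ≠ 0 := by
  rw [Nat.cast_ne_zero, Ne, Nat.descFactorial_eq_zero_iff_lt]
  have := j.2
  omega

theorem DD_mul_DDi (n : ℕ) : (DD n : Matrix _ _ K) * DDi n = 1 := by
  unfold DD DDi
  rw [Matrix.diagonal_mul_diagonal, ← Matrix.diagonal_one]
  congr 1
  funext j
  exact mul_inv_cancel₀ (descFactorial_ne_zero n j)

theorem DDi_mul_DD (n : ℕ) : (DDi n : Matrix _ _ K) * DD n = 1 := by
  unfold DD DDi
  rw [Matrix.diagonal_mul_diagonal, ← Matrix.diagonal_one]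
  congr 1
  funext j
  exact inv_mul_cancel₀ (descFactorial_ne_zero n j)

theorem EE_mul_DD (n : ℕ) : (EE n : Matrix _ _ K) * DD n = DD n * E2 n := by
  ext i j
  unfold DD
  rw [Matrix.mul_diagonal, Matrix.diagonal_mul]
  unfold EE E2
  by_cases h : (i : ℕ) + 1 = (j : ℕ)
  · rw [if_pos h, if_pos h, ← h, Nat.descFactorial_succ]
    have h1 := j.2
    have h2 : n - 1 - (i : ℕ) = n - ((i : ℕ) + 1) := by omega
    rw [h2]
    push_cast [Nat.cast_sub (show (i : ℕ) + 1 ≤ n by omega)]
    ring
  · rw [if_neg h, if_neg h]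
    ring

theorem FF_mul_DD (n : ℕ) : (FF n 1 : Matrix _ _ K) * DD n = DD n * F2 n := by
  ext i j
  unfold DD
  rw [Matrix.mul_diagonal, Matrix.diagonal_mul]
  unfold FF F2
  by_cases h : (i : ℕ) = (j : ℕ) + 1
  · rw [if_pos h, if_pos h, h, Nat.descFactorial_succ, Nat.choose_one_right]
    push_cast
    ring
  · rw [if_neg h, if_neg h]
    ring

theorem wd_cons {M : Type*} [Monoid M] (e f : M) (b : Bool) (l : List Bool) :
    wd e f (b :: l) = (if b then e else f) * wd e f l := by
  simp [wd]

theorem wd_append {M : Type*} [Monoid M] (e f : M) (l l' : List Bool) :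
    wd e f (l ++ l') = wd e f l * wd e f l' := by
  simp [wd]

theorem wd_conj (n : ℕ) (l : List Bool) :
    wd (EE n : Matrix _ _ K) (FF n 1) l * DD n = DD n * wd (E2 n) (F2 n) l := by
  induction l with
  | nil => simp [wd]
  | cons b l ih =>
    rw [wd_cons, wd_cons, mul_assoc, ih, ← mul_assoc, ← mul_assoc]
    congr 1
    cases b
    · simpa using FF_mul_DD n
    · simpa using EE_mul_DD n

theorem good_word (l : List Bool) :
    Good (l.length + 1)
      (fun n => (wd (EE n) (FF n 1) l : Matrix (Fin n) (Fin n) K).trace) := by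
  have h := good_word2 (K := K) l
  have h1 : ∀ n, (wd (EE n) (FF n 1) l : Matrix (Fin n) (Fin n) K).trace =
      (wd (E2 n) (F2 n) l : Matrix (Fin n) (Fin n) K).trace := by
    intro n
    have h2 := wd_conj (K := K) n l
    have h3 : (wd (EE n) (FF n 1) l : Matrix (Fin n) (Fin n) K) =
        DD n * wd (E2 n) (F2 n) l * DDi n := by
      rw [← h2, mul_assoc, DD_mul_DDi, mul_one]
    rw [h3, Matrix.trace_mul_comm, ← mul_assoc, DDi_mul_DD, one_mul]
  simp only [h1]
  exact h

/-! ### Families of matrices -/

variable (K) in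
/-- Families of square matrices of all sizes. -/
abbrev Fa : Type _ := ∀ n : ℕ, Matrix (Fin n) (Fin n) K

variable (K) in
/-- The span of the words of bounded length. -/
def WL (L : ℕ) : Submodule K (Fa K) :=
  Submodule.span K {x | ∃ l : List Bool, l.length ≤ L ∧ x = wd (fun n => EE n) (fun n => FF n 1) l}

theorem WL_mono {L L' : ℕ} (h : L ≤ L') {x : Fa K} (hx : x ∈ WL K L) : x ∈ WL K L' := by
  refine Submodule.span_mono ?_ hx
  rintro y ⟨l, hl, rfl⟩
  exact ⟨l, hl.trans h, rfl⟩

theorem WL_mul {a b : ℕ} {x y : Fa K} (hx : x ∈ WL K a) (hy : y ∈ WL K b) :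
    x * y ∈ WL K (a + b) := by
  have h1 := Submodule.mul_mem_mul hx hy
  unfold WL at h1
  rw [Submodule.span_mul_span] at h1
  refine Submodule.span_mono ?_ h1
  rintro z ⟨_, ⟨l, hl, rfl⟩, _, ⟨l', hl', rfl⟩, rfl⟩
  refine ⟨l ++ l', ?_, ?_⟩
  · rw [List.length_append]
    omega
  · rw [wd_append]

theorem WL_one : (1 : Fa K) ∈ WL K 0 :=
  Submodule.subset_span ⟨[], le_rfl, by simp [wd]⟩

theorem WL_pow {a : ℕ} {x : Fa K} (hx : x ∈ WL K a) (m : ℕ) : x ^ m ∈ WL K (m * a) := by
  induction m with
  | zero =>
    rw [pow_zero, zero_mul]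
    exact WL_one
  | succ m ih =>
    rw [pow_succ]
    exact WL_mono (by ring_nf; rfl) (WL_mul ih hx)

theorem WL_ofFn {a : ℕ} : ∀ (m : ℕ) (x : Fin m → Fa K) (_ : ∀ i, x i ∈ WL K a),
    (List.ofFn x).prod ∈ WL K (m * a)
  | 0, x, _ => by
    rw [List.ofFn_zero, List.prod_nil, zero_mul]
    exact WL_one
  | m + 1, x, hx => by
    rw [List.ofFn_succ, List.prod_cons]
    exact WL_mono (by ring_nf; rfl) (WL_mul (hx 0) (WL_ofFn m (fun i => x i.succ)
      (fun i => hx i.succ)))

theorem WL_EE : (fun n => EE n : Fa K) ∈ WL K 1 :=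
  Submodule.subset_span ⟨[true], le_rfl, by simp [wd]⟩

theorem WL_FF : (fun n => FF n 1 : Fa K) ∈ WL K 1 :=
  Submodule.subset_span ⟨[false], le_rfl, by simp [wd]⟩

theorem wd_apply (l : List Bool) (n : ℕ) :
    (wd (fun n => EE n : Fa K) (fun n => FF n 1) l) n = wd (EE n) (FF n 1) l := by
  induction l with
  | nil => simp [wd]
  | cons b l ih =>
    rw [wd_cons, wd_cons, Pi.mul_apply, ih]
    cases b <;> rfl

theorem WL_good {L : ℕ} {x : Fa K} (hx : x ∈ WL K L) :
    Good (L + 1) (fun n => (x n).trace) := by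
  unfold WL at hx
  induction hx using Submodule.span_induction with
  | mem x h =>
    obtain ⟨l, hl, rfl⟩ := h
    simp only [wd_apply]
    exact (good_word l).mono (by omega)
  | zero =>
    simpa using Good.zero (K := K) (L + 1)
  | add x y _ _ hx hy =>
    simpa using hx.add hy
  | smul a x _ hx =>
    simpa using hx.smul a

/-! ### The conjugates of `F` -/

theorem FF_succ (n k : ℕ) : ((k : K) + 1) • (FF n (k + 1) : Matrix _ _ K) = FF n k * FF n 1 := by
  ext i j
  rw [Matrix.mul_apply, Matrix.smul_apply, smul_eq_mul]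
  by_cases h : (j : ℕ) + 1 < n
  · rw [Finset.sum_eq_single (⟨(j : ℕ) + 1, h⟩ : Fin n)]
    · unfold FF
      simp only
      by_cases h2 : (i : ℕ) = (j : ℕ) + (k + 1)
      · rw [if_pos h2, if_pos (by omega), if_pos trivial, Nat.choose_one_right]
        have h3 : n - 1 - (j : ℕ) = (n - 1 - ((j : ℕ) + 1)) + 1 := by omega
        rw [h3]
        have h4 := Nat.add_one_mul_choose_eq (n - 1 - ((j : ℕ) + 1)) k
        have h5 : ((n - 1 - ((j : ℕ) + 1) : ℕ) + 1 : K) * ((n - 1 - ((j : ℕ) + 1)).choose k : K) =
          ((n - 1 - ((j : ℕ) + 1) + 1).choose (k + 1) : K) * ((k : K) + 1) := by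
          exact_mod_cast h4
        push_cast
        linear_combination -h5
      · rw [if_neg h2, if_neg (by omega)]
        ring
    · intro l _ hl
      have h3 : ¬ (l : ℕ) = (j : ℕ) + 1 := fun h3 => hl (Fin.ext h3)
      unfold FF
      rw [if_neg h3, mul_zero]
    · intro h3
      exact absurd (Finset.mem_univ _) h3
  · rw [Finset.sum_eq_zero]
    · unfold FF
      rw [if_neg (by have := i.2; omega), mul_zero]
    · intro l _
      unfold FF
      have h2 : ¬ (l : ℕ) = (j : ℕ) + 1 := by
        have := l.2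
        omega
      rw [if_neg h2, mul_zero]

/-- `k! F^{(k)} = F^k`. -/
theorem FF_pow (n k : ℕ) : (k.factorial : K) • (FF n k : Matrix _ _ K) = (FF n 1) ^ k := by
  induction k with
  | zero =>
    rw [Nat.factorial_zero, Nat.cast_one, one_smul, pow_zero]
    ext i j
    unfold FF
    rw [Matrix.one_apply]
    by_cases h : i = j
    · subst h
      simp
    · rw [if_neg h, if_neg]
      intro h2
      exact h (Fin.ext (by simpa using h2))
  | succ k ih =>
    rw [pow_succ, ← ih, Nat.factorial_succ, Matrix.smul_mul, ← FF_succ, smul_smul]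
    congr 1
    push_cast
    ring

theorem UU_mul_YY (n : ℕ) (t : K) :
    UU n t * (FF n 1 - t • (EE n * FF n 1 - FF n 1 * EE n) - t ^ 2 • EE n) = FF n 1 * UU n t := by
  have hH : ∀ i j : Fin n, ((EE n * FF n 1 - FF n 1 * EE n : Matrix _ _ K)) i j =
      if i = j then (n : K) - 1 - 2 * ((j : ℕ) : K) else 0 := by
    intro i j
    rw [Matrix.sub_apply, Matrix.mul_apply, Matrix.mul_apply]
    have h1 : ∑ l, (EE n : Matrix _ _ K) i l * FF n 1 l j =
        if i = j then (((j : ℕ) : K) + 1) * ((n : K) - 1 - ((j : ℕ) : K)) else 0 := by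
      by_cases h : (j : ℕ) + 1 < n
      · rw [Finset.sum_eq_single (⟨(j : ℕ) + 1, h⟩ : Fin n)]
        · unfold EE FF
          simp only
          rw [if_pos trivial, Nat.choose_one_right]
          by_cases h2 : i = j
          · subst h2
            rw [if_pos rfl, if_pos rfl]
            push_cast [Nat.cast_sub (show (i : ℕ) ≤ n - 1 by omega),
              Nat.cast_sub (show 1 ≤ n by omega)]
            ring
          · rw [if_neg (fun h3 => h2 (Fin.ext (by omega))), if_neg h2, zero_mul]
        · intro l _ hl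
          have h3 : ¬ (l : ℕ) = (j : ℕ) + 1 := fun h3 => hl (Fin.ext h3)
          unfold FF
          rw [if_neg h3, mul_zero]
        · intro h3
          exact absurd (Finset.mem_univ _) h3
      · rw [Finset.sum_eq_zero]
        · split_ifs
          · have h4 : (n : K) = ((j : ℕ) : K) + 1 := by
              have : n = (j : ℕ) + 1 := by have := j.2; omega
              exact_mod_cast this
            rw [h4]
            ring
          · rfl
        · intro l _
          have h3 : ¬ (l : ℕ) = (j : ℕ) + 1 := by have := l.2; omega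
          unfold FF
          rw [if_neg h3, mul_zero]
    have h2 : ∑ l, (FF n 1 : Matrix _ _ K) i l * EE n l j =
        if i = j then ((j : ℕ) : K) * ((n : K) - ((j : ℕ) : K)) else 0 := by
      by_cases h : 0 < (j : ℕ)
      · rw [Finset.sum_eq_single (⟨(j : ℕ) - 1, by have := j.2; omega⟩ : Fin n)]
        · unfold EE FF
          simp only
          rw [Nat.choose_one_right]
          by_cases h2 : i = j
          · subst h2
            rw [if_pos (by omega), if_pos (by omega), if_pos rfl]
            have h3 : n - 1 - ((i : ℕ) - 1) = n - (i : ℕ) := by omega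
            rw [h3]
            push_cast [Nat.cast_sub (show (i : ℕ) ≤ n by have := i.2; omega)]
            ring
          · rw [if_neg (fun h3 => h2 (Fin.ext (by omega))), if_neg h2, zero_mul]
        · intro l _ hl
          have h3 : ¬ (l : ℕ) + 1 = (j : ℕ) := fun h3 => hl (Fin.ext (by simp only; omega))
          unfold EE
          rw [if_neg h3, mul_zero]
        · intro h3
          exact absurd (Finset.mem_univ _) h3
      · rw [Finset.sum_eq_zero]
        · split_ifs
          · have h4 : ((j : ℕ) : K) = 0 := by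
              have : (j : ℕ) = 0 := by omega
              exact_mod_cast this
            rw [h4]
            ring
          · rfl
        · intro l _
          have h3 : ¬ (l : ℕ) + 1 = (j : ℕ) := by omega
          unfold EE
          rw [if_neg h3, mul_zero]
    rw [h1, h2]
    split_ifs
    · ring
    · ring
  ext i j
  rw [Matrix.mul_sub, Matrix.mul_sub, Matrix.sub_apply, Matrix.sub_apply, Matrix.mul_smul,
    Matrix.mul_smul, Matrix.smul_apply, Matrix.smul_apply, smul_eq_mul, smul_eq_mul]
  have h1 : (UU n t * FF n 1 : Matrix (Fin n) (Fin n) K) i j = ((n : K) - 1 - ((j : ℕ) : K)) *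
      ((((j : ℕ) + 1).choose (i : ℕ) : K) * t ^ ((j : ℕ) + 1 - (i : ℕ))) := by
    rw [Matrix.mul_apply]
    by_cases h : (j : ℕ) + 1 < n
    · rw [Finset.sum_eq_single (⟨(j : ℕ) + 1, h⟩ : Fin n)]
      · unfold UU FF
        simp only
        rw [if_pos trivial, Nat.choose_one_right]
        push_cast [Nat.cast_sub (show (j : ℕ) ≤ n - 1 by omega),
          Nat.cast_sub (show 1 ≤ n by omega)]
        ring
      · intro l _ hl
        have h3 : ¬ (l : ℕ) = (j : ℕ) + 1 := fun h3 => hl (Fin.ext h3)
        unfold FF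
        rw [if_neg h3, mul_zero]
      · intro h3
        exact absurd (Finset.mem_univ _) h3
    · rw [Finset.sum_eq_zero]
      · have h4 : (n : K) = ((j : ℕ) : K) + 1 := by
          have : n = (j : ℕ) + 1 := by have := j.2; omega
          exact_mod_cast this
        rw [h4]
        ring
      · intro l _
        have h3 : ¬ (l : ℕ) = (j : ℕ) + 1 := by have := l.2; omega
        unfold FF
        rw [if_neg h3, mul_zero]
  have h2 : (UU n t * (EE n * FF n 1 - FF n 1 * EE n) : Matrix (Fin n) (Fin n) K) i j =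
      ((n : K) - 1 - 2 * ((j : ℕ) : K)) * (((j : ℕ).choose (i : ℕ) : K) *
        t ^ ((j : ℕ) - (i : ℕ))) := by
    rw [Matrix.mul_apply, Finset.sum_eq_single j]
    · rw [hH, if_pos rfl]
      unfold UU
      ring
    · intro l _ hl
      rw [hH, if_neg hl, mul_zero]
    · intro h3
      exact absurd (Finset.mem_univ _) h3
  have h3 : (UU n t * EE n : Matrix (Fin n) (Fin n) K) i j = ((j : ℕ) : K) *
      ((((j : ℕ) - 1).choose (i : ℕ) : K) * t ^ ((j : ℕ) - 1 - (i : ℕ))) := by
    rw [Matrix.mul_apply]
    by_cases h : 0 < (j : ℕ)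
    · rw [Finset.sum_eq_single (⟨(j : ℕ) - 1, by have := j.2; omega⟩ : Fin n)]
      · unfold UU EE
        simp only
        rw [if_pos (by omega)]
        ring
      · intro l _ hl
        have h3 : ¬ (l : ℕ) + 1 = (j : ℕ) := fun h3 => hl (Fin.ext (by simp only; omega))
        unfold EE
        rw [if_neg h3, mul_zero]
      · intro h3
        exact absurd (Finset.mem_univ _) h3
    · rw [Finset.sum_eq_zero]
      · have h4 : ((j : ℕ) : K) = 0 := by
          have : (j : ℕ) = 0 := by omega
          exact_mod_cast this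
        rw [h4]
        ring
      · intro l _
        have h3 : ¬ (l : ℕ) + 1 = (j : ℕ) := by omega
        unfold EE
        rw [if_neg h3, mul_zero]
  have h4 : (FF n 1 * UU n t : Matrix (Fin n) (Fin n) K) i j = ((n : K) - (i : ℕ)) *
      (if (i : ℕ) = 0 then 0 else (((j : ℕ).choose ((i : ℕ) - 1) : K) *
        t ^ ((j : ℕ) - ((i : ℕ) - 1)))) := by
    rw [Matrix.mul_apply]
    by_cases h : 0 < (i : ℕ)
    · rw [if_neg (by omega), Finset.sum_eq_single (⟨(i : ℕ) - 1, by have := i.2; omega⟩ : Fin n)]
      · unfold UU FF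
        simp only
        rw [if_pos (by omega), Nat.choose_one_right]
        have h5 : n - 1 - ((i : ℕ) - 1) = n - (i : ℕ) := by omega
        rw [h5]
        push_cast [Nat.cast_sub (show (i : ℕ) ≤ n by have := i.2; omega)]
        ring
      · intro l _ hl
        have h3 : ¬ (i : ℕ) = (l : ℕ) + 1 := fun h3 => hl (Fin.ext (by simp only; omega))
        unfold FF
        rw [if_neg h3, zero_mul]
      · intro h3
        exact absurd (Finset.mem_univ _) h3
    · rw [if_pos (by omega), mul_zero]
      refine Finset.sum_eq_zero fun l _ => ?_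
      have h3 : ¬ (i : ℕ) = (l : ℕ) + 1 := by omega
      unfold FF
      rw [if_neg h3, zero_mul]
  rw [h1, h2, h3, h4]
  generalize (i : ℕ) = a
  generalize (j : ℕ) = b
  clear h1 h2 h3 h4 hH
  by_cases ha : a = 0
  · subst ha
    rw [if_pos rfl]
    simp only [Nat.choose_zero_right, Nat.cast_one, one_mul, Nat.sub_zero, mul_zero]
    cases b with
    | zero =>
      simp
      ring
    | succ b =>
      rw [Nat.add_sub_cancel]
      push_cast
      ring
  · rw [if_neg ha]
    obtain ⟨a, rfl⟩ : ∃ a', a = a' + 1 := ⟨a - 1, by omega⟩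
    rw [Nat.add_sub_cancel]
    rcases lt_trichotomy b a with hab | hab | hab
    · rw [Nat.choose_eq_zero_of_lt (by omega : b + 1 < a + 1),
        Nat.choose_eq_zero_of_lt (by omega : b < a + 1),
        Nat.choose_eq_zero_of_lt (by omega : b - 1 < a + 1),
        Nat.choose_eq_zero_of_lt (by omega : b < a)]
      simp
    · subst hab
      rw [Nat.choose_eq_zero_of_lt (by omega : b < b + 1),
        Nat.choose_eq_zero_of_lt (by omega : b - 1 < b + 1)]
      simp
      ring
    · obtain ⟨c, rfl⟩ : ∃ c, b = a + 1 + c := ⟨b - a - 1, by omega⟩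
      have e1 : a + 1 + c + 1 - (a + 1) = c + 1 := by omega
      have e2 : a + 1 + c - (a + 1) = c := by omega
      have e3 : a + 1 + c - a = c + 1 := by omega
      have e4 : a + 1 + c - 1 = a + c := by omega
      have e5 : a + c - (a + 1) = c - 1 := by omega
      rw [e1, e2, e3, e4, e5]
      have f1 : ((a + 1 + c + 1).choose (a + 1) : K) =
          ((a + 1 + c).choose a : K) + ((a + 1 + c).choose (a + 1) : K) := by
        rw [Nat.choose_succ_succ]
        push_cast
        ring
      have f2 : ((a + 1 + c).choose (a + 1) : K) =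
          ((a + c).choose a : K) + ((a + c).choose (a + 1) : K) := by
        have : a + 1 + c = (a + c) + 1 := by ring
        rw [this, Nat.choose_succ_succ]
        push_cast
        ring
      have f3 : ((a + 1 + c).choose a : K) * ((c : K) + 1) =
          ((a : K) + 1 + c) * ((a + c).choose a : K) := by
        have h5 := Nat.choose_mul_succ_eq (a + c) a
        have h6 : a + c + 1 - a = c + 1 := by omega
        rw [h6] at h5
        have h7 : a + c + 1 = a + 1 + c := by ring
        rw [h7] at h5
        have h8 : (((a + c).choose a * (a + 1 + c) : ℕ) : K) =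
          (((a + 1 + c).choose a * (c + 1) : ℕ) : K) := by rw [h5]
        push_cast at h8
        linear_combination -h8
      cases c with
      | zero =>
        simp only [Nat.cast_zero, add_zero, zero_add, pow_one, pow_zero, Nat.choose_self,
          Nat.cast_one, Nat.zero_sub, mul_one, Nat.choose_succ_self] at f1 f2 f3 ⊢
        rw [f1]
        push_cast
        linear_combination (-t) * f3
      | succ c =>
        rw [Nat.add_sub_cancel]
        push_cast at f1 f2 f3 ⊢
        rw [f1, f2]
        have e6 : t ^ (c + 1 + 1) = t ^ (c + 2) := rfl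
        linear_combination (-(t ^ (c + 1 + 1))) * f3

theorem XX_one (n : ℕ) (t : K) :
    XX n 1 t = FF n 1 - t • (EE n * FF n 1 - FF n 1 * EE n) - t ^ 2 • EE n := by
  unfold XX
  rw [mul_assoc, ← UU_mul_YY, ← mul_assoc, UU_neg_mul, one_mul]

theorem XX_pow (n k : ℕ) (t : K) :
    (k.factorial : K) • XX n k t = XX n 1 t ^ k := by
  have h1 : ∀ m : ℕ, XX n 1 t ^ m = UU n (-t) * FF n 1 ^ m * UU n t := by
    intro m
    induction m with
    | zero =>
      rw [pow_zero, pow_zero, mul_one, UU_neg_mul]
    | succ m ih =>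
      rw [pow_succ, ih]
      unfold XX
      rw [pow_succ]
      calc UU n (-t) * FF n 1 ^ m * UU n t * (UU n (-t) * FF n 1 * UU n t)
          = UU n (-t) * FF n 1 ^ m * (UU n t * UU n (-t)) * FF n 1 * UU n t := by
            simp only [mul_assoc]
        _ = _ := by
            rw [UU_mul_neg, mul_one]
            simp only [mul_assoc]
  rw [h1, ← FF_pow]
  unfold XX
  rw [Matrix.mul_smul, Matrix.smul_mul]

variable (K) in
/-- The family of raising operators. -/
def EEf : Fa K := fun n => EE n

variable (K) in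
/-- The family of lowering operators. -/
def FFf : Fa K := fun n => FF n 1

theorem WL_XX1 (t : K) : (fun n => XX n 1 t : Fa K) ∈ WL K 2 := by
  have h2 : (fun n => XX n 1 t : Fa K) = FFf K - t • (EEf K * FFf K - FFf K * EEf K) -
      t ^ 2 • EEf K := by
    funext n
    simp only [Pi.sub_apply, Pi.smul_apply, Pi.mul_apply]
    exact XX_one n t
  have hE : EEf K ∈ WL K 1 := WL_EE
  have hF : FFf K ∈ WL K 1 := WL_FF
  have hE2 : EEf K ∈ WL K 2 := WL_mono (by norm_num) hE
  have hF2 : FFf K ∈ WL K 2 := WL_mono (by norm_num) hF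
  have hEF : EEf K * FFf K ∈ WL K 2 := WL_mul (a := 1) (b := 1) hE hF
  have hFE : FFf K * EEf K ∈ WL K 2 := WL_mul (a := 1) (b := 1) hF hE
  rw [h2]
  have h3 : EEf K * FFf K - FFf K * EEf K ∈ WL K 2 := Submodule.sub_mem _ hEF hFE
  have h4 : t • (EEf K * FFf K - FFf K * EEf K) ∈ WL K 2 := Submodule.smul_mem _ _ h3
  have h5 : t ^ 2 • EEf K ∈ WL K 2 := Submodule.smul_mem _ _ hE2
  exact Submodule.sub_mem _ (Submodule.sub_mem _ hF2 h4) h5

theorem WL_XX (k : ℕ) (t : K) : (fun n => XX n k t : Fa K) ∈ WL K (2 * k) := by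
  have h1 : (fun n => XX n 1 t : Fa K) ∈ WL K 2 := WL_XX1 t
  have h3 : (fun n => XX n k t : Fa K) = (k.factorial : K)⁻¹ • (fun n => XX n 1 t : Fa K) ^ k := by
    funext n
    simp only [Pi.smul_apply, Pi.pow_apply]
    rw [← XX_pow, smul_smul, inv_mul_cancel₀, one_smul]
    exact_mod_cast Nat.factorial_ne_zero k
  rw [h3]
  have h4 := WL_pow h1 k
  have h5 : (fun n => XX n 1 t : Fa K) ^ k ∈ WL K (2 * k) := WL_mono (by rw [mul_comm]) h4
  exact Submodule.smul_mem _ _ h5

/-- The alternating trace of the matrices `XX n k (t i)` is an odd polynomial in `n`. -/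
theorem good_XX (k : ℕ) (t : Fin (2 * k + 1) → K) :
    Good (2 * k * (2 * k + 1) + 1) (fun n => aG (finRotate (2 * k + 1)) (fun i => XX n k (t i))) := by
  unfold aG
  refine Good.sum _ _ fun σ _ => Good.smul _ ?_
  have h1 : ∀ n, GG (finRotate (2 * k + 1)) (fun i => XX n k (t (σ i))) =
      (((List.ofFn fun i => (fun n => XX n k (t (σ i)) : Fa K)).prod) n).trace := by
    intro n
    rw [GG_finRotate]
    congr 1
    have h2 : ∀ (m : ℕ) (x : Fin m → Fa K), ((List.ofFn x).prod) n =
        (List.ofFn (fun i => x i n)).prod := by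
      intro m
      induction m with
      | zero => intro x; simp
      | succ m ih =>
        intro x
        rw [List.ofFn_succ, List.prod_cons, List.ofFn_succ, List.prod_cons, Pi.mul_apply, ih]
    rw [h2]
  simp only [h1]
  refine WL_good ?_
  exact WL_mono (by ring_nf; rfl) (WL_ofFn (2 * k + 1) _ (fun i => WL_XX k (t (σ i))))

end

end Run7.h539
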