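import Mathlib
import Pool.Agent.Run7.h539.Fam
import Pool.Agent.Run7.h539.Cart2

/-!
# A sharper bound for the degree in the dimension
-/

set_option autoImplicit false
set_option linter.unusedSectionVars false

namespace Run7.h539

open Polynomial

section

variable {K : Type*} [Field K] [CharZero K]

theorem exists_expand2 (S T : List ℤ) : ∃ q : ℕ → K[X],
    (∀ j, (q j).natDegree ≤ 2 * S.length + T.length - j) ∧
    (∀ j, S.length + T.length < j → q j = 0) ∧
    ∀ x y : K, (S.map (fun s : ℤ => (x + s) * (y - x - s))).prod *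
      (T.map (fun s : ℤ => y - 1 - 2 * (x + s))).prod =
      ∑ j ∈ Finset.range (S.length + T.length + 1), y ^ j * (q j).eval x := by
  induction T with
  | nil =>
    obtain ⟨q, h1, h2, h3⟩ := exists_expand (K := K) S
    refine ⟨q, fun j => by simpa using h1 j, fun j hj => h2 j (by simpa using hj), fun x y => ?_⟩
    rw [List.map_nil, List.prod_nil, mul_one, h3]
    rfl
  | cons s T ih =>
    obtain ⟨q, h1, h2, h3⟩ := ih
    refine ⟨fun j => (if j = 0 then 0 else q (j - 1)) -
      (C (1 + 2 * (s : K)) + C 2 * X) * q j, fun j => ?_, fun j hj => ?_, fun x y => ?_⟩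
    · rw [List.length_cons]
      simp only
      refine (natDegree_sub_le _ _).trans (max_le ?_ ?_)
      · split_ifs with hj
        · simp
        · have h4 := h1 (j - 1)
          by_cases hj2 : S.length + T.length < j - 1
          · rw [h2 _ hj2, natDegree_zero]
            omega
          · omega
      · by_cases hj2 : S.length + T.length < j
        · rw [h2 _ hj2, mul_zero, natDegree_zero]
          omega
        · refine natDegree_mul_le.trans ?_
          have h4 := h1 j
          have h5 : (C (1 + 2 * (s : K)) + C 2 * X : K[X]).natDegree ≤ 1 := by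
            refine (natDegree_add_le _ _).trans (max_le (by rw [natDegree_C]; omega) ?_)
            exact (natDegree_C_mul_le _ _).trans natDegree_X_le
          omega
    · rw [List.length_cons] at hj
      simp only
      rw [if_neg (by omega), h2 _ (by omega), h2 _ (by omega), mul_zero, sub_zero]
    · rw [List.map_cons, List.prod_cons, mul_left_comm, h3, List.length_cons, ← add_assoc]
      simp only [eval_sub, eval_mul, eval_add, eval_X, eval_C, mul_sub]
      rw [Finset.sum_sub_distrib, Finset.sum_range_succ' (fun j => y ^ j * eval x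
        (if j = 0 then 0 else q (j - 1)))]
      rw [Finset.sum_range_succ (fun j => y ^ j * ((1 + 2 * (s : K) + 2 * x) * eval x (q j))),
        h2 (S.length + T.length + 1) (by omega)]
      simp only [if_true, eval_zero, mul_zero, add_zero, Nat.add_eq_zero_iff, one_ne_zero,
        and_false, if_false, Nat.add_sub_cancel]
      rw [Finset.mul_sum, ← Finset.sum_sub_distrib]
      refine Finset.sum_congr rfl fun j _ => ?_
      ring

theorem good_list2 (S T : List ℤ) : Good (2 * S.length + T.length + 1) (fun n : ℕ =>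
    ∑ m ∈ Finset.range n, ((S.map (fun s : ℤ => ((m : K) + s) * ((n : K) - m - s))).prod *
      (T.map (fun s : ℤ => (n : K) - 1 - 2 * ((m : K) + s))).prod)) := by
  obtain ⟨q, h1, h2, h3⟩ := exists_expand2 (K := K) S T
  choose B hB0 hB1 hB2 using fun j => exists_sum_poly (q j)
  refine ⟨∑ j ∈ Finset.range (S.length + T.length + 1), X ^ j * B j, ?_, fun n => ?_, fun n => ?_⟩
  · refine natDegree_sum_le_of_forall_le _ _ fun j hj => ?_
    rw [Finset.mem_range] at hj
    refine natDegree_mul_le.trans ?_
    rw [natDegree_X_pow]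
    have h4 := hB0 j
    have h5 := h1 j
    omega
  · rw [eval_finsetSum]
    simp only [h3]
    rw [Finset.sum_comm]
    refine Finset.sum_congr rfl fun j _ => ?_
    rw [eval_mul, eval_pow, eval_X, eval_nat_of_sum (hB1 j) (hB2 j), Finset.mul_sum]
  · rw [eval_finsetSum]
    have h4 : ∀ j ∈ Finset.range (S.length + T.length + 1), eval (-(n : K)) (X ^ j * B j) =
        -∑ m ∈ Finset.range n, (-(n : K)) ^ j * (q j).eval (-((m : K) + 1)) := by
      intro j _
      rw [eval_mul, eval_pow, eval_X, eval_neg_of_sum (hB1 j) (hB2 j), ← Finset.mul_sum]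
      ring
    rw [Finset.sum_congr rfl h4, Finset.sum_neg_distrib, Finset.sum_comm]
    simp only [← h3]
    congr 1
    rw [← Finset.sum_range_reflect]
    refine Finset.sum_congr rfl fun m hm => ?_
    rw [Finset.mem_range] at hm
    have h5 : ((n - 1 - m : ℕ) : K) = (n : K) - 1 - m := by
      rw [Nat.cast_sub (by omega), Nat.cast_sub (by omega)]
      simp
    congr 1
    · congr 1
      refine List.map_congr_left fun s _ => ?_
      rw [h5]
      ring
    · congr 1
      refine List.map_congr_left fun s _ => ?_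
      rw [h5]
      ring

/-- The diagonal operator. -/
def H2 (n : ℕ) : Matrix (Fin n) (Fin n) K :=
  fun i j => if i = j then (n : K) - 1 - 2 * ((j : ℕ) : K) else 0

/-- Words in three elements of a monoid. -/
def wd3 {M : Type*} [Monoid M] (e f h : M) (l : List (Option Bool)) : M :=
  (l.map (fun b => Option.elim b h (fun c => if c then e else f))).prod

theorem wd3_cons {M : Type*} [Monoid M] (e f h : M) (b : Option Bool) (l : List (Option Bool)) :
    wd3 e f h (b :: l) = (Option.elim b h (fun c => if c then e else f)) * wd3 e f h l := by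
  simp [wd3]

theorem wd3_nil {M : Type*} [Monoid M] (e f h : M) : wd3 e f h [] = 1 := by
  simp [wd3]

theorem wd3_append {M : Type*} [Monoid M] (e f h : M) (l l' : List (Option Bool)) :
    wd3 e f h (l ++ l') = wd3 e f h l * wd3 e f h l' := by
  simp [wd3]

/-- The total shift of a word. -/
def sh3 : List (Option Bool) → ℤ
  | [] => 0
  | some true :: l => sh3 l - 1
  | some false :: l => sh3 l + 1
  | none :: l => sh3 l

/-- The shifts at which the raising operator is applied. -/
def SS3 : List (Option Bool) → List ℤ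
  | [] => []
  | some true :: l => sh3 l :: SS3 l
  | some false :: l => SS3 l
  | none :: l => SS3 l

/-- The shifts at which the diagonal operator is applied. -/
def TS3 : List (Option Bool) → List ℤ
  | [] => []
  | some true :: l => TS3 l
  | some false :: l => TS3 l
  | none :: l => sh3 l :: TS3 l

theorem length3 (l : List (Option Bool)) :
    (l.length : ℤ) = 2 * (SS3 l).length + (TS3 l).length + sh3 l := by
  induction l with
  | nil => rfl
  | cons b l ih =>
    rcases b with _ | _ | _
    · simp only [SS3, TS3, sh3, List.length_cons]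
      push_cast
      linarith
    · simp only [SS3, TS3, sh3, List.length_cons]
      push_cast
      linarith
    · simp only [SS3, TS3, sh3, List.length_cons]
      push_cast
      linarith

/-- The coefficient of a word. -/
def PP3 (l : List (Option Bool)) (m n : K) : K :=
  ((SS3 l).map (fun s : ℤ => (m + s) * (n - m - s))).prod *
    ((TS3 l).map (fun s : ℤ => n - 1 - 2 * (m + s))).prod

theorem word_entry3 (n : ℕ) (m : Fin n) (l : List (Option Bool)) :
    (∀ i : Fin n, wd3 (E2 n) (F2 n) (H2 n) l i m =
      if ((i : ℕ) : ℤ) = ((m : ℕ) : ℤ) + sh3 l then PP3 l ((m : ℕ) : K) (n : K) else 0) ∧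
    (((m : ℕ) : ℤ) + sh3 l < 0 → PP3 l ((m : ℕ) : K) (n : K) = 0) := by
  induction l with
  | nil =>
    refine ⟨fun i => ?_, fun h => ?_⟩
    · simp only [wd3, List.map_nil, List.prod_nil, sh3, add_zero, PP3, SS3, TS3, mul_one]
      rw [Matrix.one_apply]
      by_cases h : i = m
      · subst h
        simp
      · rw [if_neg h, if_neg]
        intro h2
        exact h (Fin.ext (by exact_mod_cast h2))
    · simp only [sh3] at h
      omega
  | cons b l ih =>
    obtain ⟨ih1, ih2⟩ := ih
    rcases b with _ | _ | _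
    · -- the diagonal letter
      have h3 : sh3 (none :: l) = sh3 l := rfl
      have h2 : PP3 (none :: l) ((m : ℕ) : K) (n : K) =
          ((n : K) - 1 - 2 * (((m : ℕ) : K) + (sh3 l : K))) * PP3 l ((m : ℕ) : K) (n : K) := by
        simp only [PP3, SS3, TS3, List.map_cons, List.prod_cons]
        ring
      refine ⟨fun i => ?_, fun h => ?_⟩
      · have h1 : wd3 (E2 n : Matrix _ _ K) (F2 n) (H2 n) (none :: l) =
            H2 n * wd3 (E2 n) (F2 n) (H2 n) l := by
          rw [wd3_cons]
          rfl
        rw [h1, Matrix.mul_apply, h2, h3, Finset.sum_eq_single i]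
        · rw [ih1]
          unfold H2
          rw [if_pos rfl]
          by_cases h4 : ((i : ℕ) : ℤ) = ((m : ℕ) : ℤ) + sh3 l
          · rw [if_pos h4, if_pos h4]
            have h5 : ((i : ℕ) : K) = ((m : ℕ) : K) + (sh3 l : K) := by exact_mod_cast h4
            rw [h5]
          · rw [if_neg h4, if_neg h4, mul_zero]
        · intro j _ hj
          unfold H2
          rw [if_neg (fun h => hj h.symm), zero_mul]
        · intro h4
          exact absurd (Finset.mem_univ _) h4
      · rw [h2, ih2 (by rw [h3] at h; exact h), mul_zero]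
    · refine ⟨fun i => ?_, fun h => ?_⟩
      · have h1 : wd3 (E2 n : Matrix _ _ K) (F2 n) (H2 n) (some false :: l) =
            F2 n * wd3 (E2 n) (F2 n) (H2 n) l := by
          rw [wd3_cons]
          simp
        rw [h1, Matrix.mul_apply]
        have h2 : PP3 (some false :: l) ((m : ℕ) : K) (n : K) = PP3 l ((m : ℕ) : K) (n : K) := rfl
        have h3 : sh3 (some false :: l) = sh3 l + 1 := rfl
        rw [h2, h3]
        by_cases hi : (i : ℕ) = 0
        · rw [Finset.sum_eq_zero]
          · split_ifs with h4
            · rw [ih2 (by omega)]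
            · rfl
          · intro j _
            unfold F2
            rw [if_neg (by omega), zero_mul]
        · have hi1 : (i : ℕ) - 1 < n := by have := i.2; omega
          rw [Finset.sum_eq_single (⟨(i : ℕ) - 1, hi1⟩ : Fin n)]
          · rw [ih1]
            unfold F2
            rw [if_pos (by simp only; omega), one_mul]
            by_cases h4 : ((i : ℕ) : ℤ) = ((m : ℕ) : ℤ) + (sh3 l + 1)
            · rw [if_pos h4, if_pos (by simp only; omega)]
            · rw [if_neg h4, if_neg (by simp only; omega)]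
          · intro j _ hj
            unfold F2
            rw [if_neg, zero_mul]
            intro h4
            apply hj
            apply Fin.ext
            simp only
            omega
          · intro h4
            exact absurd (Finset.mem_univ _) h4
      · have h3 : sh3 (some false :: l) = sh3 l + 1 := rfl
        rw [h3] at h
        exact ih2 (by omega)
    · have h3 : sh3 (some true :: l) = sh3 l - 1 := rfl
      have h2 : PP3 (some true :: l) ((m : ℕ) : K) (n : K) =
          (((m : ℕ) : K) + (sh3 l : K)) * ((n : K) - ((m : ℕ) : K) - (sh3 l : K)) *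
            PP3 l ((m : ℕ) : K) (n : K) := by
        simp only [PP3, SS3, TS3, List.map_cons, List.prod_cons]
        ring
      refine ⟨fun i => ?_, fun h => ?_⟩
      · have h1 : wd3 (E2 n : Matrix _ _ K) (F2 n) (H2 n) (some true :: l) =
            E2 n * wd3 (E2 n) (F2 n) (H2 n) l := by
          rw [wd3_cons]
          simp
        rw [h1, Matrix.mul_apply, h2, h3]
        by_cases hi : (i : ℕ) + 1 = n
        · rw [Finset.sum_eq_zero]
          · split_ifs with h4
            · have h5 : (n : ℤ) - ((m : ℕ) : ℤ) - sh3 l = 0 := by omega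
              have h6 : (n : K) - ((m : ℕ) : K) - (sh3 l : K) = 0 := by exact_mod_cast h5
              rw [h6]
              ring
            · rfl
          · intro j _
            unfold E2
            rw [if_neg (by have := j.2; omega), zero_mul]
        · have hi1 : (i : ℕ) + 1 < n := by have := i.2; omega
          rw [Finset.sum_eq_single (⟨(i : ℕ) + 1, hi1⟩ : Fin n)]
          · rw [ih1]
            unfold E2
            rw [if_pos rfl]
            by_cases h4 : ((i : ℕ) : ℤ) = ((m : ℕ) : ℤ) + (sh3 l - 1)
            · rw [if_pos h4, if_pos (by simp only; push_cast; omega)]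
              have h5 : (((i : ℕ) + 1 : ℕ) : K) = ((m : ℕ) : K) + (sh3 l : K) := by
                have h6 : (((i : ℕ) + 1 : ℕ) : ℤ) = ((m : ℕ) : ℤ) + sh3 l := by push_cast; omega
                exact_mod_cast h6
              simp only
              rw [h5]
              ring
            · rw [if_neg h4, if_neg (by simp only; push_cast; omega), mul_zero]
          · intro j _ hj
            unfold E2
            rw [if_neg, zero_mul]
            intro h4
            apply hj
            apply Fin.ext
            simp only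
            omega
          · intro h4
            exact absurd (Finset.mem_univ _) h4
      · rw [h3] at h
        rw [h2]
        by_cases h4 : ((m : ℕ) : ℤ) + sh3 l < 0
        · rw [ih2 h4, mul_zero]
        · have h5 : ((m : ℕ) : ℤ) + sh3 l = 0 := by omega
          have h6 : ((m : ℕ) : K) + (sh3 l : K) = 0 := by exact_mod_cast h5
          rw [h6]
          ring

theorem good_word3 (l : List (Option Bool)) : Good (l.length + 1)
    (fun n => (wd3 (E2 n) (F2 n) (H2 n) l : Matrix (Fin n) (Fin n) K).trace) := by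
  have h1 : ∀ n, (wd3 (E2 n) (F2 n) (H2 n) l : Matrix (Fin n) (Fin n) K).trace =
      if sh3 l = 0 then ∑ m ∈ Finset.range n, PP3 l (m : K) (n : K) else 0 := by
    intro n
    unfold Matrix.trace
    simp only [Matrix.diag_apply, (word_entry3 n _ l).1]
    by_cases h : sh3 l = 0
    · rw [if_pos h, ← Fin.sum_univ_eq_sum_range (fun m : ℕ => PP3 l (m : K) (n : K))]
      refine Finset.sum_congr rfl fun i _ => ?_
      rw [h, add_zero, if_pos rfl]
    · rw [if_neg h]
      refine Finset.sum_eq_zero fun i _ => ?_
      rw [if_neg (by omega)]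
  simp only [h1]
  by_cases h : sh3 l = 0
  · simp only [if_pos h]
    have h2 := good_list2 (K := K) (SS3 l) (TS3 l)
    refine h2.mono ?_
    have h3 := length3 l
    omega
  · simp only [if_neg h]
    exact Good.zero _

/-! ### The filtration -/

/-- The diagonal operator. -/
def Hh (n : ℕ) : Matrix (Fin n) (Fin n) K := EE n * FF n 1 - FF n 1 * EE n

theorem E2F2 (n : ℕ) : (E2 n * F2 n - F2 n * E2 n : Matrix (Fin n) (Fin n) K) = H2 n := by
  ext i j
  have hE := (word_entry3 (K := K) n j [some true, some false]).1 i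
  have hF := (word_entry3 (K := K) n j [some false, some true]).1 i
  simp only [wd3, List.map_cons, List.map_nil, List.prod_cons, List.prod_nil, mul_one,
    Option.elim_some, if_true, Bool.false_eq_true, if_false, sh3, PP3, SS3, TS3] at hE hF
  rw [Matrix.sub_apply, hE, hF]
  unfold H2
  by_cases h : i = j
  · subst h
    rw [if_pos (by omega), if_pos (by omega), if_pos rfl]
    push_cast
    ring
  · have h2 : ¬ ((i : ℕ) : ℤ) = ((j : ℕ) : ℤ) := by
      intro h3
      exact h (Fin.ext (by exact_mod_cast h3))
    rw [if_neg (by omega), if_neg (by omega), if_neg h, sub_zero]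

theorem Hh_mul_DD (n : ℕ) : (Hh n : Matrix _ _ K) * DD n = DD n * H2 n := by
  unfold Hh
  rw [← E2F2, sub_mul, mul_sub, mul_assoc, mul_assoc, FF_mul_DD, EE_mul_DD, ← mul_assoc,
    ← mul_assoc, EE_mul_DD, FF_mul_DD, mul_assoc, mul_assoc]

theorem wd3_conj (n : ℕ) (l : List (Option Bool)) :
    wd3 (EE n : Matrix _ _ K) (FF n 1) (Hh n) l * DD n = DD n * wd3 (E2 n) (F2 n) (H2 n) l := by
  induction l with
  | nil => simp [wd3]
  | cons b l ih =>
    rw [wd3_cons, wd3_cons, mul_assoc, ih, ← mul_assoc, ← mul_assoc]
    congr 1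
    rcases b with _ | _ | _
    · simpa using Hh_mul_DD n
    · simpa using FF_mul_DD n
    · simpa using EE_mul_DD n

theorem good_word3' (l : List (Option Bool)) : Good (l.length + 1)
    (fun n => (wd3 (EE n) (FF n 1) (Hh n) l : Matrix (Fin n) (Fin n) K).trace) := by
  have h := good_word3 (K := K) l
  have h1 : ∀ n, (wd3 (EE n) (FF n 1) (Hh n) l : Matrix (Fin n) (Fin n) K).trace =
      (wd3 (E2 n) (F2 n) (H2 n) l : Matrix (Fin n) (Fin n) K).trace := by
    intro n
    have h2 := wd3_conj (K := K) n l
    have h3 : (wd3 (EE n) (FF n 1) (Hh n) l : Matrix (Fin n) (Fin n) K) =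
        DD n * wd3 (E2 n) (F2 n) (H2 n) l * DDi n := by
      rw [← h2, mul_assoc, DD_mul_DDi, mul_one]
    rw [h3, Matrix.trace_mul_comm, ← mul_assoc, DDi_mul_DD, one_mul]
  simp only [h1]
  exact h

variable (K) in
/-- The family of diagonal operators. -/
def HHf : Fa K := fun n => Hh n

variable (K) in
/-- The span of the words of bounded length in three letters. -/
def FL (L : ℕ) : Submodule K (Fa K) :=
  Submodule.span K {x | ∃ l : List (Option Bool), l.length ≤ L ∧ x = wd3 (EEf K) (FFf K) (HHf K) l}

theorem FL_mono {L L' : ℕ} (h : L ≤ L') {x : Fa K} (hx : x ∈ FL K L) : x ∈ FL K L' := by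
  refine Submodule.span_mono ?_ hx
  rintro y ⟨l, hl, rfl⟩
  exact ⟨l, hl.trans h, rfl⟩

theorem FL_word (l : List (Option Bool)) : wd3 (EEf K) (FFf K) (HHf K) l ∈ FL K l.length :=
  Submodule.subset_span ⟨l, le_rfl, rfl⟩

theorem FL_mul {a b : ℕ} {x y : Fa K} (hx : x ∈ FL K a) (hy : y ∈ FL K b) :
    x * y ∈ FL K (a + b) := by
  have h1 := Submodule.mul_mem_mul hx hy
  unfold FL at h1
  rw [Submodule.span_mul_span] at h1
  refine Submodule.span_mono ?_ h1
  rintro z ⟨_, ⟨l, hl, rfl⟩, _, ⟨l', hl', rfl⟩, rfl⟩
  refine ⟨l ++ l', ?_, ?_⟩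
  · rw [List.length_append]
    omega
  · rw [wd3_append]

theorem FL_one : (1 : Fa K) ∈ FL K 0 :=
  Submodule.subset_span ⟨[], le_rfl, by simp [wd3]⟩

theorem FL_pow {a : ℕ} {x : Fa K} (hx : x ∈ FL K a) (m : ℕ) : x ^ m ∈ FL K (m * a) := by
  induction m with
  | zero =>
    rw [pow_zero, zero_mul]
    exact FL_one
  | succ m ih =>
    rw [pow_succ]
    have h1 := FL_mul ih hx
    have h2 : m * a + a = (m + 1) * a := by ring
    rwa [h2] at h1

theorem FL_E : EEf K ∈ FL K 1 := Submodule.subset_span ⟨[some true], le_rfl, by simp [wd3]⟩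
theorem FL_F : FFf K ∈ FL K 1 := Submodule.subset_span ⟨[some false], le_rfl, by simp [wd3]⟩
theorem FL_H : HHf K ∈ FL K 1 := Submodule.subset_span ⟨[none], le_rfl, by simp [wd3]⟩

theorem wd3_apply (l : List (Option Bool)) (n : ℕ) :
    (wd3 (EEf K) (FFf K) (HHf K) l) n = wd3 (EE n) (FF n 1) (Hh n) l := by
  induction l with
  | nil => simp [wd3]
  | cons b l ih =>
    rw [wd3_cons, wd3_cons, Pi.mul_apply, ih]
    rcases b with _ | _ | _ <;> rfl

theorem FL_good {L : ℕ} {x : Fa K} (hx : x ∈ FL K L) :
    Good (L + 1) (fun n => (x n).trace) := by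
  unfold FL at hx
  induction hx using Submodule.span_induction with
  | mem x h =>
    obtain ⟨l, hl, rfl⟩ := h
    simp only [wd3_apply]
    exact (good_word3' l).mono (by omega)
  | zero =>
    simpa using Good.zero (K := K) (L + 1)
  | add x y _ _ hx hy =>
    simpa using hx.add hy
  | smul a x _ hx =>
    simpa using hx.smul a

/-! ### Commutators -/

theorem comm_HE (n : ℕ) : (Hh n * EE n - EE n * Hh n : Matrix (Fin n) (Fin n) K) =
    (2 : K) • EE n := by
  have hD : ∀ X Y : Matrix (Fin n) (Fin n) K, X * DD n = Y * DD n → X = Y := by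
    intro X Y h
    have h2 := congrArg (fun Z => Z * DDi n) h
    simp only [mul_assoc, DD_mul_DDi, mul_one] at h2
    exact h2
  apply hD
  rw [sub_mul, mul_assoc, mul_assoc, EE_mul_DD, Hh_mul_DD, ← mul_assoc, ← mul_assoc, Hh_mul_DD,
    EE_mul_DD, mul_assoc, mul_assoc, ← mul_sub, smul_mul_assoc, EE_mul_DD, ← mul_smul_comm]
  congr 1
  ext i j
  rw [Matrix.sub_apply, Matrix.mul_apply, Matrix.mul_apply, Finset.sum_eq_single i,
    Finset.sum_eq_single j]
  · unfold H2 E2
    simp only [if_true, Matrix.smul_apply, smul_eq_mul]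
    by_cases h : (i : ℕ) + 1 = (j : ℕ)
    · rw [if_pos h, ← h]
      push_cast
      ring
    · rw [if_neg h]
      ring
  · intro l _ hl
    unfold H2
    rw [if_neg hl, mul_zero]
  · intro h
    exact absurd (Finset.mem_univ _) h
  · intro l _ hl
    unfold H2
    rw [if_neg (fun h => hl h.symm), zero_mul]
  · intro h
    exact absurd (Finset.mem_univ _) h

theorem comm_HF (n : ℕ) : (Hh n * FF n 1 - FF n 1 * Hh n : Matrix (Fin n) (Fin n) K) =
    (-2 : K) • FF n 1 := by
  have hD : ∀ X Y : Matrix (Fin n) (Fin n) K, X * DD n = Y * DD n → X = Y := by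
    intro X Y h
    have h2 := congrArg (fun Z => Z * DDi n) h
    simp only [mul_assoc, DD_mul_DDi, mul_one] at h2
    exact h2
  apply hD
  rw [sub_mul, mul_assoc, mul_assoc, FF_mul_DD, Hh_mul_DD, ← mul_assoc, ← mul_assoc, Hh_mul_DD,
    FF_mul_DD, mul_assoc, mul_assoc, ← mul_sub, smul_mul_assoc, FF_mul_DD, ← mul_smul_comm]
  congr 1
  ext i j
  rw [Matrix.sub_apply, Matrix.mul_apply, Matrix.mul_apply, Finset.sum_eq_single i,
    Finset.sum_eq_single j]
  · unfold H2 F2
    simp only [if_true, Matrix.smul_apply, smul_eq_mul]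
    by_cases h : (i : ℕ) = (j : ℕ) + 1
    · rw [if_pos h, h]
      push_cast
      ring
    · rw [if_neg h]
      ring
  · intro l _ hl
    unfold H2
    rw [if_neg hl, mul_zero]
  · intro h
    exact absurd (Finset.mem_univ _) h
  · intro l _ hl
    unfold H2
    rw [if_neg (fun h => hl h.symm), zero_mul]
  · intro h
    exact absurd (Finset.mem_univ _) h

/-- The letters. -/
def lt3 (K : Type*) [Field K] [CharZero K] (b : Option Bool) : Fa K :=
  Option.elim b (HHf K) (fun c => if c then EEf K else FFf K)

theorem FL_lt3 (b : Option Bool) : lt3 K b ∈ FL K 1 := by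
  rcases b with _ | _ | _
  · exact FL_H
  · exact FL_F
  · exact FL_E

theorem comm_lt3 (b c : Option Bool) : lt3 K b * lt3 K c - lt3 K c * lt3 K b ∈ FL K 1 := by
  have hEF : EEf K * FFf K - FFf K * EEf K = HHf K := rfl
  have hHE : HHf K * EEf K - EEf K * HHf K = (2 : K) • EEf K := by
    funext n
    exact comm_HE n
  have hHF : HHf K * FFf K - FFf K * HHf K = (-2 : K) • FFf K := by
    funext n
    exact comm_HF n
  have m1 : EEf K * FFf K - FFf K * EEf K ∈ FL K 1 := by
    rw [hEF]
    exact FL_H
  have m2 : HHf K * EEf K - EEf K * HHf K ∈ FL K 1 := by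
    rw [hHE]
    exact Submodule.smul_mem _ _ FL_E
  have m3 : HHf K * FFf K - FFf K * HHf K ∈ FL K 1 := by
    rw [hHF]
    exact Submodule.smul_mem _ _ FL_F
  have flip : ∀ x y : Fa K, x * y - y * x ∈ FL K 1 → y * x - x * y ∈ FL K 1 := by
    intro x y h
    have h2 := Submodule.neg_mem _ h
    rwa [neg_sub] at h2
  have zer : ∀ x : Fa K, x * x - x * x ∈ FL K 1 := by
    intro x
    rw [sub_self]
    exact Submodule.zero_mem _
  rcases b with _ | _ | _ <;> rcases c with _ | _ | _
  · exact zer _
  · exact m3
  · exact m2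
  · exact flip _ _ m3
  · exact zer _
  · exact flip _ _ m1
  · exact flip _ _ m2
  · exact m1
  · exact zer _

theorem comm_word_letter (l : List (Option Bool)) (c : Option Bool) :
    wd3 (EEf K) (FFf K) (HHf K) l * lt3 K c - lt3 K c * wd3 (EEf K) (FFf K) (HHf K) l ∈
      FL K l.length := by
  induction l with
  | nil =>
    rw [wd3_nil, one_mul, mul_one, sub_self]
    exact Submodule.zero_mem _
  | cons b l ih =>
    have h1 : wd3 (EEf K) (FFf K) (HHf K) (b :: l) = lt3 K b * wd3 (EEf K) (FFf K) (HHf K) l :=
      wd3_cons _ _ _ _ _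
    rw [h1]
    have h2 : lt3 K b * wd3 (EEf K) (FFf K) (HHf K) l * lt3 K c -
        lt3 K c * (lt3 K b * wd3 (EEf K) (FFf K) (HHf K) l) =
        lt3 K b * (wd3 (EEf K) (FFf K) (HHf K) l * lt3 K c -
          lt3 K c * wd3 (EEf K) (FFf K) (HHf K) l) +
        (lt3 K b * lt3 K c - lt3 K c * lt3 K b) * wd3 (EEf K) (FFf K) (HHf K) l := by
      noncomm_ring
    rw [h2, List.length_cons, add_comm l.length 1]
    exact Submodule.add_mem _ (FL_mul (FL_lt3 b) ih) (FL_mul (comm_lt3 b c) (FL_word l))

theorem comm_letter {a : ℕ} {x : Fa K} (hx : x ∈ FL K a) (c : Option Bool) :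
    x * lt3 K c - lt3 K c * x ∈ FL K a := by
  unfold FL at hx
  induction hx using Submodule.span_induction with
  | mem x h =>
    obtain ⟨l, hl, rfl⟩ := h
    exact FL_mono hl (comm_word_letter l c)
  | zero =>
    rw [zero_mul, mul_zero, sub_self]
    exact Submodule.zero_mem _
  | add x y _ _ hx hy =>
    have h2 : (x + y) * lt3 K c - lt3 K c * (x + y) =
        (x * lt3 K c - lt3 K c * x) + (y * lt3 K c - lt3 K c * y) := by noncomm_ring
    rw [h2]
    exact Submodule.add_mem _ hx hy
  | smul a x _ hx =>
    have h2 : (a • x) * lt3 K c - lt3 K c * (a • x) = a • (x * lt3 K c - lt3 K c * x) := by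
      rw [smul_mul_assoc, mul_smul_comm, smul_sub]
    rw [h2]
    exact Submodule.smul_mem _ _ hx

theorem comm_word {a : ℕ} {x : Fa K} (hx : x ∈ FL K a) (b : Option Bool)
    (l : List (Option Bool)) :
    x * wd3 (EEf K) (FFf K) (HHf K) (b :: l) - wd3 (EEf K) (FFf K) (HHf K) (b :: l) * x ∈
      FL K (a + l.length) := by
  induction l generalizing b with
  | nil =>
    have h1 : wd3 (EEf K) (FFf K) (HHf K) [b] = lt3 K b := by
      rw [wd3_cons, wd3_nil, mul_one]
      rfl
    rw [h1]
    exact comm_letter hx b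
  | cons b' l ih =>
    have h1 : wd3 (EEf K) (FFf K) (HHf K) (b :: b' :: l) =
        lt3 K b * wd3 (EEf K) (FFf K) (HHf K) (b' :: l) := wd3_cons _ _ _ _ _
    have h2 : x * (lt3 K b * wd3 (EEf K) (FFf K) (HHf K) (b' :: l)) -
        lt3 K b * wd3 (EEf K) (FFf K) (HHf K) (b' :: l) * x =
        (x * lt3 K b - lt3 K b * x) * wd3 (EEf K) (FFf K) (HHf K) (b' :: l) +
        lt3 K b * (x * wd3 (EEf K) (FFf K) (HHf K) (b' :: l) -
          wd3 (EEf K) (FFf K) (HHf K) (b' :: l) * x) := by noncomm_ring
    rw [h1, h2]
    refine Submodule.add_mem _ (FL_mul (comm_letter hx b) (FL_word _)) ?_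
    have h3 := FL_mul (FL_lt3 b) (ih b')
    refine FL_mono ?_ h3
    rw [List.length_cons]
    omega

theorem FL_comm {a b : ℕ} {x y : Fa K} (hx : x ∈ FL K a) (hy : y ∈ FL K (b + 1)) :
    x * y - y * x ∈ FL K (a + b) := by
  unfold FL at hy
  induction hy using Submodule.span_induction with
  | mem y h =>
    obtain ⟨l, hl, rfl⟩ := h
    rcases l with _ | ⟨c, l⟩
    · rw [wd3_nil, one_mul, mul_one, sub_self]
      exact Submodule.zero_mem _
    · rw [List.length_cons] at hl
      exact FL_mono (by omega) (comm_word hx c l)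
  | zero =>
    rw [zero_mul, mul_zero, sub_self]
    exact Submodule.zero_mem _
  | add y z _ _ hy hz =>
    have h2 : x * (y + z) - (y + z) * x = (x * y - y * x) + (x * z - z * x) := by noncomm_ring
    rw [h2]
    exact Submodule.add_mem _ hy hz
  | smul c y _ hy =>
    have h2 : x * (c • y) - (c • y) * x = c • (x * y - y * x) := by
      rw [smul_mul_assoc, mul_smul_comm, smul_sub]
    rw [h2]
    exact Submodule.smul_mem _ _ hy

theorem FL_ofFn : ∀ (m : ℕ) (d : Fin m → ℕ) (x : Fin m → Fa K) (_ : ∀ i, x i ∈ FL K (d i)),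
    (List.ofFn x).prod ∈ FL K (∑ i, d i)
  | 0, d, x, _ => by
    rw [List.ofFn_zero, List.prod_nil, Finset.univ_eq_empty, Finset.sum_empty]
    exact FL_one
  | m + 1, d, x, hx => by
    rw [List.ofFn_succ, List.prod_cons, Fin.sum_univ_succ]
    exact FL_mul (hx 0) (FL_ofFn m (fun i => d i.succ) (fun i => x i.succ) (fun i => hx i.succ))

/-- The family of the conjugates of `F^{(k)}`. -/
def XXf (k : ℕ) (t : K) : Fa K := fun n => XX n k t

theorem FL_XX (k : ℕ) (t : K) : XXf k t ∈ FL K k := by
  have h1 : XXf 1 t ∈ FL K 1 := by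
    have h2 : XXf 1 t = FFf K - t • HHf K - t ^ 2 • EEf K := by
      funext n
      simp only [Pi.sub_apply, Pi.smul_apply]
      exact XX_one n t
    rw [h2]
    exact Submodule.sub_mem _ (Submodule.sub_mem _ FL_F (Submodule.smul_mem _ _ FL_H))
      (Submodule.smul_mem _ _ FL_E)
  have h3 : XXf k t = (k.factorial : K)⁻¹ • (XXf 1 t) ^ k := by
    funext n
    simp only [Pi.smul_apply, Pi.pow_apply]
    change XX n k t = (k.factorial : K)⁻¹ • (XX n 1 t) ^ k
    rw [← XX_pow, smul_smul, inv_mul_cancel₀, one_smul]
    exact_mod_cast Nat.factorial_ne_zero k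
  rw [h3]
  have h4 := FL_pow h1 k
  rw [mul_one] at h4
  exact Submodule.smul_mem _ _ h4

end

/-! ### The final bound -/

open Equiv

/-- The standard full cycle. -/
def pi0 (k : ℕ) : Perm (Option (Fin k)) := (finSuccEquiv k).permCongr (finRotate (k + 1))

theorem full_pi0 (k : ℕ) : Full (pi0 k) := (full_finRotate k).permCongr _

theorem prod_ofFn_apply {K : Type*} [Field K] (m : ℕ) (x : Fin m → Fa K) (n : ℕ) :
    ((List.ofFn x).prod) n = (List.ofFn (fun i => x i n)).prod := by
  induction m with
  | zero => simp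
  | succ m ih =>
    rw [List.ofFn_succ, List.prod_cons, List.ofFn_succ, List.prod_cons, Pi.mul_apply, ih]

theorem aG_pi0 {n : ℕ} (k : ℕ) (x : Option (Fin k × Bool) → Matrix (Fin n) (Fin n) ℂ) :
    2 ^ k * aG (nu (pi0 k)) x = ∑ σ : Perm (Option (Fin k × Bool)), ((Perm.sign σ : ℤ) : ℂ) *
      ((List.ofFn (fun i : Fin (k + 1) => com (fun j => x (σ j)) (finSuccEquiv k i))).prod).trace := by
  have h1 := sum_com (GGm (n := n) (pi0 k)) x
  simp only [GGm_apply, GG_pr] at h1
  unfold aG
  rw [← h1]
  refine Finset.sum_congr rfl fun σ _ => ?_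
  congr 1
  unfold pi0
  rw [← GG_comp, GG_finRotate]

theorem good_nu (k : ℕ) (t : Option (Fin k × Bool) → ℂ) :
    Good (2 * k ^ 2 + 1) (fun n => aG (nu (pi0 k)) (fun j => XX n k (t j))) := by
  rcases k with _ | k
  · -- degree zero
    have h1 : ∀ n, aG (nu (pi0 0)) (fun j => XX n 0 (t j)) = (n : ℂ) := by
      intro n
      have h2 := aG_pi0 (n := n) 0 (fun j => XX n 0 (t j))
      rw [pow_zero, one_mul] at h2
      rw [h2]
      have h3 : ∀ j, (XX n 0 (t j) : Matrix (Fin n) (Fin n) ℂ) = 1 := by
        intro j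
        have h4 := XX_pow (K := ℂ) n 0 (t j)
        simpa using h4
      have h5 : ∀ σ : Perm (Option (Fin 0 × Bool)), ((Perm.sign σ : ℤ) : ℂ) *
          ((List.ofFn (fun i : Fin (0 + 1) => com (fun j => XX n 0 (t (σ j)))
            (finSuccEquiv 0 i))).prod).trace = (n : ℂ) := by
        intro σ
        have h6 : σ = 1 := Subsingleton.elim _ _
        subst h6
        simp [h3, com]
      rw [Finset.sum_congr rfl (fun σ _ => h5 σ), Finset.sum_const, Finset.card_univ]
      simp
    simp only [h1]
    exact ⟨X, by simp, by simp, by simp⟩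
  · have h1 : ∀ n, aG (nu (pi0 (k + 1))) (fun j => XX n (k + 1) (t j)) =
        ∑ σ : Perm (Option (Fin (k + 1) × Bool)), ((2 : ℂ) ^ (k + 1))⁻¹ *
          ((Perm.sign σ : ℤ) : ℂ) * ((List.ofFn (fun i : Fin (k + 1 + 1) =>
          com (fun j => XX n (k + 1) (t (σ j))) (finSuccEquiv (k + 1) i))).prod).trace := by
      intro n
      have h2 := aG_pi0 (n := n) (k + 1) (fun j => XX n (k + 1) (t j))
      simp only [mul_assoc]
      rw [← Finset.mul_sum, ← h2, ← mul_assoc, inv_mul_cancel₀, one_mul]
      exact pow_ne_zero _ two_ne_zero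
    simp only [h1]
    refine Good.sum _ _ fun σ _ => Good.smul _ ?_
    let d : Fin (k + 1 + 1) → ℕ := Fin.cons (k + 1) (fun _ => k + 1 + k)
    let y : Fin (k + 1 + 1) → Fa ℂ := Fin.cons (XXf (k + 1) (t (σ none)))
      (fun i => XXf (k + 1) (t (σ (some (i, false)))) * XXf (k + 1) (t (σ (some (i, true)))) -
        XXf (k + 1) (t (σ (some (i, true)))) * XXf (k + 1) (t (σ (some (i, false)))))
    have hy : ∀ i, y i ∈ FL ℂ (d i) := by
      intro i
      refine Fin.cases ?_ (fun i => ?_) i
      · exact FL_XX (k + 1) _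
      · exact FL_comm (FL_XX (k + 1) _) (FL_XX (k + 1) _)
    have h2 := FL_good (FL_ofFn (k + 1 + 1) d y hy)
    have h3 : ∑ i, d i = 2 * (k + 1) ^ 2 := by
      rw [Fin.sum_univ_succ]
      simp only [d, Fin.cons_zero, Fin.cons_succ, Finset.sum_const, Finset.card_univ,
        Fintype.card_fin, smul_eq_mul]
      ring
    rw [h3] at h2
    have h4 : (fun n => ((List.ofFn (fun i : Fin (k + 1 + 1) =>
        com (fun j => (XX n (k + 1) (t (σ j)) : Matrix (Fin n) (Fin n) ℂ))
          (finSuccEquiv (k + 1) i))).prod).trace) =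
        fun n => (((List.ofFn y).prod) n).trace := by
      funext n
      have h5 : (fun i : Fin (k + 1 + 1) =>
          com (fun j => (XX n (k + 1) (t (σ j)) : Matrix (Fin n) (Fin n) ℂ))
            (finSuccEquiv (k + 1) i)) = fun i => y i n := by
        funext i
        refine Fin.cases ?_ (fun i => ?_) i
        · rfl
        · rw [finSuccEquiv_succ]
          rfl
      rw [prod_ofFn_apply, h5]
    rw [h4]
    exact h2

end Run7.h539
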