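import Mathlib
import Pool.Agent.Run7.h539.Cart2

/-!
# The alternating form attached to two polynomials
-/

set_option autoImplicit false
set_option linter.unusedSectionVars false

namespace Run7.h539

open Equiv Finset

variable {k : ℕ}

/-- The alternating form attached to two functions. -/
def Om (f g : ℂ → ℂ) (t : Option (Fin k × Bool) → ℂ) : ℂ :=
  ∑ σ : Perm (Option (Fin k × Bool)), ((Perm.sign σ : ℤ) : ℂ) *
    (g (t (σ none)) * f (t (σ none)) * ∏ l : Fin k, (g (t (σ (some (l, false)))) *
      (t (σ (some (l, false))) - t (σ (some (l, true)))) ^ k * f (t (σ (some (l, true))))))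

/-- The exponents. -/
def ex : Option (Fin k × Bool) → ℕ
  | none => 0
  | some (l, false) => (l : ℕ) + 1
  | some (l, true) => k + (l : ℕ) + 1

/-- The numbering of the letters. -/
def en (k : ℕ) : Fin (k + k + 1) ≃ Option (Fin k × Bool) :=
  (finSuccEquiv (k + k)).trans (Equiv.optionCongr (finSumFinEquiv.symm.trans
    ((Equiv.boolProdEquivSum (Fin k)).symm.trans (Equiv.prodComm Bool (Fin k)))))

theorem en_zero : en k 0 = none := rfl

theorem en_castAdd (i : Fin k) : en k (Fin.castAdd k i).succ = some (i, false) := by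
  unfold en
  rw [Equiv.trans_apply, finSuccEquiv_succ, Equiv.optionCongr_apply, Option.map_some,
    Equiv.trans_apply, finSumFinEquiv_symm_apply_castAdd]
  rfl

theorem en_natAdd (i : Fin k) : en k (Fin.natAdd k i).succ = some (i, true) := by
  unfold en
  rw [Equiv.trans_apply, finSuccEquiv_succ, Equiv.optionCongr_apply, Option.map_some,
    Equiv.trans_apply, finSumFinEquiv_symm_apply_natAdd]
  rfl

theorem ex_en (j : Fin (k + k + 1)) : ex (en k j) = (j : ℕ) := by
  refine Fin.cases ?_ (fun j' => ?_) j
  · rfl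
  · refine Fin.addCases (fun i => ?_) (fun i => ?_) j'
    · rw [en_castAdd]
      rfl
    · rw [en_natAdd]
      rfl

/-- The Vandermonde determinant. -/
noncomputable def VV (t : Option (Fin k × Bool) → ℂ) : ℂ :=
  Matrix.det (Matrix.of fun i m : Option (Fin k × Bool) => t i ^ ex m)

theorem VV_eq (t : Option (Fin k × Bool) → ℂ) :
    VV t = (Matrix.vandermonde (fun j => t (en k j))).det := by
  unfold VV
  rw [← Matrix.det_submatrix_equiv_self (en k)]
  congr 1
  ext i j
  simp [Matrix.vandermonde_apply, ex_en]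

/-- The product of the differences. -/
def Dl {m : ℕ} (v : Fin m → ℂ) : ℂ := ∏ i : Fin m, ∏ j ∈ Ioi i, (v j - v i)

theorem Dl_add {m n : ℕ} (v : Fin (m + n) → ℂ) :
    Dl v = Dl (fun i => v (Fin.castAdd n i)) *
      (∏ i : Fin m, ∏ j : Fin n, (v (Fin.natAdd m j) - v (Fin.castAdd n i))) *
      Dl (fun i => v (Fin.natAdd m i)) := by
  have h1 : ∀ {N : ℕ} (i : Fin N) (f : Fin N → ℂ), ∏ j ∈ Ioi i, f j =
      ∏ j, if i < j then f j else 1 := by
    intro N i f
    rw [← Finset.prod_filter]
    congr 1
    ext j
    simp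
  unfold Dl
  simp only [h1]
  rw [Fin.prod_univ_add]
  simp only [Fin.prod_univ_add]
  have h2 : ∀ (i : Fin m) (j : Fin n), Fin.castAdd n i < Fin.natAdd m j := by
    intro i j
    rw [Fin.lt_def]
    simp only [Fin.val_castAdd, Fin.val_natAdd]
    have := i.2
    omega
  have h3 : ∀ (i : Fin m) (j : Fin n), ¬ Fin.natAdd m j < Fin.castAdd n i := by
    intro i j h
    exact absurd (h2 i j) (lt_asymm h)
  have h4 : ∀ (i j : Fin m), Fin.castAdd n i < Fin.castAdd n j ↔ i < j := fun i j => Iff.rfl
  have h5 : ∀ (i j : Fin n), Fin.natAdd m i < Fin.natAdd m j ↔ i < j := by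
    intro i j
    rw [Fin.lt_def, Fin.lt_def]
    simp
  simp only [h2, h3, h4, h5, if_true, if_false, Finset.prod_const_one, one_mul,
    Finset.prod_mul_distrib]

theorem VV_split (t : Option (Fin k × Bool) → ℂ) :
    VV t = (∏ l, (t (some (l, false)) - t none)) * (∏ l, (t (some (l, true)) - t none)) *
      (Dl (fun l => t (some (l, false))) *
        (∏ i, ∏ j, (t (some (j, true)) - t (some (i, false)))) *
        Dl (fun l => t (some (l, true)))) := by
  rw [VV_eq, Matrix.det_vandermonde, Fin.prod_univ_succ, Fin.prod_Ioi_zero]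
  simp only [Fin.prod_Ioi_succ, en_zero]
  congr 1
  · rw [Fin.prod_univ_add]
    simp only [en_castAdd, en_natAdd]
  · have h1 := Dl_add (fun j : Fin (k + k) => t (en k j.succ))
    simp only [en_castAdd, en_natAdd] at h1
    exact h1

/-! ### Reduction to the Vandermonde determinant -/

open Polynomial in
/-- The polynomials in the expansion. -/
noncomputable def PPo (f g : ℂ[X]) (c : Fin k → Fin (k + 1)) : Option (Fin k × Bool) → ℂ[X]
  | none => g * f
  | some (l, false) => g * X ^ ((c l : ℕ))
  | some (l, true) => C ((k.choose (c l : ℕ) : ℕ) : ℂ) * (-X) ^ (k - (c l : ℕ)) * f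

open Polynomial in
theorem natDegree_PPo (f g : ℂ[X]) (hf : f.natDegree ≤ k) (hg : g.natDegree ≤ k)
    (c : Fin k → Fin (k + 1)) (j : Option (Fin k × Bool)) : (PPo f g c j).natDegree < 2 * k + 1 := by
  rcases j with _ | ⟨l, _ | _⟩
  · have := natDegree_mul_le (p := g) (q := f)
    change (g * f).natDegree < 2 * k + 1
    omega
  · have h1 := natDegree_mul_le (p := g) (q := X ^ ((c l : ℕ)))
    rw [natDegree_X_pow] at h1
    have h2 := (c l).2
    change (g * X ^ ((c l : ℕ))).natDegree < 2 * k + 1
    omega
  · have h1 := natDegree_mul_le (p := C ((k.choose (c l : ℕ) : ℕ) : ℂ) * (-X) ^ (k - (c l : ℕ)))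
      (q := f)
    have h2 := natDegree_C_mul_le ((k.choose (c l : ℕ) : ℕ) : ℂ) ((-X : ℂ[X]) ^ (k - (c l : ℕ)))
    have h3 := natDegree_pow_le (p := (-X : ℂ[X])) (n := k - (c l : ℕ))
    rw [natDegree_neg, natDegree_X, mul_one] at h3
    change (C ((k.choose (c l : ℕ) : ℕ) : ℂ) * (-X) ^ (k - (c l : ℕ)) * f).natDegree < 2 * k + 1
    omega

open Polynomial in
theorem Om_eq (f g : ℂ[X]) (hf : f.natDegree ≤ k) (hg : g.natDegree ≤ k) :
    ∃ CC : ℂ, ∀ t : Option (Fin k × Bool) → ℂ,
      Om (fun x => f.eval x) (fun x => g.eval x) t = CC * VV t := by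
  refine ⟨∑ c : Fin k → Fin (k + 1),
    Matrix.det (Matrix.of fun m j : Option (Fin k × Bool) => (PPo f g c j).coeff (ex m)),
    fun t => ?_⟩
  have h1 : ∀ x y : ℂ, g.eval x * (x - y) ^ k * f.eval y = ∑ c : Fin (k + 1),
      (g.eval x * x ^ (c : ℕ)) * (((k.choose (c : ℕ) : ℕ) : ℂ) * (-y) ^ (k - (c : ℕ)) *
        f.eval y) := by
    intro x y
    rw [sub_eq_add_neg, add_pow, Finset.mul_sum, Finset.sum_mul]
    rw [Fin.sum_univ_eq_sum_range (fun c : ℕ => (g.eval x * x ^ c) * (((k.choose c : ℕ) : ℂ) *
      (-y) ^ (k - c) * f.eval y)) (k + 1)]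
    refine Finset.sum_congr rfl fun c _ => ?_
    ring
  have h2 : Om (fun x => f.eval x) (fun x => g.eval x) t = ∑ c : Fin k → Fin (k + 1),
      Matrix.det (Matrix.of fun i j : Option (Fin k × Bool) => (PPo f g c j).eval (t i)) := by
    unfold Om
    simp only [h1]
    simp only [Matrix.det_apply', Matrix.of_apply]
    rw [Finset.sum_comm]
    refine Finset.sum_congr rfl fun σ _ => ?_
    rw [Finset.prod_univ_sum, Fintype.piFinset_univ, Finset.mul_sum, Finset.mul_sum]
    refine Finset.sum_congr rfl fun c _ => ?_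
    congr 1
    rw [Fintype.prod_option, Fintype.prod_prod_type]
    congr 1
    · simp [PPo]
    · refine Finset.prod_congr rfl fun l _ => ?_
      rw [Fintype.prod_bool, mul_comm]
      simp [PPo]
  rw [h2, Finset.sum_mul]
  refine Finset.sum_congr rfl fun c _ => ?_
  unfold VV
  rw [mul_comm, ← Matrix.det_mul]
  congr 1
  ext i j
  rw [Matrix.mul_apply]
  simp only [Matrix.of_apply]
  rw [eval_eq_sum_range' (natDegree_PPo f g hf hg c j)]
  rw [← Equiv.sum_comp (en k)]
  simp only [ex_en]
  rw [Fin.sum_univ_eq_sum_range (fun m : ℕ => t i ^ m * (PPo f g c j).coeff m) (k + k + 1)]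
  rw [two_mul]
  refine Finset.sum_congr rfl fun m _ => ?_
  ring

/-! ### Evaluation at the roots -/

/-- The permutations preserving the two kinds of letters. -/
def blk (α β : Perm (Fin k)) : Perm (Option (Fin k × Bool)) :=
  (Equiv.prodCongrLeft (fun b : Bool => if b then β else α)).optionCongr

theorem blk_none (α β : Perm (Fin k)) : blk α β none = none := rfl

theorem blk_false (α β : Perm (Fin k)) (l : Fin k) :
    blk α β (some (l, false)) = some (α l, false) := rfl

theorem blk_true (α β : Perm (Fin k)) (l : Fin k) :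
    blk α β (some (l, true)) = some (β l, true) := rfl

theorem sign_blk (α β : Perm (Fin k)) : Perm.sign (blk α β) = Perm.sign α * Perm.sign β := by
  unfold blk
  rw [Equiv.optionCongr_sign, Perm.sign_prodCongrLeft, Fintype.prod_bool, mul_comm]
  rfl

theorem blk_injective : Function.Injective (fun p : Perm (Fin k) × Perm (Fin k) => blk p.1 p.2) := by
  rintro ⟨α, β⟩ ⟨α', β'⟩ h
  simp only at h
  refine Prod.ext ?_ ?_
  · ext l
    have h1 := congrArg (fun σ : Perm (Option (Fin k × Bool)) => σ (some (l, false))) h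
    simp only [blk_false, Option.some.injEq, Prod.mk.injEq, and_true] at h1
    simp [h1]
  · ext l
    have h1 := congrArg (fun σ : Perm (Option (Fin k × Bool)) => σ (some (l, true))) h
    simp only [blk_true, Option.some.injEq, Prod.mk.injEq, and_true] at h1
    simp [h1]

theorem exists_blk (σ : Perm (Option (Fin k × Bool))) (h0 : σ none = none)
    (h1 : ∀ l l', σ (some (l, false)) ≠ some (l', true))
    (h2 : ∀ l l', σ (some (l, true)) ≠ some (l', false)) :
    ∃ p : Perm (Fin k) × Perm (Fin k), blk p.1 p.2 = σ := by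
  have ha : ∀ l, ∃ l', σ (some (l, false)) = some (l', false) := by
    intro l
    rcases hσ : σ (some (l, false)) with _ | ⟨l', _ | _⟩
    · exact absurd (σ.injective (hσ.trans h0.symm)) (by simp)
    · exact ⟨l', rfl⟩
    · exact absurd hσ (h1 l l')
  have hb : ∀ l, ∃ l', σ (some (l, true)) = some (l', true) := by
    intro l
    rcases hσ : σ (some (l, true)) with _ | ⟨l', _ | _⟩
    · exact absurd (σ.injective (hσ.trans h0.symm)) (by simp)
    · exact absurd hσ (h2 l l')
    · exact ⟨l', rfl⟩
  choose a ha using ha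
  choose b hb using hb
  have hai : Function.Injective a := by
    intro l l' hll
    have h3 := ha l
    rw [hll, ← ha l'] at h3
    simpa using σ.injective h3
  have hbi : Function.Injective b := by
    intro l l' hll
    have h3 := hb l
    rw [hll, ← hb l'] at h3
    simpa using σ.injective h3
  refine ⟨(Equiv.ofBijective a (Finite.injective_iff_bijective.1 hai),
    Equiv.ofBijective b (Finite.injective_iff_bijective.1 hbi)), ?_⟩
  apply Equiv.ext
  rintro (_ | ⟨l, _ | _⟩)
  · rw [h0]
    rfl
  · rw [ha, blk_false]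
    rfl
  · rw [hb, blk_true]
    rfl

theorem Om_special (f g : ℂ → ℂ) (t : Option (Fin k × Bool) → ℂ)
    (hf : ∀ l, f (t (some (l, false))) = 0) (hg : ∀ l, g (t (some (l, true))) = 0) :
    Om f g t = (k.factorial : ℂ) * (g (t none) * f (t none)) *
      ((∏ l, g (t (some (l, false)))) * ∏ l, f (t (some (l, true)))) *
      Matrix.det (Matrix.of fun i j : Fin k => (t (some (i, false)) - t (some (j, true))) ^ k) := by
  unfold Om
  rw [← Fintype.sum_of_injective (fun p : Perm (Fin k) × Perm (Fin k) => blk p.1 p.2) blk_injective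
    (fun p => ((Perm.sign (blk p.1 p.2) : ℤ) : ℂ) * (g (t none) * f (t none) *
      ∏ l : Fin k, (g (t (some (p.1 l, false))) *
        (t (some (p.1 l, false)) - t (some (p.2 l, true))) ^ k * f (t (some (p.2 l, true))))))]
  · rw [Fintype.sum_prod_type_right]
    have h1 : ∀ β : Perm (Fin k), ∑ α : Perm (Fin k), ((Perm.sign (blk α β) : ℤ) : ℂ) *
        (g (t none) * f (t none) * ∏ l : Fin k, (g (t (some (α l, false))) *
        (t (some (α l, false)) - t (some (β l, true))) ^ k * f (t (some (β l, true))))) =
        (g (t none) * f (t none)) *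
      ((∏ l, g (t (some (l, false)))) * ∏ l, f (t (some (l, true)))) *
      Matrix.det (Matrix.of fun i j : Fin k => (t (some (i, false)) - t (some (j, true))) ^ k) := by
      intro β
      rw [Matrix.det_apply', Finset.mul_sum]
      refine Fintype.sum_equiv (Equiv.mulRight β⁻¹) _ _ fun α => ?_
      rw [sign_blk, Equiv.coe_mulRight, Perm.sign_mul, Perm.sign_inv, Finset.prod_mul_distrib,
        Finset.prod_mul_distrib, Equiv.prod_comp α (fun l => g (t (some (l, false)))),
        Equiv.prod_comp β (fun l => f (t (some (l, true))))]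
      have h2 : ∏ l : Fin k, (t (some (α l, false)) - t (some (β l, true))) ^ k =
          ∏ i : Fin k, (Matrix.of fun i j : Fin k =>
            (t (some (i, false)) - t (some (j, true))) ^ k) ((α * β⁻¹) i) i := by
        rw [← Equiv.prod_comp β (fun i => (Matrix.of fun i j : Fin k =>
            (t (some (i, false)) - t (some (j, true))) ^ k) ((α * β⁻¹) i) i)]
        refine Finset.prod_congr rfl fun l _ => ?_
        simp
      rw [h2]
      ring
    rw [Finset.sum_congr rfl (fun β _ => h1 β), Finset.sum_const, Finset.card_univ,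
      Fintype.card_perm, Fintype.card_fin, nsmul_eq_mul]
    ring
  · intro σ hσ
    by_cases hn : σ none = none
    · by_cases hA : ∃ l l', σ (some (l, false)) = some (l', true)
      · obtain ⟨l, l', hl⟩ := hA
        rw [Finset.prod_eq_zero (Finset.mem_univ l)]
        · ring
        · rw [hl, hg]
          ring
      · by_cases hB : ∃ l l', σ (some (l, true)) = some (l', false)
        · obtain ⟨l, l', hl⟩ := hB
          rw [Finset.prod_eq_zero (Finset.mem_univ l)]
          · ring
          · rw [hl, hf]
            ring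
        · exfalso
          push Not at hA hB
          exact hσ (exists_blk σ hn hA hB)
    · rcases hσn : σ none with _ | ⟨l, _ | _⟩
      · exact absurd hσn hn
      · rw [hf]
        ring
      · rw [hg]
        ring
  · intro p
    rfl

end Run7.h539
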