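import Mathlib
import Pool.Agent.Run7.h539.Om

/-!
# Positivity
-/

set_option autoImplicit false
set_option linter.unusedSectionVars false

namespace Run7.h539

open Equiv Finset
open scoped ComplexConjugate

variable {k : ℕ}

/-- The function with given leading coefficient and roots. -/
def ff (w : ℂ) (r : Fin k → ℂ) (x : ℂ) : ℂ := w * ∏ l, (x - r l)

/-- The antipodal function. -/
def gg (w : ℂ) (r : Fin k → ℂ) (x : ℂ) : ℂ := conj w * ∏ l, (1 + conj (r l) * x)

theorem Om_ff (w : ℂ) (r : Fin k → ℂ) :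
    ∃ CC : ℂ, ∀ t : Option (Fin k × Bool) → ℂ, Om (ff w r) (gg w r) t = CC * VV t := by
  have hF : (Polynomial.C w * ∏ l, (Polynomial.X - Polynomial.C (r l))).natDegree ≤ k := by
    refine (Polynomial.natDegree_C_mul_le _ _).trans ((Polynomial.natDegree_prod_le _ _).trans ?_)
    simp
  have hG : (Polynomial.C (conj w) *
      ∏ l, (1 + Polynomial.C (conj (r l)) * Polynomial.X)).natDegree ≤ k := by
    refine (Polynomial.natDegree_C_mul_le _ _).trans ((Polynomial.natDegree_prod_le _ _).trans ?_)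
    refine (Finset.sum_le_card_nsmul _ _ 1 fun l _ => ?_).trans (by simp)
    refine (Polynomial.natDegree_add_le _ _).trans (max_le (by simp) ?_)
    exact (Polynomial.natDegree_C_mul_le _ _).trans Polynomial.natDegree_X_le
  obtain ⟨CC, h⟩ := Om_eq (k := k) _ _ hF hG
  refine ⟨CC, fun t => ?_⟩
  rw [← h]
  congr 1
  · funext x
    simp [ff, Polynomial.eval_prod]
  · funext x
    simp [gg, Polynomial.eval_prod]

theorem prod_pairs : ∀ {m : ℕ} (ρ : Fin m → ℂ),
    (∏ i : Fin m, ∏ j ∈ Ioi i, (ρ i * ρ j)) * ∏ i, ρ i = (∏ i, ρ i) ^ m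
  | 0, ρ => by simp
  | m + 1, ρ => by
    have ih := prod_pairs (fun i : Fin m => ρ i.succ)
    rw [Fin.prod_univ_succ, Fin.prod_univ_succ, Fin.prod_Ioi_zero]
    simp only [Fin.prod_Ioi_succ]
    rw [Finset.prod_mul_distrib, Finset.prod_const, Finset.card_univ, Fintype.card_fin, mul_pow,
      pow_succ (∏ i : Fin m, ρ i.succ), ← ih]
    ring

theorem main_identity (w : ℂ) (r : Fin k → ℂ) (hr0 : ∀ l, r l ≠ 0)
    (hr1 : ∀ i j, 1 + r i * conj (r j) ≠ 0) (CC : ℂ)
    (hCC : ∀ t : Option (Fin k × Bool) → ℂ, Om (ff w r) (gg w r) t = CC * VV t) :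
    CC * (Dl r * conj (Dl r)) = (k.factorial : ℂ) * (w * conj w) ^ (k + 1) *
      (∏ i, ∏ j, (1 + r i * conj (r j))) *
      Matrix.det (Matrix.of fun i j : Fin k => (1 + r i * conj (r j)) ^ k) := by
  classical
  let ρ : Fin k → ℂ := fun l => conj (r l)
  let q : Fin k → ℂ := fun l => -(ρ l)⁻¹
  have hρ0 : ∀ l, ρ l ≠ 0 := fun l => by
    simp only [ρ]
    rw [Ne, map_eq_zero]
    exact hr0 l
  have hq : ∀ l x, 1 + ρ l * x = ρ l * (x - q l) := by
    intro l x
    simp only [q]
    have := hρ0 l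
    field_simp
    ring
  obtain ⟨t0, ht0⟩ := Infinite.exists_notMem_finset
    (Finset.univ.image r ∪ Finset.univ.image q)
  have ht1 : ∀ l, r l - t0 ≠ 0 := by
    intro l h
    apply ht0
    rw [Finset.mem_union]
    left
    rw [Finset.mem_image]
    exact ⟨l, Finset.mem_univ _, by linear_combination h⟩
  have ht2 : ∀ l, q l - t0 ≠ 0 := by
    intro l h
    apply ht0
    rw [Finset.mem_union]
    right
    rw [Finset.mem_image]
    exact ⟨l, Finset.mem_univ _, by linear_combination h⟩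
  let t : Option (Fin k × Bool) → ℂ := fun x => Option.elim x t0
    (fun p => if p.2 then q p.1 else r p.1)
  have hf : ∀ l, ff w r (t (some (l, false))) = 0 := by
    intro l
    change w * ∏ l', (r l - r l') = 0
    rw [Finset.prod_eq_zero (Finset.mem_univ l) (sub_self _), mul_zero]
  have hg : ∀ l, gg w r (t (some (l, true))) = 0 := by
    intro l
    change conj w * ∏ l', (1 + ρ l' * q l) = 0
    rw [Finset.prod_eq_zero (Finset.mem_univ l), mul_zero]
    rw [hq, sub_self, mul_zero]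
  have h1 := hCC t
  rw [Om_special _ _ t hf hg, VV_split] at h1
  have e0 : t none = t0 := rfl
  have e1 : ∀ l, t (some (l, false)) = r l := fun l => rfl
  have e2 : ∀ l, t (some (l, true)) = q l := fun l => rfl
  simp only [e0, e1, e2] at h1
  -- the pieces
  set T1 := ∏ l, (r l - t0) with hT1
  set T2 := ∏ l, (q l - t0) with hT2
  set A := ∏ i, ∏ j, (q j - r i) with hA
  set B := ∏ i, ∏ j, (1 + r i * conj (r j)) with hB
  set R := ∏ l, ρ l with hR
  set D := Matrix.det (Matrix.of fun i j : Fin k => (r i - q j) ^ k) with hD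
  set G0 := Matrix.det (Matrix.of fun i j : Fin k => (1 + r i * conj (r j)) ^ k) with hG0
  have hT1' : T1 ≠ 0 := Finset.prod_ne_zero_iff.2 fun l _ => ht1 l
  have hT2' : T2 ≠ 0 := Finset.prod_ne_zero_iff.2 fun l _ => ht2 l
  have hR' : R ≠ 0 := Finset.prod_ne_zero_iff.2 fun l _ => hρ0 l
  have hA' : A ≠ 0 := by
    refine Finset.prod_ne_zero_iff.2 fun i _ => Finset.prod_ne_zero_iff.2 fun j _ => ?_
    intro h
    apply hr1 i j
    have h2 := hq j (r i)
    have h3 : r i - q j = 0 := by linear_combination -h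
    rw [h3, mul_zero] at h2
    rw [mul_comm (r i)]
    exact h2
  have hff : ff w r t0 = w * ((-1) ^ k * T1) := by
    unfold ff
    rw [hT1]
    congr 1
    have h2 : ∀ l, t0 - r l = (-1) * (r l - t0) := fun l => by ring
    rw [Finset.prod_congr rfl (fun l _ => h2 l), Finset.prod_mul_distrib, Finset.prod_const,
      Finset.card_univ, Fintype.card_fin]
  have hgg : gg w r t0 = conj w * (R * ((-1) ^ k * T2)) := by
    unfold gg
    rw [hT2]
    congr 1
    have h2 : ∀ l, 1 + conj (r l) * t0 = ρ l * ((-1) * (q l - t0)) := fun l => by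
      have h3 := hq l t0
      rw [h3]
      ring
    rw [Finset.prod_congr rfl (fun l _ => h2 l), Finset.prod_mul_distrib,
      Finset.prod_mul_distrib, Finset.prod_const, Finset.card_univ, Fintype.card_fin]
  have hgr : ∏ l, gg w r (r l) = (conj w) ^ k * B := by
    unfold gg
    rw [Finset.prod_mul_distrib, Finset.prod_const, Finset.card_univ, Fintype.card_fin, hB]
    congr 1
    refine Finset.prod_congr rfl fun i _ => Finset.prod_congr rfl fun j _ => ?_
    ring
  have hfq : ∏ l, ff w r (q l) = w ^ k * A := by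
    unfold ff
    rw [Finset.prod_mul_distrib, Finset.prod_const, Finset.card_univ, Fintype.card_fin, hA]
    congr 1
    rw [Finset.prod_comm]
  have hDR : D * R ^ k = G0 := by
    have h2 : (Matrix.of fun i j : Fin k => (1 + r i * conj (r j)) ^ k) =
        Matrix.of fun i j : Fin k => (ρ j ^ k) *
          (Matrix.of fun i j : Fin k => (r i - q j) ^ k) i j := by
      ext i j
      simp only [Matrix.of_apply]
      rw [← mul_pow, ← hq, mul_comm (r i)]
    rw [hG0, h2, Matrix.det_mul_row, Finset.prod_pow, mul_comm]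
  have hE := prod_pairs ρ
  set E := ∏ i : Fin k, ∏ j ∈ Ioi i, (ρ i * ρ j) with hEdef
  have hDq : Dl q * E = conj (Dl r) := by
    unfold Dl
    rw [hEdef, ← Finset.prod_mul_distrib, map_prod]
    refine Finset.prod_congr rfl fun i _ => ?_
    rw [← Finset.prod_mul_distrib, map_prod]
    refine Finset.prod_congr rfl fun j _ => ?_
    simp only [q, map_sub]
    have h2 := hρ0 i
    have h3 := hρ0 j
    field_simp
    simp only [ρ]
    ring
  rw [hff, hgg, hgr, hfq] at h1
  have hsq : ((-1 : ℂ) ^ k) * (-1) ^ k = 1 := by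
    rw [← mul_pow]
    simp
  -- cancel
  have h2 : (T1 * T2 * A) * (CC * (Dl r * Dl q)) =
      (T1 * T2 * A) * ((k.factorial : ℂ) * (w * conj w) ^ (k + 1) * R * B * D) := by
    have h3 : (k.factorial : ℂ) * (conj w * (R * ((-1) ^ k * T2)) * (w * ((-1) ^ k * T1))) *
        ((conj w) ^ k * B * (w ^ k * A)) * D =
        (((-1 : ℂ) ^ k) * (-1) ^ k) * ((T1 * T2 * A) *
          ((k.factorial : ℂ) * (w * conj w) ^ (k + 1) * R * B * D)) := by
      rw [mul_pow]
      ring
    rw [hsq, one_mul] at h3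
    rw [← h3, h1]
    ring
  have h3 := mul_left_cancel₀ (mul_ne_zero (mul_ne_zero hT1' hT2') hA') h2
  have h4 : R * (CC * (Dl r * conj (Dl r))) = R * ((k.factorial : ℂ) * (w * conj w) ^ (k + 1) *
      B * G0) := by
    rw [← hDq, ← hDR, ← hE]
    linear_combination (E * R) * h3
  exact mul_left_cancel₀ hR' h4

/-! ### Signs -/

/-- Nonnegative real numbers inside the complex numbers. -/
def Nn (z : ℂ) : Prop := 0 ≤ z.re ∧ z.im = 0

theorem Nn.mul {a b : ℂ} (ha : Nn a) (hb : Nn b) : Nn (a * b) := by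
  unfold Nn at *
  rw [Complex.mul_re, Complex.mul_im, ha.2, hb.2]
  refine ⟨?_, by ring⟩
  have := mul_nonneg ha.1 hb.1
  linarith

theorem Nn.pow {a : ℂ} (ha : Nn a) (m : ℕ) : Nn (a ^ m) := by
  induction m with
  | zero => simp [Nn]
  | succ m ih =>
    rw [pow_succ]
    exact ih.mul ha

theorem Nn.natCast (m : ℕ) : Nn (m : ℂ) := by
  simp [Nn]

theorem Nn.mul_conj (z : ℂ) : Nn (z * conj z) := by
  rw [Complex.mul_conj]
  unfold Nn
  rw [Complex.ofReal_re, Complex.ofReal_im]
  exact ⟨Complex.normSq_nonneg z, rfl⟩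

theorem Nn.of_mul {a b : ℂ} (hab : Nn (a * b)) (hb : Nn b) (hb0 : b ≠ 0) : Nn a := by
  unfold Nn at *
  obtain ⟨h1, h2⟩ := hab
  obtain ⟨h3, h4⟩ := hb
  rw [Complex.mul_re, h4, mul_zero, sub_zero] at h1
  rw [Complex.mul_im, h4, mul_zero, zero_add] at h2
  have h5 : b.re ≠ 0 := by
    intro h
    apply hb0
    exact Complex.ext h h4
  have h6 : 0 < b.re := lt_of_le_of_ne h3 (Ne.symm h5)
  refine ⟨?_, ?_⟩
  · by_contra hc
    push Not at hc
    nlinarith
  · rcases mul_eq_zero.1 h2 with h | h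
    · exact h
    · exact absurd h h5

theorem isClosed_Nn : IsClosed {z : ℂ | Nn z} := by
  have h1 : {z : ℂ | Nn z} = {z : ℂ | 0 ≤ z.re} ∩ {z : ℂ | z.im = 0} := rfl
  rw [h1]
  exact (isClosed_le continuous_const Complex.continuous_re).inter
    (isClosed_eq Complex.continuous_im continuous_const)

theorem Nn_prod : ∀ {m : ℕ} (r : Fin m → ℂ), Nn (∏ i, ∏ j, (1 + r i * conj (r j)))
  | 0, r => by simp [Nn]
  | m + 1, r => by
    have ih := Nn_prod (fun i : Fin m => r i.succ)
    rw [Fin.prod_univ_succ]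
    have h1 : ∀ i : Fin m, ∏ j, (1 + r i.succ * conj (r j)) =
        (1 + r i.succ * conj (r 0)) * ∏ j : Fin m, (1 + r i.succ * conj (r j.succ)) := by
      intro i
      rw [Fin.prod_univ_succ]
    rw [Finset.prod_congr rfl (fun i _ => h1 i), Finset.prod_mul_distrib, Fin.prod_univ_succ]
    have h2 : ∏ i : Fin m, (1 + r i.succ * conj (r 0)) =
        conj (∏ i : Fin m, (1 + r 0 * conj (r i.succ))) := by
      rw [map_prod]
      refine Finset.prod_congr rfl fun i _ => ?_
      simp
      ring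
    rw [h2]
    have h3 : Nn (1 + r 0 * conj (r 0)) := by
      have h4 := Nn.mul_conj (r 0)
      unfold Nn at *
      rw [Complex.add_re, Complex.add_im, h4.2]
      refine ⟨?_, by simp⟩
      have := h4.1
      simp only [Complex.one_re]
      linarith
    have h4 := (h3.mul (Nn.mul_conj (∏ i : Fin m, (1 + r 0 * conj (r i.succ))))).mul ih
    convert h4 using 1
    ring

/-- The Gram factor. -/
noncomputable def Ug (r : Fin k → ℂ) : Matrix (Fin k) (Fin (k + 1)) ℂ :=
  fun i a => (Real.sqrt (k.choose (a : ℕ)) : ℂ) * r i ^ (a : ℕ)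

theorem Ug_mul (r : Fin k → ℂ) : Ug r * (Ug r).conjTranspose =
    Matrix.of fun i j : Fin k => (1 + r i * conj (r j)) ^ k := by
  ext i j
  have h0 : (1 + r i * conj (r j)) ^ k = ∑ a : Fin (k + 1),
      (r i * conj (r j)) ^ (a : ℕ) * ((k.choose (a : ℕ) : ℕ) : ℂ) := by
    rw [Fin.sum_univ_eq_sum_range (fun a => (r i * conj (r j)) ^ a *
      ((k.choose a : ℕ) : ℂ)) (k + 1), add_comm, add_pow]
    refine Finset.sum_congr rfl fun a _ => ?_
    rw [one_pow, mul_one]
  rw [Matrix.mul_apply, Matrix.of_apply, h0]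
  refine Finset.sum_congr rfl fun a _ => ?_
  rw [Matrix.conjTranspose_apply]
  unfold Ug
  have h1 : ((Real.sqrt (k.choose (a : ℕ)) : ℝ) : ℂ) * ((Real.sqrt (k.choose (a : ℕ)) : ℝ) : ℂ) =
      ((k.choose (a : ℕ) : ℕ) : ℂ) := by
    rw [← Complex.ofReal_mul, Real.mul_self_sqrt (Nat.cast_nonneg _)]
    simp
  have h2 : star (((Real.sqrt (k.choose (a : ℕ)) : ℝ) : ℂ) * r j ^ (a : ℕ)) =
      ((Real.sqrt (k.choose (a : ℕ)) : ℝ) : ℂ) * (conj (r j)) ^ (a : ℕ) := by
    change conj (((Real.sqrt (k.choose (a : ℕ)) : ℝ) : ℂ) * r j ^ (a : ℕ)) = _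
    rw [map_mul, map_pow, Complex.conj_ofReal]
  rw [h2, mul_pow, ← h1]
  ring

open scoped ComplexOrder in
theorem Nn_gram (r : Fin k → ℂ) :
    Nn (Matrix.det (Matrix.of fun i j : Fin k => (1 + r i * conj (r j)) ^ k)) := by
  rw [← Ug_mul]
  have h1 := (Matrix.posSemidef_self_mul_conjTranspose (Ug r)).det_nonneg
  rw [Complex.le_def] at h1
  exact ⟨h1.1, h1.2.symm⟩

open scoped ComplexOrder in
theorem gram_ne_zero (r : Fin k → ℂ) (hr : Function.Injective r) :
    Matrix.det (Matrix.of fun i j : Fin k => (1 + r i * conj (r j)) ^ k) ≠ 0 := by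
  rw [← Ug_mul]
  have h1 : Function.Injective (Ug r).vecMul := by
    intro x y hxy
    have h2 : (x - y) = 0 := by
      refine Matrix.eq_zero_of_forall_pow_sum_mul_pow_eq_zero hr fun a => ?_
      have h3 := congrFun hxy a.castSucc
      have h4 : ∑ i, (x i - y i) * Ug r i a.castSucc = 0 := by
        simp only [sub_mul]
        rw [Finset.sum_sub_distrib, sub_eq_zero]
        exact h3
      have h5 : ((Real.sqrt (k.choose (a : ℕ)) : ℝ) : ℂ) ≠ 0 := by
        rw [Complex.ofReal_ne_zero, Real.sqrt_ne_zero (Nat.cast_nonneg _), Nat.cast_ne_zero]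
        exact (Nat.choose_pos a.2.le).ne'
      have h6 : ((Real.sqrt (k.choose (a : ℕ)) : ℝ) : ℂ) * ∑ j, (x - y) j * r j ^ (a : ℕ) = 0 := by
        rw [← h4, Finset.mul_sum]
        refine Finset.sum_congr rfl fun i _ => ?_
        unfold Ug
        simp only [Pi.sub_apply, Fin.val_castSucc]
        ring
      exact (mul_eq_zero.1 h6).resolve_left h5
    exact sub_eq_zero.1 h2
  exact (Matrix.PosDef.mul_conjTranspose_self _ h1).det_pos.ne'

end Run7.h539
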