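import Mathlib
import Pool.Agent.Run7.h539.Pos

/-!
# Positivity, continued
-/

set_option autoImplicit false
set_option linter.unusedSectionVars false

namespace Run7.h539

open Equiv Finset Filter Topology
open scoped ComplexConjugate

variable {k : ℕ}

theorem continuous_Om {X : Type*} [TopologicalSpace X] (F G : X → ℂ → ℂ)
    (hF : ∀ x, Continuous (fun a => F a x)) (hG : ∀ x, Continuous (fun a => G a x))
    (t : Option (Fin k × Bool) → ℂ) : Continuous (fun a => Om (F a) (G a) t) := by
  unfold Om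
  refine continuous_finsetSum _ fun σ _ => ?_
  refine continuous_const.mul (((hG _).mul (hF _)).mul ?_)
  refine continuous_finsetProd _ fun l _ => ?_
  exact ((hG _).mul continuous_const).mul (hF _)

/-- The evaluation point. -/
def tst (k : ℕ) : Option (Fin k × Bool) → ℂ := fun x => (ex x : ℂ)

theorem VV_tst : VV (tst k) ≠ 0 := by
  rw [VV_eq]
  unfold tst
  simp only [ex_en]
  rw [Matrix.det_vandermonde_ne_zero_iff]
  intro i j hij
  simp only [Nat.cast_inj] at hij
  exact Fin.ext hij

theorem Dl_ne_zero {m : ℕ} (r : Fin m → ℂ) (hr : Function.Injective r) : Dl r ≠ 0 := by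
  unfold Dl
  rw [← Matrix.det_vandermonde]
  exact Matrix.det_vandermonde_ne_zero_iff.2 hr

/-- The normalised value. -/
noncomputable def HH (w : ℂ) (r : Fin k → ℂ) : ℂ := Om (ff w r) (gg w r) (tst k) / VV (tst k)

theorem HH_generic (w : ℂ) (r : Fin k → ℂ) (hr0 : ∀ l, r l ≠ 0)
    (hr1 : ∀ i j, 1 + r i * conj (r j) ≠ 0) (hr : Function.Injective r) :
    Nn (HH w r) ∧ (w ≠ 0 → HH w r ≠ 0) := by
  obtain ⟨CC, hCC⟩ := Om_ff w r
  have h1 := main_identity w r hr0 hr1 CC hCC
  have h2 : HH w r = CC := by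
    unfold HH
    rw [hCC, mul_div_assoc, div_self VV_tst, mul_one]
  rw [h2]
  have h3 : Nn (CC * (Dl r * conj (Dl r))) := by
    rw [h1]
    exact (((Nn.natCast _).mul ((Nn.mul_conj w).pow _)).mul (Nn_prod r)).mul (Nn_gram r)
  have h4 : Dl r * conj (Dl r) ≠ 0 := by
    refine mul_ne_zero (Dl_ne_zero r hr) ?_
    rw [Ne, map_eq_zero]
    exact Dl_ne_zero r hr
  refine ⟨h3.of_mul (Nn.mul_conj _) h4, fun hw h0 => ?_⟩
  rw [h0, zero_mul] at h1
  have h5 : w * conj w ≠ 0 := by
    refine mul_ne_zero hw ?_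
    rw [Ne, map_eq_zero]
    exact hw
  refine mul_ne_zero (mul_ne_zero (mul_ne_zero ?_ (pow_ne_zero _ h5)) ?_) (gram_ne_zero r hr) h1.symm
  · exact_mod_cast Nat.factorial_ne_zero k
  · exact Finset.prod_ne_zero_iff.2 fun i _ => Finset.prod_ne_zero_iff.2 fun j _ => hr1 i j

theorem eventually_ne (p : Polynomial ℂ) (hp : p ≠ 0) :
    ∀ᶠ ε : ℝ in 𝓝[≠] 0, p.eval (ε : ℂ) ≠ 0 := by
  have hfin : {ε : ℝ | p.eval (ε : ℂ) = 0}.Finite := by
    have h1 : {ε : ℝ | p.eval (ε : ℂ) = 0} = (fun ε : ℝ => (ε : ℂ)) ⁻¹' (p.rootSet ℂ) := by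
      ext ε
      simp [Polynomial.mem_rootSet, hp]
    rw [h1]
    exact (Polynomial.rootSet_finite p ℂ).preimage (fun a _ b _ h => Complex.ofReal_injective h)
  have h3 : ({ε : ℝ | p.eval (ε : ℂ) = 0} \ {0})ᶜ ∈ 𝓝 (0 : ℝ) := by
    refine IsOpen.mem_nhds (hfin.subset Set.sdiff_subset).isClosed.isOpen_compl ?_
    simp
  rw [eventually_nhdsWithin_iff]
  filter_upwards [h3] with ε hε hne h0
  exact hε ⟨h0, hne⟩

theorem HH_nonneg (w : ℂ) (r : Fin k → ℂ) : Nn (HH w r) := by
  let R : ℝ → Fin k → ℂ := fun ε l => r l + (ε : ℂ) * ((l : ℕ) + 1 : ℂ)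
  have hc : ∀ l : Fin k, (((l : ℕ) : ℂ) + 1) ≠ 0 := fun l => Nat.cast_add_one_ne_zero (l : ℕ)
  have hcont : Continuous (fun ε : ℝ => HH w (R ε)) := by
    unfold HH
    refine Continuous.div_const ?_ _
    refine continuous_Om _ _ (fun x => ?_) (fun x => ?_) _
    · unfold ff
      simp only [R]
      fun_prop
    · unfold gg
      simp only [R]
      refine continuous_const.mul (continuous_finsetProd _ fun l _ => ?_)
      refine continuous_const.add (Continuous.mul ?_ continuous_const)
      exact Complex.continuous_conj.comp (by fun_prop)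
  have h1 : ∀ᶠ ε : ℝ in 𝓝[≠] 0, ∀ l, R ε l ≠ 0 := by
    rw [eventually_all]
    intro l
    have h2 := eventually_ne (Polynomial.C (r l) + Polynomial.X * Polynomial.C ((l : ℕ) + 1 : ℂ)) (by
      intro h
      have h3 := congrArg (fun p => Polynomial.coeff p 1) h
      simp at h3
      exact hc l (by simpa using h3))
    filter_upwards [h2] with ε hε
    simpa [R] using hε
  have h2 : ∀ᶠ ε : ℝ in 𝓝[≠] 0, ∀ i j, 1 + R ε i * conj (R ε j) ≠ 0 := by
    rw [eventually_all]
    intro i
    rw [eventually_all]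
    intro j
    have h3 := eventually_ne (1 + (Polynomial.C (r i) + Polynomial.C ((i : ℕ) + 1 : ℂ) * Polynomial.X) *
      (Polynomial.C (conj (r j)) + Polynomial.C ((j : ℕ) + 1 : ℂ) * Polynomial.X)) (by
      intro h
      have h3 := congrArg (fun p => Polynomial.coeff p 2) h
      have h4 : (1 + (Polynomial.C (r i) + Polynomial.C ((i : ℕ) + 1 : ℂ) * Polynomial.X) *
        (Polynomial.C (conj (r j)) + Polynomial.C ((j : ℕ) + 1 : ℂ) * Polynomial.X)) =
        Polynomial.C (1 + r i * conj (r j)) + Polynomial.C (r i * ((j : ℕ) + 1 : ℂ) +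
          ((i : ℕ) + 1 : ℂ) * conj (r j)) * Polynomial.X + Polynomial.C (((i : ℕ) + 1 : ℂ) *
          ((j : ℕ) + 1 : ℂ)) * Polynomial.X ^ 2 := by
        simp only [map_add, map_mul, map_one]
        ring
      simp only [h4] at h3
      simp only [Polynomial.coeff_add, Polynomial.coeff_C_mul, Polynomial.coeff_X_pow,
        Polynomial.coeff_zero, Polynomial.coeff_C, Polynomial.coeff_X] at h3
      norm_num at h3
      rcases h3 with h5 | h5
      · exact hc i h5
      · exact hc j h5)
    filter_upwards [h3] with ε hε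
    simp only [Polynomial.eval_add, Polynomial.eval_mul, Polynomial.eval_C, Polynomial.eval_X,
      Polynomial.eval_one] at hε
    simp only [R, map_add, map_mul, map_one, Complex.conj_ofReal, Complex.conj_natCast]
    intro h0
    apply hε
    rw [← h0]
    ring
  have h3 : ∀ᶠ ε : ℝ in 𝓝[≠] 0, Function.Injective (R ε) := by
    have h4 : ∀ᶠ ε : ℝ in 𝓝[≠] 0, ∀ i j, i ≠ j → R ε i - R ε j ≠ 0 := by
      rw [eventually_all]
      intro i
      rw [eventually_all]
      intro j
      by_cases hij : i = j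
      · exact Eventually.of_forall fun ε h => absurd hij h
      · have h5 := eventually_ne (Polynomial.C (r i - r j) +
          Polynomial.X * Polynomial.C (((i : ℕ) : ℂ) - ((j : ℕ) : ℂ))) (by
          intro h
          have h3 := congrArg (fun p => Polynomial.coeff p 1) h
          simp only [Polynomial.coeff_add, Polynomial.coeff_mul_C, Polynomial.coeff_zero,
            Polynomial.coeff_C, Polynomial.coeff_X] at h3
          norm_num at h3
          apply hij
          apply Fin.ext
          have h6 : ((i : ℕ) : ℂ) = ((j : ℕ) : ℂ) := by linear_combination h3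
          exact_mod_cast h6)
        filter_upwards [h5] with ε hε _ h0
        apply hε
        simp only [Polynomial.eval_add, Polynomial.eval_mul, Polynomial.eval_C, Polynomial.eval_X]
        simp only [R] at h0
        rw [← h0]
        ring
    filter_upwards [h4] with ε hε i j hij
    by_contra hne
    exact hε i j hne (by rw [hij, sub_self])
  have h4 : ∀ᶠ ε : ℝ in 𝓝[≠] 0, HH w (R ε) ∈ {z : ℂ | Nn z} := by
    filter_upwards [h1, h2, h3] with ε ha hb hc
    exact (HH_generic w (R ε) ha hb hc).1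
  have h5 : Tendsto (fun ε : ℝ => HH w (R ε)) (𝓝[≠] 0) (𝓝 (HH w (R 0))) :=
    (hcont.tendsto 0).mono_left nhdsWithin_le_nhds
  have h6 := isClosed_Nn.mem_of_tendsto h5 h4
  have h7 : R 0 = r := by
    funext l
    simp [R]
  rw [h7] at h6
  exact h6

/-! ### The functions attached to a vector -/

/-- The normalising factors. -/
noncomputable def sq (k a : ℕ) : ℂ := ((Real.sqrt (k.choose a) : ℝ) : ℂ)

theorem sq_mul_self (k a : ℕ) : sq k a * sq k a = ((k.choose a : ℕ) : ℂ) := by
  unfold sq
  rw [← Complex.ofReal_mul, Real.mul_self_sqrt (Nat.cast_nonneg _)]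
  simp

theorem conj_sq (k a : ℕ) : conj (sq k a) = sq k a := Complex.conj_ofReal _

theorem sq_self (k : ℕ) : sq k k = 1 := by
  unfold sq
  simp

/-- The holomorphic function. -/
noncomputable def fz (z : Fin (k + 1) → ℂ) (x : ℂ) : ℂ :=
  ∑ b : Fin (k + 1), sq k b * z b * x ^ (b : ℕ)

/-- The antipodal function. -/
noncomputable def gz (z : Fin (k + 1) → ℂ) (x : ℂ) : ℂ :=
  ∑ a : Fin (k + 1), conj (z a) * sq k a * (-x) ^ (k - (a : ℕ))

theorem gz_eq (z : Fin (k + 1) → ℂ) (x : ℂ) (hx : x ≠ 0) :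
    gz z x = (-x) ^ k * conj (fz z (-(conj x)⁻¹)) := by
  unfold gz fz
  rw [map_sum, Finset.mul_sum]
  refine Finset.sum_congr rfl fun a _ => ?_
  rw [map_mul, map_mul, map_pow, conj_sq, map_neg, map_inv₀, Complex.conj_conj]
  have h1 : (-x) ^ k = (-x) ^ (k - (a : ℕ)) * (-x) ^ (a : ℕ) := by
    rw [← pow_add]
    congr 1
    have := a.2
    omega
  have h2 : (-x) ^ (a : ℕ) * (-x⁻¹) ^ (a : ℕ) = 1 := by
    rw [← mul_pow, neg_mul_neg, mul_inv_cancel₀ hx, one_pow]
  rw [h1]
  linear_combination (-(conj (z a)) * sq k a * (-x) ^ (k - (a : ℕ))) * h2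

theorem gg_eq (w : ℂ) (r : Fin k → ℂ) (x : ℂ) (hx : x ≠ 0) :
    gg w r x = (-x) ^ k * conj (ff w r (-(conj x)⁻¹)) := by
  unfold gg ff
  rw [map_mul, map_prod]
  have h1 : (-x) ^ k = ∏ _l : Fin k, (-x) := by
    rw [Finset.prod_const, Finset.card_univ, Fintype.card_fin]
  rw [h1, mul_left_comm, ← Finset.prod_mul_distrib]
  congr 1
  refine Finset.prod_congr rfl fun l _ => ?_
  rw [map_sub, map_neg, map_inv₀, Complex.conj_conj]
  field_simp
  ring

theorem gz_zero (z : Fin (k + 1) → ℂ) : gz z 0 = conj (z (Fin.last k)) := by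
  unfold gz
  rw [Finset.sum_eq_single (Fin.last k)]
  · simp [sq_self]
  · intro a _ ha
    have h1 : k - (a : ℕ) ≠ 0 := by
      have h2 := a.2
      have h3 : (a : ℕ) ≠ k := fun h => ha (Fin.ext h)
      omega
    rw [neg_zero, zero_pow h1, mul_zero]
  · intro h
    exact absurd (Finset.mem_univ _) h

theorem exists_roots (z : Fin (k + 1) → ℂ) (hz : z (Fin.last k) ≠ 0) :
    ∃ (w : ℂ) (r : Fin k → ℂ), fz z = ff w r ∧ gz z = gg w r := by
  classical
  let p : Polynomial ℂ := ∑ b : Fin (k + 1), Polynomial.C (sq k b * z b) * Polynomial.X ^ (b : ℕ)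
  have hpe : ∀ x, p.eval x = fz z x := by
    intro x
    simp [p, fz, Polynomial.eval_finsetSum]
  have hpd : p.natDegree ≤ k := by
    refine Polynomial.natDegree_sum_le_of_forall_le _ _ fun b _ => ?_
    refine (Polynomial.natDegree_C_mul_X_pow_le _ _).trans ?_
    have := b.2
    omega
  have hpc : p.coeff k = z (Fin.last k) := by
    simp only [p, Polynomial.finsetSum_coeff, Polynomial.coeff_C_mul, Polynomial.coeff_X_pow]
    rw [Finset.sum_eq_single (Fin.last k)]
    · simp [sq_self]
    · intro b _ hb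
      rw [if_neg, mul_zero]
      intro h
      exact hb (Fin.ext h.symm)
    · intro h
      exact absurd (Finset.mem_univ _) h
  have hpd2 : p.natDegree = k := by
    refine le_antisymm hpd (Polynomial.le_natDegree_of_ne_zero ?_)
    rw [hpc]
    exact hz
  have hlead : p.leadingCoeff = z (Fin.last k) := by
    unfold Polynomial.leadingCoeff
    rw [hpd2, hpc]
  have hsp := IsAlgClosed.splits p
  have hcard : p.roots.toList.length = k := by
    rw [Multiset.length_toList, ← hsp.natDegree_eq_card_roots, hpd2]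
  let r : Fin k → ℂ := fun i => p.roots.toList.get (i.cast hcard.symm)
  have hr : List.ofFn r = p.roots.toList := by
    apply List.ext_get
    · simp [hcard]
    · intro i h1 h2
      simp [r]
  have hf : ∀ x, fz z x = ff (z (Fin.last k)) r x := by
    intro x
    rw [← hpe]
    conv_lhs => rw [hsp.eq_prod_roots]
    rw [hlead, Polynomial.eval_mul, Polynomial.eval_C]
    unfold ff
    congr 1
    rw [Polynomial.eval_multiset_prod, Multiset.map_map]
    have h1 : ∏ l, (x - r l) = ((List.ofFn r).map (fun a => x - a)).prod := by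
      rw [List.map_ofFn, List.prod_ofFn]
      rfl
    rw [h1, hr, ← Multiset.coe_toList p.roots]
    simp
  refine ⟨z (Fin.last k), r, funext hf, funext fun x => ?_⟩
  by_cases hx : x = 0
  · subst hx
    rw [gz_zero]
    simp [gg]
  · rw [gz_eq z x hx, gg_eq _ _ x hx, hf]

/-- The density. -/
noncomputable def Cz (z : Fin (k + 1) → ℂ) : ℂ := Om (fz z) (gz z) (tst k) / VV (tst k)

theorem continuous_Cz : Continuous (Cz (k := k)) := by
  unfold Cz
  refine Continuous.div_const ?_ _
  refine continuous_Om _ _ (fun x => ?_) (fun x => ?_) _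
  · unfold fz
    fun_prop
  · unfold gz
    refine continuous_finsetSum _ fun a _ => ?_
    refine Continuous.mul (Continuous.mul ?_ continuous_const) continuous_const
    exact Complex.continuous_conj.comp (continuous_apply a)

theorem Cz_nonneg (z : Fin (k + 1) → ℂ) : Nn (Cz z) := by
  have h0 : ∀ z : Fin (k + 1) → ℂ, z (Fin.last k) ≠ 0 → Nn (Cz z) := by
    intro z hz
    obtain ⟨w, r, h1, h2⟩ := exists_roots z hz
    unfold Cz
    rw [h1, h2]
    exact HH_nonneg w r
  let Z : ℝ → Fin (k + 1) → ℂ := fun ε => Function.update z (Fin.last k) (z (Fin.last k) + ε)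
  have hcont : Continuous (fun ε : ℝ => Cz (Z ε)) := by
    refine continuous_Cz.comp ?_
    simp only [Z]
    exact Continuous.update continuous_const _ (by fun_prop)
  have h1 : ∀ᶠ ε : ℝ in 𝓝[≠] 0, Cz (Z ε) ∈ {z : ℂ | Nn z} := by
    have h2 := eventually_ne (Polynomial.C (z (Fin.last k)) + Polynomial.X) (by
      intro h
      have h3 := congrArg (fun p => Polynomial.coeff p 1) h
      simp at h3)
    filter_upwards [h2] with ε hε
    apply h0
    simpa [Z] using hε
  have h5 : Tendsto (fun ε : ℝ => Cz (Z ε)) (𝓝[≠] 0) (𝓝 (Cz (Z 0))) :=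
    (hcont.tendsto 0).mono_left nhdsWithin_le_nhds
  have h6 := isClosed_Nn.mem_of_tendsto h5 h1
  have h7 : Z 0 = z := by simp [Z]
  rw [h7] at h6
  exact h6

theorem sq_ne_zero (k : ℕ) (a : Fin (k + 1)) : sq k a ≠ 0 := by
  unfold sq
  rw [Complex.ofReal_ne_zero, Real.sqrt_ne_zero (Nat.cast_nonneg _), Nat.cast_ne_zero]
  exact (Nat.choose_pos (by have := a.2; omega)).ne'

theorem exists_vector (w : ℂ) (r : Fin k → ℂ) :
    ∃ z : Fin (k + 1) → ℂ, fz z = ff w r ∧ gz z = gg w r := by
  let m : Polynomial ℂ := ∏ l, (Polynomial.X - Polynomial.C (r l))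
  have hm : m.Monic := Polynomial.monic_prod_of_monic _ _ fun l _ => Polynomial.monic_X_sub_C _
  have hmd : m.natDegree = k := by
    simp only [m]
    rw [Polynomial.natDegree_prod_of_monic _ _ (fun l _ => Polynomial.monic_X_sub_C _)]
    simp
  let z : Fin (k + 1) → ℂ := fun b => w * m.coeff b / sq k b
  have hf : ∀ x, fz z x = ff w r x := by
    intro x
    have h1 : m.eval x = ∏ l, (x - r l) := by simp [m, Polynomial.eval_prod]
    unfold ff
    rw [← h1, Polynomial.eval_eq_sum_range' (n := k + 1) (by omega)]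
    rw [← Fin.sum_univ_eq_sum_range (fun b => m.coeff b * x ^ b) (k + 1), Finset.mul_sum]
    unfold fz
    refine Finset.sum_congr rfl fun b _ => ?_
    simp only [z]
    have := sq_ne_zero k b
    field_simp
  refine ⟨z, funext hf, funext fun x => ?_⟩
  by_cases hx : x = 0
  · subst hx
    rw [gz_zero]
    have h1 : z (Fin.last k) = w := by
      simp only [z, Fin.val_last]
      rw [sq_self, div_one]
      have h2 : m.coeff k = 1 := by
        have h3 := hm.coeff_natDegree
        rwa [hmd] at h3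
      rw [h2, mul_one]
    rw [h1]
    simp [gg]
  · rw [gz_eq z x hx, gg_eq _ _ x hx, hf]

theorem exists_Cz_pos (k : ℕ) : ∃ z : Fin (k + 1) → ℂ, 0 < (Cz z).re := by
  let r : Fin k → ℂ := fun l => (((l : ℕ) + 1 : ℕ) : ℂ)
  obtain ⟨z, h1, h2⟩ := exists_vector 1 r
  refine ⟨z, ?_⟩
  have h3 : Cz z = HH 1 r := by
    unfold Cz HH
    rw [h1, h2]
  rw [h3]
  obtain ⟨h4, h5⟩ := HH_generic 1 r (fun l => by
      simp only [r]
      rw [Nat.cast_ne_zero]
      omega) (fun i j => by
      simp only [r, Complex.conj_natCast]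
      rw [← Nat.cast_mul, ← Nat.cast_one, ← Nat.cast_add, Nat.cast_ne_zero]
      omega) (fun i j hij => by
      simp only [r, Nat.cast_inj] at hij
      exact Fin.ext (by omega))
  have h6 := h5 one_ne_zero
  refine lt_of_le_of_ne h4.1 fun h => h6 ?_
  exact Complex.ext h.symm h4.2

end Run7.h539
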