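import Mathlib
import Pool.Agent.Run7.h539.Cyc
import Pool.Agent.Run7.h539.Mats

/-!
# The alternating trace modulo `p = 2k+1`
-/

set_option autoImplicit false
set_option linter.unusedSectionVars false

namespace Run7.h539

open Equiv

/-! ### Sums of invariant functions modulo `p` -/

theorem sum_eq_sum_fixed {α : Type*} [Fintype α] [DecidableEq α] (p : ℕ) [Fact p.Prime]
    (T : α → α) (hT : T^[p] = id) (φ : α → ZMod p) (hφ : ∀ a, φ (T a) = φ a) :
    ∑ a, φ a = ∑ a : {a // T a = a}, φ a.1 := by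
  classical
  have h1 : ∀ c : ZMod p, (Fintype.card {a // φ a = c} : ZMod p) =
      (Fintype.card {a : {a // T a = a} // φ a.1 = c} : ZMod p) := by
    intro c
    let f : Function.End {a // φ a = c} := fun a => ⟨T a.1, by rw [hφ]; exact a.2⟩
    have hf : ∀ (m : ℕ) (a : {a // φ a = c}), ((f ^ m) a).1 = T^[m] a.1 := by
      intro m
      induction m with
      | zero => intro a; rfl
      | succ m ih =>
        intro a
        rw [pow_succ']
        change T ((f ^ m) a).1 = _
        rw [ih, Function.iterate_succ_apply']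
    have hf1 : f ^ p ^ 1 = 1 := by
      funext a
      apply Subtype.ext
      rw [pow_one, hf, hT]
      rfl
    have h2 := Perm.card_fixedPoints_modEq hf1
    rw [← ZMod.natCast_eq_natCast_iff] at h2
    rw [h2]
    congr 1
    refine Fintype.card_congr ?_
    refine ⟨fun a => ⟨⟨a.1.1, congrArg Subtype.val a.2⟩, a.1.2⟩,
      fun a => ⟨⟨a.1.1, a.2⟩, Subtype.ext a.1.2⟩, fun a => rfl, fun a => rfl⟩
  have h2 : ∀ (β : Type _) [Fintype β] (ψ : β → ZMod p),
      ∑ b, ψ b = ∑ c : ZMod p, (Fintype.card {b // ψ b = c} : ZMod p) * c := by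
    intro β _ ψ
    rw [← Finset.sum_fiberwise Finset.univ ψ ψ]
    refine Finset.sum_congr rfl fun c _ => ?_
    rw [Finset.sum_congr rfl (fun b hb => (Finset.mem_filter.1 hb).2), Finset.sum_const,
      Fintype.card_subtype, nsmul_eq_mul]
  rw [h2 α φ, h2 {a // T a = a} (fun a => φ a.1)]
  exact Finset.sum_congr rfl fun c _ => by rw [h1 c]

/-! ### The sign of multiplication by a unit -/

variable (k : ℕ) [hp : Fact (2 * k + 1).Prime]

theorem sign_mulLeft (a : (ZMod (2 * k + 1))ˣ) :
    ((Perm.sign (Units.mulLeft a : Perm (ZMod (2 * k + 1))) : ℤ) : ZMod (2 * k + 1)) =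
      (a : ZMod (2 * k + 1)) ^ k := by
  let v : Fin (2 * k + 1) → ZMod (2 * k + 1) := fun i => i
  have hv : (Matrix.vandermonde v).det ≠ 0 := by
    rw [Matrix.det_vandermonde_ne_zero_iff]
    intro i j h
    exact h
  let τ : Perm (Fin (2 * k + 1)) := (Units.mulLeft a : Perm (ZMod (2 * k + 1)))
  have h1 : Matrix.det ((Matrix.vandermonde v).submatrix τ id) =
      ((Perm.sign τ : ℤ) : ZMod (2 * k + 1)) * (Matrix.vandermonde v).det :=
    Matrix.det_permute τ _
  have h2 : (Matrix.vandermonde v).submatrix τ id =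
      Matrix.of fun (i j : Fin (2 * k + 1)) =>
        ((a : ZMod (2 * k + 1)) ^ (j : ℕ)) * Matrix.vandermonde v i j := by
    ext i j
    change (v (τ i)) ^ (j : ℕ) = (a : ZMod (2 * k + 1)) ^ (j : ℕ) * (v i) ^ (j : ℕ)
    rw [← mul_pow]
    rfl
  rw [h2, Matrix.det_mul_row] at h1
  have h3 : ∏ i : Fin (2 * k + 1), (a : ZMod (2 * k + 1)) ^ (i : ℕ) =
      (a : ZMod (2 * k + 1)) ^ k := by
    rw [Finset.prod_pow_eq_pow_sum, Fin.sum_univ_eq_sum_range (fun i => i) (2 * k + 1)]
    have h4 : ∑ i ∈ Finset.range (2 * k + 1), i = (2 * k + 1) * k := by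
      have h5 := Finset.sum_range_id_mul_two (2 * k + 1)
      have h6 : 2 * k + 1 - 1 = 2 * k := by omega
      rw [h6] at h5
      nlinarith
    rw [h4, pow_mul, ZMod.pow_card]
  rw [h3] at h1
  have h4 := mul_right_cancel₀ hv h1
  rw [h4]
  rfl

/-! ### Permutations fixing zero -/

/-- The permutations of `ZMod (2k+1)` fixing `0`. -/
abbrev P0 (k : ℕ) : Type := {σ : Perm (ZMod (2 * k + 1)) // σ 0 = 0}

/-- Rotation followed by translation. -/
def TT (σ : P0 k) : P0 k :=
  ⟨(Equiv.subRight (σ.1 1)) * σ.1 * (Equiv.addRight 1), by simp⟩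

theorem TT_apply (σ : P0 k) (i : ZMod (2 * k + 1)) : (TT k σ).1 i = σ.1 (i + 1) - σ.1 1 := by
  simp [TT]

theorem TT_iter (m : ℕ) : ∀ (σ : P0 k) (i : ZMod (2 * k + 1)),
    ((TT k)^[m] σ).1 i = σ.1 (i + m) - σ.1 m := by
  induction m with
  | zero =>
    intro σ i
    simp [σ.2]
  | succ m ih =>
    intro σ i
    rw [Function.iterate_succ_apply', TT_apply, ih, ih]
    push_cast
    rw [add_assoc, add_comm (1 : ZMod (2 * k + 1)) (m : ZMod (2 * k + 1))]
    ring

theorem cast_self : ((2 * k + 1 : ℕ) : ZMod (2 * k + 1)) = 0 := ZMod.natCast_self _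

theorem TT_period : (TT k)^[2 * k + 1] = id := by
  funext σ
  apply Subtype.ext
  ext i
  rw [TT_iter, cast_self, σ.2]
  simp

theorem sign_eq_one_of_pow (τ : Perm (ZMod (2 * k + 1))) (h : τ ^ (2 * k + 1) = 1) :
    Perm.sign τ = 1 := by
  have h1 : Perm.sign τ ^ (2 * k + 1) = 1 := by rw [← map_pow, h, map_one]
  rcases Int.units_eq_one_or (Perm.sign τ) with h2 | h2
  · exact h2
  · rw [h2] at h1
    rw [Odd.neg_one_pow ⟨k, rfl⟩] at h1
    exact absurd h1 (by decide)

theorem addRight_pow (a : ZMod (2 * k + 1)) (m : ℕ) (i : ZMod (2 * k + 1)) :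
    ((Equiv.addRight a) ^ m : Perm (ZMod (2 * k + 1))) i = i + m * a := by
  induction m with
  | zero => simp
  | succ m ih =>
    rw [pow_succ', Perm.mul_apply, ih, Equiv.coe_addRight]
    push_cast
    ring

theorem sign_addRight (a : ZMod (2 * k + 1)) :
    Perm.sign (Equiv.addRight a : Perm (ZMod (2 * k + 1))) = 1 := by
  apply sign_eq_one_of_pow
  ext i
  rw [addRight_pow, cast_self]
  simp

theorem sign_subRight (a : ZMod (2 * k + 1)) :
    Perm.sign (Equiv.subRight a : Perm (ZMod (2 * k + 1))) = 1 := by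
  have h : (Equiv.subRight a : Perm (ZMod (2 * k + 1))) = Equiv.addRight (-a) := by
    ext i
    simp [sub_eq_add_neg]
  rw [h, sign_addRight]

theorem addRight_one_eq :
    (Equiv.addRight 1 : Perm (ZMod (2 * k + 1))) = (finRotate (2 * k + 1) : Perm (Fin (2 * k + 1))) := by
  apply Equiv.ext
  intro i
  change i + 1 = finRotate (2 * k + 1) i
  rw [finRotate_apply]
  rfl

section

variable {N : Type*} [Fintype N] [DecidableEq N] {R : Type*} [CommRing R]

theorem GG_const (z : Matrix N N R) :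
    GG (Equiv.addRight 1 : Perm (ZMod (2 * k + 1))) (fun _ => z) = (z ^ (2 * k + 1)).trace := by
  have h1 := GG_finRotate (2 * k) (fun _ : Fin (2 * k + 1) => z)
  rw [List.ofFn_const, List.prod_replicate] at h1
  rw [← h1]
  rw [addRight_one_eq]
  rfl

theorem GG_rot (σ : Perm (ZMod (2 * k + 1))) (x : ZMod (2 * k + 1) → Matrix N N R) (j : ZMod (2 * k + 1)) :
    GG (Equiv.addRight 1 : Perm (ZMod (2 * k + 1))) (fun i => x (σ (i + j))) =
      GG (Equiv.addRight 1 : Perm (ZMod (2 * k + 1))) (fun i => x (σ i)) := by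
  have h1 := GG_comp' (Equiv.addRight 1 : Perm (ZMod (2 * k + 1)))
    (Equiv.addRight j : Perm (ZMod (2 * k + 1))) (fun i => x (σ i))
  simp only [Equiv.coe_addRight] at h1
  rw [h1]
  congr 1
  rw [mul_inv_eq_iff_eq_mul]
  ext i
  simp only [Perm.mul_apply, Equiv.coe_addRight]
  rw [add_right_comm]

/-- The alternating sum over the permutations fixing `0`. -/
def S0 (x : ZMod (2 * k + 1) → Matrix N N R) : R :=
  ∑ σ : P0 k, ((Perm.sign σ.1 : ℤ) : R) *
    GG (Equiv.addRight 1 : Perm (ZMod (2 * k + 1))) (fun i => x (σ.1 i))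

theorem aG_eq_S0 (x : ZMod (2 * k + 1) → Matrix N N R) :
    aG (Equiv.addRight 1 : Perm (ZMod (2 * k + 1))) x = (2 * k + 1 : ℕ) * S0 k x := by
  have h1 : ∀ j : ZMod (2 * k + 1), ∑ σ : Perm (ZMod (2 * k + 1)) with σ⁻¹ 0 = j,
      ((Perm.sign σ : ℤ) : R) *
        GG (Equiv.addRight 1 : Perm (ZMod (2 * k + 1))) (fun i => x (σ i)) = S0 k x := by
    intro j
    unfold S0
    rw [Finset.sum_subtype (p := fun σ : Perm (ZMod (2 * k + 1)) => σ⁻¹ 0 = j) _ (by simp)]
    let E : {σ : Perm (ZMod (2 * k + 1)) // σ⁻¹ 0 = j} ≃ P0 k :=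
      { toFun := fun σ => ⟨σ.1 * Equiv.addRight j, by
          change σ.1 (0 + j) = 0
          rw [zero_add]
          exact ((Perm.inv_eq_iff_eq).1 σ.2).symm⟩
        invFun := fun σ => ⟨σ.1 * Equiv.addRight (-j), by
          rw [mul_inv_rev, Perm.mul_apply]
          have h2 : σ.1⁻¹ 0 = 0 := by
            rw [Perm.inv_eq_iff_eq]
            exact σ.2.symm
          rw [h2]
          rw [Perm.inv_eq_iff_eq]
          simp⟩
        left_inv := fun σ => by
          apply Subtype.ext
          ext i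
          simp
        right_inv := fun σ => by
          apply Subtype.ext
          ext i
          simp }
    refine Fintype.sum_equiv E _ _ fun σ => ?_
    change _ = ((Perm.sign (σ.1 * Equiv.addRight j) : ℤ) : R) *
      GG (Equiv.addRight 1 : Perm (ZMod (2 * k + 1))) (fun i => x (σ.1 (i + j)))
    rw [Perm.sign_mul, sign_addRight, mul_one, GG_rot]
  unfold aG
  rw [← Finset.sum_fiberwise Finset.univ (fun σ : Perm (ZMod (2 * k + 1)) => σ⁻¹ 0)]
  rw [Finset.sum_congr rfl (fun j _ => h1 j), Finset.sum_const, Finset.card_univ, ZMod.card,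
    nsmul_eq_mul]

end

theorem XX_sub {R : Type*} [CommRing R] (n : ℕ) (t c : R) :
    XX n k (t - c) = UU n c * XX n k t * UU n (-c) := by
  unfold XX
  have e1 : -(t - c) = c + -t := by ring
  have e2 : t - c = t + -c := by ring
  rw [e1, e2, ← UU_add, ← UU_add]
  simp only [mul_assoc]

theorem S0_mod (n : ℕ) (hkn : k < n) :
    S0 k (fun i => XX n k (i : ZMod (2 * k + 1))) =
      -(-1) ^ k * ((n + k).choose (2 * k + 1) : ZMod (2 * k + 1)) := by
  classical
  unfold S0
  rw [sum_eq_sum_fixed (2 * k + 1) (TT k) (TT_period k)]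
  swap
  · intro σ
    congr 1
    · congr 1
      change ((Perm.sign (Equiv.subRight (σ.1 1) * σ.1 * Equiv.addRight 1) : ℤˣ) : ℤ) = _
      rw [Perm.sign_mul, Perm.sign_mul, sign_subRight, sign_addRight, mul_one, one_mul]
    · have h1 : (fun i => XX n k ((TT k σ).1 i)) =
          fun i => UU n (σ.1 1) * XX n k (σ.1 (i + 1)) * UU n (-(σ.1 1)) := by
        funext i
        rw [TT_apply, XX_sub]
      rw [h1, GG_conj _ _ _ _ (UU_neg_mul n (σ.1 1))]
      exact GG_rot k σ.1 (fun i => XX n k i) 1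
  -- the fixed points
  let E : {σ : P0 k // TT k σ = σ} ≃ (ZMod (2 * k + 1))ˣ :=
    { toFun := fun σ => Units.mk0 (σ.1.1 1) (by
        intro h
        have h2 : (1 : ZMod (2 * k + 1)) = 0 := σ.1.1.injective (by rw [h, σ.1.2])
        exact one_ne_zero h2)
      invFun := fun a => ⟨⟨Units.mulLeft a, by simp⟩, by
        apply Subtype.ext
        ext i
        rw [TT_apply]
        simp only [Units.mulLeft_apply]
        ring⟩
      left_inv := fun σ => by
        apply Subtype.ext
        apply Subtype.ext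
        ext i
        change σ.1.1 1 * i = σ.1.1 i
        have h1 : ∀ m : ℕ, σ.1.1 (m : ZMod (2 * k + 1)) = σ.1.1 1 * m := by
          intro m
          induction m with
          | zero => simp [σ.1.2]
          | succ m ih =>
            have h2 : (TT k σ.1).1 (m : ZMod (2 * k + 1)) = σ.1.1 m := by rw [σ.2]
            rw [TT_apply] at h2
            push_cast
            rw [mul_add, mul_one, ← ih, ← h2]
            ring
        have h3 := h1 i.val
        rw [ZMod.natCast_val, ZMod.cast_id] at h3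
        exact h3.symm
      right_inv := fun a => by
        ext
        simp }
  have h1 : ∀ σ : {σ : P0 k // TT k σ = σ}, ((Perm.sign σ.1.1 : ℤ) : ZMod (2 * k + 1)) *
      GG (Equiv.addRight 1 : Perm (ZMod (2 * k + 1))) (fun i => XX n k (σ.1.1 i)) =
      (-1) ^ k * ((n + k).choose (2 * k + 1) : ZMod (2 * k + 1)) := by
    intro σ
    obtain ⟨a, rfl⟩ := E.symm.surjective σ
    have h2 : (E.symm a).1.1 = Units.mulLeft a := rfl
    rw [h2, sign_mulLeft]
    have h3 : (fun i => XX n k ((Units.mulLeft a : Perm (ZMod (2 * k + 1))) i)) =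
        fun i => UU n (-(a * i : ZMod (2 * k + 1))) * (FF n k * UU n (-(a : ZMod (2 * k + 1)))) *
          (fun j : ZMod (2 * k + 1) => UU n (a * j : ZMod (2 * k + 1)))
            ((Equiv.addRight 1 : Perm (ZMod (2 * k + 1))) i) := by
      funext i
      simp only [Units.mulLeft_apply, Equiv.coe_addRight]
      unfold XX
      have e1 : (a * i : ZMod (2 * k + 1)) = -a + a * (i + 1) := by ring
      have e2 : UU n (a * i : ZMod (2 * k + 1)) =
          UU n (-(a : ZMod (2 * k + 1))) * UU n (a * (i + 1) : ZMod (2 * k + 1)) := by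
        rw [UU_add, ← e1]
      rw [e2]
      simp only [mul_assoc]
    rw [h3, GG_gauge _ (fun _ => FF n k * UU n (-(a : ZMod (2 * k + 1)))) _
      (fun j : ZMod (2 * k + 1) => UU n (a * j : ZMod (2 * k + 1)))
      (fun i => UU_mul_neg n _)]
    rw [GG_const, ZMod.trace_pow_card, ZMod.pow_card, trace_FF_mul_UU]
    have h4 : ((∑ j ∈ Finset.range (n - k), (n - 1 - j).choose k * (j + k).choose k : ℕ) :
        ZMod (2 * k + 1)) = ((n + k).choose (2 * k + 1) : ZMod (2 * k + 1)) := by
      rw [sum_choose_choose n k hkn]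
    push_cast at h4
    rw [h4, ← mul_assoc, ← mul_pow, mul_neg, neg_pow]
    have h5 : ((a : ZMod (2 * k + 1)) * a) ^ k = 1 := by
      rw [← sq, ← pow_mul]
      have h6 := ZMod.pow_card_sub_one_eq_one (p := 2 * k + 1) a.ne_zero
      have h7 : 2 * k + 1 - 1 = 2 * k := by omega
      rw [h7] at h6
      exact h6
    rw [h5, mul_one]
  rw [Finset.sum_congr rfl (fun σ _ => h1 σ), Finset.sum_const, Finset.card_univ,
    Fintype.card_congr E, ZMod.card_units_eq_totient, Nat.totient_prime hp.out, nsmul_eq_mul]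
  have h2 : ((2 * k + 1 - 1 : ℕ) : ZMod (2 * k + 1)) = -1 := by
    have h3 := cast_self k
    rw [Nat.add_sub_cancel]
    push_cast at h3 ⊢
    linear_combination h3
  rw [h2]
  ring

/-- The integer `S0` for the matrices `XX n k i`, `i = 0, …, 2k`. -/
noncomputable def NN (n : ℕ) : ℤ := S0 k (fun i : ZMod (2 * k + 1) => XX n k ((i.val : ℕ) : ℤ))

theorem NN_mod (n : ℕ) (hkn : k < n) :
    ((NN k n : ℤ) : ZMod (2 * k + 1)) =
      -(-1) ^ k * ((n + k).choose (2 * k + 1) : ZMod (2 * k + 1)) := by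
  rw [← S0_mod k n hkn]
  unfold NN S0
  push_cast
  refine Finset.sum_congr rfl fun σ _ => ?_
  congr 1
  have h1 := GG_map (Int.castRingHom (ZMod (2 * k + 1)))
    (Equiv.addRight 1 : Perm (ZMod (2 * k + 1))) (fun i => XX n k (((σ.1 i).val : ℕ) : ℤ))
  rw [eq_intCast] at h1
  rw [← h1]
  congr 1
  funext i
  rw [XX_map]
  congr 1
  simp

end Run7.h539
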