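import Mathlib
import Pool.Agent.Run7.h539.Prime
import Pool.Agent.Run7.h539.Fam

/-!
# Nonvanishing of the alternating trace when `2k+1` is prime
-/

set_option autoImplicit false
set_option linter.unusedSectionVars false

namespace Run7.h539

open Polynomial Finset

/-- The basic nonvanishing property: the alternating trace is not identically zero on
the conjugates of `F^{(k)}`. -/
def Core (n k : ℕ) : Prop :=
  ∃ t : Fin (2 * k + 1) → ℂ, aG (finRotate (2 * k + 1)) (fun i => XX n k (t i)) ≠ 0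

open scoped fwdDiff in
theorem small_of_small (p : ℕ) [hp : Fact p.Prime] (P : ℚ[X]) (D : ℕ) (hD : P.natDegree ≤ D)
    (y : ℚ) (h : ∀ j ≤ D, padicNorm p (P.eval (y + j)) < 1) (n : ℕ) :
    padicNorm p (P.eval (y + n)) < 1 := by
  have h1 : ∀ j, padicNorm p ((fwdDiff (1 : ℚ))^[j] P.eval y) < 1 := by
    intro j
    by_cases hj : j ≤ D
    · rw [fwdDiff_iter_eq_sum_shift]
      refine padicNorm.sum_lt' (fun i hi => ?_) one_pos
      rw [Finset.mem_range] at hi
      rw [zsmul_eq_mul, padicNorm.mul, nsmul_eq_mul, mul_one]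
      have h2 := h i (by omega)
      calc _ ≤ 1 * padicNorm p (P.eval (y + i)) :=
            mul_le_mul_of_nonneg_right (padicNorm.of_int _) (padicNorm.nonneg _)
        _ < 1 := by rwa [one_mul]
    · rw [Polynomial.fwdDiff_iter_eq_zero_of_degree_lt (by omega)]
      simp
  have h2 := shift_eq_sum_fwdDiff_iter (1 : ℚ) P.eval n y
  rw [nsmul_eq_mul, mul_one] at h2
  rw [h2]
  refine padicNorm.sum_lt' (fun i _ => ?_) one_pos
  rw [nsmul_eq_mul, padicNorm.mul]
  calc _ ≤ 1 * padicNorm p ((fwdDiff (1 : ℚ))^[i] P.eval y) :=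
        mul_le_mul_of_nonneg_right (padicNorm.of_nat _) (padicNorm.nonneg _)
    _ < 1 := by rw [one_mul]; exact h1 i

theorem not_dvd_choose_prime (p : ℕ) [hp : Fact p.Prime] (m : ℕ) (h1 : p ≤ m) (h2 : m < p * p) :
    ¬ p ∣ m.choose p := by
  intro h3
  have h4 := Choose.choose_modEq_choose_mod_mul_choose_div_nat (n := m) (k := p) (p := p)
  rw [Nat.mod_self, Nat.div_self hp.out.pos, Nat.choose_zero_right, one_mul,
    Nat.choose_one_right] at h4
  have h5 : p ∣ m / p := (Nat.ModEq.dvd_iff h4 dvd_rfl).1 h3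
  have h6 : 0 < m / p := Nat.div_pos h1 hp.out.pos
  have h7 : m / p < p := Nat.div_lt_of_lt_mul h2
  exact absurd (Nat.le_of_dvd h6 h5) (by omega)

variable (k : ℕ) [hp : Fact (2 * k + 1).Prime]

theorem NN_aG (n : ℕ) :
    aG (finRotate (2 * k + 1)) (fun i : Fin (2 * k + 1) => XX n k ((i : ℕ) : ℤ)) =
      (2 * k + 1 : ℕ) * NN k n := by
  have h1 := aG_eq_S0 k (fun i : ZMod (2 * k + 1) => XX n k ((i.val : ℕ) : ℤ))
  rw [addRight_one_eq] at h1
  exact h1

theorem NN_eq_zero (n : ℕ) (h : n ≤ k) : NN k n = 0 := by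
  unfold NN S0
  refine Finset.sum_eq_zero fun σ _ => ?_
  simp only [XX_eq_zero n k h]
  unfold GG
  rw [Finset.sum_eq_zero, mul_zero]
  intro c _
  exact Finset.prod_eq_zero (Finset.mem_univ 0) rfl

theorem NN_good : Good (2 * k * (2 * k + 1) + 1) (fun n => (NN k n : ℚ)) := by
  have h1 := good_XX (K := ℚ) k (fun i => ((i : ℕ) : ℚ))
  have h2 := h1.smul (((2 * k + 1 : ℕ) : ℚ)⁻¹)
  convert h2 using 2 with n
  have h3 := NN_aG k n
  have h4 := aG_map (Int.castRingHom ℚ) (finRotate (2 * k + 1))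
    (fun i : Fin (2 * k + 1) => XX n k ((i : ℕ) : ℤ))
  rw [eq_intCast, h3] at h4
  have h5 : (fun i : Fin (2 * k + 1) => ((XX n k ((i : ℕ) : ℤ)).map (Int.castRingHom ℚ))) =
      fun i : Fin (2 * k + 1) => XX n k ((i : ℕ) : ℚ) := by
    funext i
    rw [XX_map]
    simp
  have h6 : aG (finRotate (2 * k + 1)) (fun i : Fin (2 * k + 1) => XX n k ((i : ℕ) : ℚ)) =
      (((2 * k + 1 : ℕ) : ℤ) * NN k n : ℤ) := by
    rw [← h5, h4]
  rw [h6]
  push_cast
  have h7 : (2 * (k : ℚ) + 1) ≠ 0 := by positivity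
  field_simp

theorem NN_ne_zero (n : ℕ) (hn : k < n) : NN k n ≠ 0 := by
  obtain ⟨Q, hQ1, hQ2, hQ3⟩ := NN_good k
  simp only at hQ2 hQ3
  set W : ℚ[X] := ∏ i ∈ Finset.range (2 * k + 1), (X - C ((i : ℚ) - k)) with hW
  have hdvd : W ∣ Q := by
    refine Finset.prod_dvd_of_coprime ?_ ?_
    · have h1 : Function.Injective (fun i : ℕ => (i : ℚ) - k) := by
        intro a b hab
        simpa using hab
      exact fun a _ b _ hab => pairwise_coprime_X_sub_C h1 hab
    · intro i hi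
      rw [Finset.mem_range] at hi
      rw [dvd_iff_isRoot]
      unfold IsRoot
      by_cases hik : k ≤ i
      · have h1 : (i : ℚ) - k = ((i - k : ℕ) : ℚ) := by
          rw [Nat.cast_sub hik]
        rw [h1, hQ2, NN_eq_zero k (i - k) (by omega)]
        simp
      · have h1 : (i : ℚ) - k = -((k - i : ℕ) : ℚ) := by
          rw [Nat.cast_sub (by omega)]
          ring
        rw [h1, hQ3, NN_eq_zero k (k - i) (by omega)]
        simp
  obtain ⟨G, hG⟩ := hdvd
  have hWm : W.Monic := monic_prod_of_monic _ _ fun i _ => monic_X_sub_C _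
  have hWd : W.natDegree = 2 * k + 1 := by
    rw [hW, natDegree_prod_of_monic _ _ (fun i _ => monic_X_sub_C _)]
    simp only [natDegree_X_sub_C]
    simp
  have hGd : G.natDegree ≤ 2 * k * (2 * k) := by
    by_cases hG0 : G = 0
    · rw [hG0]
      simp
    · have h1 : Q.natDegree = W.natDegree + G.natDegree := by
        rw [hG, hWm.natDegree_mul' hG0]
      rw [hWd] at h1
      nlinarith
  -- evaluation of `W`
  have hWe : ∀ m : ℕ, k < m → W.eval (m : ℚ) =
      ((2 * k + 1).factorial : ℚ) * ((m + k).choose (2 * k + 1) : ℚ) := by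
    intro m hm
    rw [← Nat.cast_mul, ← Nat.descFactorial_eq_factorial_mul_choose,
      Nat.descFactorial_eq_prod_range, Nat.cast_prod, hW, eval_prod]
    refine Finset.prod_congr rfl fun i hi => ?_
    rw [Finset.mem_range] at hi
    rw [eval_sub, eval_X, eval_C, Nat.cast_sub (by omega)]
    push_cast
    ring
  set P : ℚ[X] := C ((2 * k + 1).factorial : ℚ) * G + C ((-1 : ℚ) ^ k) with hP
  have hPd : P.natDegree ≤ 2 * k * (2 * k) := by
    refine (natDegree_add_le _ _).trans (max_le ?_ ?_)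
    · exact (natDegree_C_mul_le _ _).trans hGd
    · rw [natDegree_C]
      omega
  have hkey : ∀ m : ℕ, k < m → (NN k m : ℚ) =
      (P.eval (m : ℚ) - (-1) ^ k) * ((m + k).choose (2 * k + 1) : ℚ) := by
    intro m hm
    rw [← hQ2, hG, eval_mul, hWe m hm, hP, eval_add, eval_mul, eval_C, eval_C]
    ring
  have hsmall : ∀ j ≤ 2 * k * (2 * k),
      padicNorm (2 * k + 1) (P.eval (((k + 1 : ℕ) : ℚ) + j)) < 1 := by
    intro j hj
    have hm : k < k + 1 + j := by omega
    have h1 := hkey (k + 1 + j) hm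
    have h2 := NN_mod k (k + 1 + j) hm
    have h3 : ¬ (2 * k + 1) ∣ (k + 1 + j + k).choose (2 * k + 1) := by
      have hk1 : 2 ≤ 2 * k + 1 := hp.out.two_le
      refine not_dvd_choose_prime (2 * k + 1) (k + 1 + j + k) (by omega) ?_
      nlinarith
    have h4 : padicNorm (2 * k + 1) (((k + 1 + j + k).choose (2 * k + 1) : ℕ) : ℚ) = 1 :=
      (padicNorm.nat_eq_one_iff _).2 h3
    have h5 : ((NN k (k + 1 + j) + (-1) ^ k * ((k + 1 + j + k).choose (2 * k + 1) : ℕ) : ℤ) :
        ZMod (2 * k + 1)) = 0 := by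
      push_cast
      rw [h2]
      ring
    have h6 : ((2 * k + 1 : ℕ) : ℤ) ∣
        NN k (k + 1 + j) + (-1) ^ k * ((k + 1 + j + k).choose (2 * k + 1) : ℕ) :=
      (ZMod.intCast_zmod_eq_zero_iff_dvd _ _).1 h5
    have h7 := (padicNorm.int_lt_one_iff (p := 2 * k + 1) _).2 h6
    have h8 : ((NN k (k + 1 + j) + (-1) ^ k * ((k + 1 + j + k).choose (2 * k + 1) : ℕ) : ℤ) : ℚ) =
        P.eval (((k + 1 : ℕ) : ℚ) + j) * (((k + 1 + j + k).choose (2 * k + 1) : ℕ) : ℚ) := by
      push_cast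
      rw [h1]
      push_cast
      ring
    rw [h8, padicNorm.mul, h4, mul_one] at h7
    exact h7
  have hall := small_of_small (2 * k + 1) P _ hPd ((k + 1 : ℕ) : ℚ) hsmall (n - (k + 1))
  have e1 : ((k + 1 : ℕ) : ℚ) + ((n - (k + 1) : ℕ) : ℚ) = (n : ℚ) := by
    rw [← Nat.cast_add]
    congr 1
    omega
  rw [e1] at hall
  intro h0
  have h1 := hkey n hn
  rw [h0] at h1
  have h2 : ((n + k).choose (2 * k + 1) : ℚ) ≠ 0 := by
    rw [Nat.cast_ne_zero]
    exact (Nat.choose_pos (by omega)).ne'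
  have h3 : P.eval (n : ℚ) = (-1) ^ k := by
    have h4 : (P.eval (n : ℚ) - (-1) ^ k) * ((n + k).choose (2 * k + 1) : ℚ) = 0 := by
      rw [← h1]
      simp
    rcases mul_eq_zero.1 h4 with h5 | h5
    · linear_combination h5
    · exact absurd h5 h2
  rw [h3] at hall
  have h4 : padicNorm (2 * k + 1) ((-1 : ℚ) ^ k) = 1 := by
    rcases neg_one_pow_eq_or ℚ k with h5 | h5
    · rw [h5]
      simp
    · rw [h5]
      simp
  rw [h4] at hall
  exact absurd hall (lt_irrefl _)

/-- Nonvanishing in prime degree. -/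
theorem core_prime (n : ℕ) (hn : k < n) : Core n k := by
  refine ⟨fun i => ((i : ℕ) : ℂ), ?_⟩
  have h4 := aG_map (Int.castRingHom ℂ) (finRotate (2 * k + 1))
    (fun i : Fin (2 * k + 1) => XX n k ((i : ℕ) : ℤ))
  have h5 : (fun i : Fin (2 * k + 1) => ((XX n k ((i : ℕ) : ℤ)).map (Int.castRingHom ℂ))) =
      fun i : Fin (2 * k + 1) => XX n k ((i : ℕ) : ℂ) := by
    funext i
    rw [XX_map]
    simp
  rw [← h5, h4, NN_aG, eq_intCast]
  have h6 := NN_ne_zero k n hn
  have h7 : ((2 * k + 1 : ℕ) : ℤ) ≠ 0 := by positivity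
  exact_mod_cast mul_ne_zero h7 h6

end Run7.h539
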