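import Mathlib
import Pool.Agent.Run7.h539.Cyc

/-!
# Gaussian moments of quadratic forms
-/

set_option autoImplicit false
set_option linter.unusedSectionVars false

namespace Run7.h539

open MeasureTheory Equiv
open scoped ComplexConjugate

/-- The one-dimensional weighted monomial. -/
noncomputable def mono (a b : ℕ) (w : ℂ) : ℂ :=
  (conj w) ^ a * w ^ b * ((Real.exp (-‖w‖ ^ 2) : ℝ) : ℂ)

theorem integral_norm_pow (q : ℕ) : ∫ w : ℂ, ‖w‖ ^ q * Real.exp (-‖w‖ ^ 2) =
    Real.pi * Real.Gamma (((q : ℝ) + 2) / 2) := by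
  have h1 := Complex.integral_rpow_mul_exp_neg_rpow (p := 2) (q := (q : ℝ)) (by norm_num)
    (by have : (0 : ℝ) ≤ q := Nat.cast_nonneg q
        linarith)
  have h2 : (2 * Real.pi / 2 : ℝ) = Real.pi := by ring
  rw [h2] at h1
  rw [← h1]
  congr 1
  funext w
  rw [Real.rpow_natCast]
  norm_cast

theorem integrable_norm_pow (q : ℕ) :
    Integrable (fun w : ℂ => ‖w‖ ^ q * Real.exp (-‖w‖ ^ 2)) := by
  by_contra hc
  have h1 := integral_undef hc
  rw [integral_norm_pow] at h1
  have h2 : 0 < Real.pi * Real.Gamma (((q : ℝ) + 2) / 2) := by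
    refine mul_pos Real.pi_pos (Real.Gamma_pos_of_pos ?_)
    positivity
  exact h2.ne' h1

theorem continuous_mono (a b : ℕ) : Continuous (mono a b) := by
  unfold mono
  fun_prop

theorem norm_mono (a b : ℕ) (w : ℂ) :
    ‖mono a b w‖ = ‖w‖ ^ (a + b) * Real.exp (-‖w‖ ^ 2) := by
  unfold mono
  rw [norm_mul, norm_mul, norm_pow, norm_pow, RCLike.norm_conj, Complex.norm_real,
    Real.norm_of_nonneg (Real.exp_pos _).le, pow_add]

theorem integrable_mono (a b : ℕ) : Integrable (mono a b) := by
  refine Integrable.mono' (integrable_norm_pow (a + b))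
    (continuous_mono a b).aestronglyMeasurable ?_
  exact Filter.Eventually.of_forall fun w => (norm_mono a b w).le

theorem integral_mono_self (a : ℕ) : ∫ w, mono a a w = Real.pi * (a.factorial : ℂ) := by
  have h1 : ∀ w, mono a a w = ((‖w‖ ^ (2 * a) * Real.exp (-‖w‖ ^ 2) : ℝ) : ℂ) := by
    intro w
    unfold mono
    rw [← mul_pow, ← Complex.normSq_eq_conj_mul_self, Complex.normSq_eq_norm_sq]
    push_cast
    ring
  simp only [h1]
  rw [integral_complex_ofReal, integral_norm_pow]
  have h2 : (((2 * a : ℕ) : ℝ) + 2) / 2 = (a : ℝ) + 1 := by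
    push_cast
    ring
  rw [h2, Real.Gamma_nat_eq_factorial]
  push_cast
  ring

theorem integral_mono_rot (a b : ℕ) (u : Circle) :
    ∫ w, mono a b w = (conj (u : ℂ)) ^ a * (u : ℂ) ^ b * ∫ w, mono a b w := by
  have h1 := (rotation u).measurePreserving.integral_comp
    (rotation u).toHomeomorph.measurableEmbedding (mono a b)
  conv_lhs => rw [← h1]
  rw [← integral_const_mul]
  congr 1
  funext w
  unfold mono
  rw [rotation_apply, map_mul, mul_pow, mul_pow, norm_mul, Circle.norm_coe, one_mul]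
  ring

theorem integral_mono_ne (a b : ℕ) (hab : a ≠ b) : ∫ w, mono a b w = 0 := by
  have key : ∀ m : ℕ, m ≠ 0 → ((Circle.exp (Real.pi / m) : Circle) : ℂ) ^ m = -1 := by
    intro m hm
    rw [← Circle.coe_pow, ← Circle.exp_nsmul]
    have h1 : m • (Real.pi / (m : ℝ)) = Real.pi := by
      rw [nsmul_eq_mul]
      have : (m : ℝ) ≠ 0 := by exact_mod_cast hm
      field_simp
    rw [h1, Circle.coe_exp]
    exact Complex.exp_pi_mul_I
  have hcirc : ∀ u : Circle, conj (u : ℂ) * (u : ℂ) = 1 := by
    intro u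
    rw [← Complex.normSq_eq_conj_mul_self, Circle.normSq_coe]
    simp
  rcases lt_or_gt_of_ne hab with h | h
  · obtain ⟨m, rfl⟩ := Nat.exists_eq_add_of_lt h
    have h2 := integral_mono_rot a (a + m + 1) (Circle.exp (Real.pi / ((m + 1 : ℕ) : ℝ)))
    have h3 := key (m + 1) (by omega)
    set u := Circle.exp (Real.pi / ((m + 1 : ℕ) : ℝ)) with hu
    have h4 : (conj (u : ℂ)) ^ a * (u : ℂ) ^ (a + m + 1) = -1 := by
      rw [add_assoc, pow_add, ← mul_assoc, ← mul_pow, hcirc, one_pow, one_mul, h3]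
    rw [h4] at h2
    linear_combination (1 / 2) * h2
  · obtain ⟨m, rfl⟩ := Nat.exists_eq_add_of_lt h
    have h2 := integral_mono_rot (b + m + 1) b (Circle.exp (Real.pi / ((m + 1 : ℕ) : ℝ)))
    have h3 := key (m + 1) (by omega)
    set u := Circle.exp (Real.pi / ((m + 1 : ℕ) : ℝ)) with hu
    have h4 : (conj (u : ℂ)) ^ (b + m + 1) * (u : ℂ) ^ b = -1 := by
      have h5 : (conj (u : ℂ)) ^ (b + m + 1) * (u : ℂ) ^ b =
          (conj (u : ℂ) * u) ^ b * (conj ((u : ℂ) ^ (m + 1))) := by
        rw [add_assoc, pow_add, mul_pow, map_pow]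
        ring
      rw [h5, hcirc, one_pow, one_mul, h3]
      simp
    rw [h4] at h2
    linear_combination (1 / 2) * h2

theorem integral_mono (a b : ℕ) :
    ∫ w, mono a b w = if a = b then Real.pi * (a.factorial : ℂ) else 0 := by
  by_cases h : a = b
  · subst h
    rw [if_pos rfl, integral_mono_self]
  · rw [if_neg h, integral_mono_ne a b h]

/-! ### Counting -/

section

variable {I : Type*} [Fintype I] [DecidableEq I] {n : ℕ}

theorem count_perm (c e : I → Fin n) :
    ∑ π : Perm I, ∏ b, (if e b = c (π b) then (1 : ℂ) else 0) =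
      ∏ i : Fin n, (if Fintype.card {b // c b = i} = Fintype.card {b // e b = i} then
        ((Fintype.card {b // c b = i}).factorial : ℂ) else 0) := by
  classical
  have h0 : ∀ π : Perm I, ∏ b, (if e b = c (π b) then (1 : ℂ) else 0) =
      if c ∘ π = e then 1 else 0 := by
    intro π
    by_cases h : c ∘ π = e
    · rw [if_pos h]
      refine Finset.prod_eq_one fun b _ => ?_
      rw [if_pos]
      rw [← h]
      rfl
    · rw [if_neg h]
      obtain ⟨b, hb⟩ := Function.ne_iff.1 h
      refine Finset.prod_eq_zero (Finset.mem_univ b) ?_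
      rw [if_neg]
      exact fun h2 => hb h2.symm
  simp only [h0]
  rw [Finset.sum_boole]
  by_cases hc : ∀ i, Fintype.card {b // c b = i} = Fintype.card {b // e b = i}
  · rw [Finset.prod_congr rfl (fun i _ => if_pos (hc i))]
    let π₀ : Perm I := Equiv.ofFiberEquiv (f := e) (g := c)
      (fun i => Fintype.equivOfCardEq (hc i).symm)
    have hπ₀ : c ∘ π₀ = e := by
      funext b
      exact Equiv.ofFiberEquiv_map _ b
    have h1 : (Finset.univ.filter (fun π : Perm I => c ∘ π = e)).card =
        Fintype.card {g : Perm I // c ∘ g = c} := by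
      rw [← Fintype.card_subtype]
      refine Fintype.card_congr ⟨fun π => ⟨π.1 * π₀⁻¹, ?_⟩, fun g => ⟨g.1 * π₀, ?_⟩,
        fun π => Subtype.ext (by simp), fun g => Subtype.ext (by simp)⟩
      · rw [Perm.coe_mul, ← Function.comp_assoc, π.2, ← hπ₀]
        funext b
        simp
      · rw [Perm.coe_mul, ← Function.comp_assoc, g.2, hπ₀]
    rw [h1, DomMulAct.stabilizer_card]
    push_cast
    rfl
  · push Not at hc
    obtain ⟨i, hi⟩ := hc
    rw [Finset.prod_eq_zero (Finset.mem_univ i) (if_neg hi)]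
    rw [Nat.cast_eq_zero, Finset.card_eq_zero, Finset.filter_eq_empty_iff]
    intro π _ hπ
    apply hi
    symm
    refine Fintype.card_congr ⟨fun b => ⟨π b.1, ?_⟩, fun b => ⟨π.symm b.1, ?_⟩,
      fun b => Subtype.ext (by simp), fun b => Subtype.ext (by simp)⟩
    · have h1 : c (π b.1) = e b.1 := congrFun hπ b.1
      exact h1.trans b.2
    · have h1 := congrFun hπ (π.symm b.1)
      simp only [Function.comp_apply, Equiv.apply_symm_apply] at h1
      rw [← h1, b.2]

theorem prod_fiber (z : Fin n → ℂ) (c : I → Fin n) :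
    ∏ b, z (c b) = ∏ i : Fin n, z i ^ (Fintype.card {b // c b = i}) := by
  classical
  rw [← Finset.prod_fiberwise Finset.univ c]
  refine Finset.prod_congr rfl fun i _ => ?_
  rw [Finset.prod_congr rfl (fun b hb => by rw [(Finset.mem_filter.1 hb).2]),
    Finset.prod_const, Fintype.card_subtype]

/-- The Gaussian weight. -/
noncomputable def gw (z : Fin n → ℂ) : ℂ := ((Real.exp (-∑ i, ‖z i‖ ^ 2) : ℝ) : ℂ)

theorem gw_eq (z : Fin n → ℂ) : gw z = ∏ i, ((Real.exp (-‖z i‖ ^ 2) : ℝ) : ℂ) := by
  unfold gw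
  rw [← Complex.ofReal_prod, ← Real.exp_sum, Finset.sum_neg_distrib]

theorem mono_prod (c e : I → Fin n) (z : Fin n → ℂ) :
    (∏ b, conj (z (c b)) * z (e b)) * gw z =
      ∏ i : Fin n, mono (Fintype.card {b // c b = i}) (Fintype.card {b // e b = i}) (z i) := by
  rw [Finset.prod_mul_distrib, prod_fiber (fun i => conj (z i)) c, prod_fiber z e, gw_eq,
    ← Finset.prod_mul_distrib, ← Finset.prod_mul_distrib]
  rfl

theorem integral_mono_prod (c e : I → Fin n) :
    ∫ z : Fin n → ℂ, (∏ b, conj (z (c b)) * z (e b)) * gw z =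
      (Real.pi : ℂ) ^ n * ∑ τ : Perm I, ∏ b, (if e b = c (τ b) then (1 : ℂ) else 0) := by
  simp only [mono_prod]
  rw [integral_fintype_prod_volume_eq_prod (fun i => mono (Fintype.card {b // c b = i})
    (Fintype.card {b // e b = i}))]
  simp only [integral_mono]
  rw [count_perm]
  have h1 : (Real.pi : ℂ) ^ n = ∏ _i : Fin n, (Real.pi : ℂ) := by
    rw [Finset.prod_const, Finset.card_univ, Fintype.card_fin]
  rw [h1, ← Finset.prod_mul_distrib]
  refine Finset.prod_congr rfl fun i _ => ?_
  rw [mul_ite, mul_zero]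

theorem integrable_mono_prod (c e : I → Fin n) :
    Integrable (fun z : Fin n → ℂ => (∏ b, conj (z (c b)) * z (e b)) * gw z) := by
  simp only [mono_prod]
  exact Integrable.fintype_prod_dep (f := fun i => mono (Fintype.card {b // c b = i})
    (Fintype.card {b // e b = i})) (fun i => integrable_mono _ _)

/-- The quadratic form of a matrix. -/
def qf (y : Matrix (Fin n) (Fin n) ℂ) (z : Fin n → ℂ) : ℂ :=
  ∑ p, ∑ q, conj (z p) * y p q * z q

theorem prod_qf (y : I → Matrix (Fin n) (Fin n) ℂ) (z : Fin n → ℂ) :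
    (∏ b, qf (y b) z) * gw z = ∑ c : I → Fin n, ∑ e : I → Fin n, (∏ b, y b (c b) (e b)) *
      ((∏ b, conj (z (c b)) * z (e b)) * gw z) := by
  unfold qf
  rw [Finset.prod_univ_sum, Fintype.piFinset_univ, Finset.sum_mul]
  refine Finset.sum_congr rfl fun c _ => ?_
  rw [Finset.prod_univ_sum, Fintype.piFinset_univ, Finset.sum_mul]
  refine Finset.sum_congr rfl fun e _ => ?_
  rw [← mul_assoc, ← Finset.prod_mul_distrib]
  congr 1
  refine Finset.prod_congr rfl fun b _ => ?_
  ring

theorem integrable_prod_qf (y : I → Matrix (Fin n) (Fin n) ℂ) :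
    Integrable (fun z : Fin n → ℂ => (∏ b, qf (y b) z) * gw z) := by
  simp only [prod_qf]
  refine integrable_finsetSum _ fun c _ => integrable_finsetSum _ fun e _ => ?_
  exact (integrable_mono_prod c e).const_mul _

/-- **Wick formula.** -/
theorem integral_prod_qf (y : I → Matrix (Fin n) (Fin n) ℂ) :
    ∫ z : Fin n → ℂ, (∏ b, qf (y b) z) * gw z = (Real.pi : ℂ) ^ n * ∑ τ : Perm I, GG τ y := by
  simp only [prod_qf]
  rw [integral_finsetSum _ (fun c _ => integrable_finsetSum _ fun e _ =>
    (integrable_mono_prod c e).const_mul _)]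
  have h1 : ∀ c : I → Fin n, ∫ z : Fin n → ℂ, ∑ e : I → Fin n, (∏ b, y b (c b) (e b)) *
      ((∏ b, conj (z (c b)) * z (e b)) * gw z) =
      (Real.pi : ℂ) ^ n * ∑ τ : Perm I, ∏ b, y b (c b) (c (τ b)) := by
    intro c
    rw [integral_finsetSum _ (fun e _ => (integrable_mono_prod c e).const_mul _)]
    simp only [integral_const_mul, integral_mono_prod]
    rw [Finset.mul_sum]
    have h2 : ∀ e : I → Fin n, (∏ b, y b (c b) (e b)) *
        ((Real.pi : ℂ) ^ n * ∑ τ : Perm I, ∏ b, (if e b = c (τ b) then (1 : ℂ) else 0)) =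
        ∑ τ : Perm I, (Real.pi : ℂ) ^ n *
          if e = (fun b => c (τ b)) then ∏ b, y b (c b) (e b) else 0 := by
      intro e
      rw [Finset.mul_sum, Finset.mul_sum]
      refine Finset.sum_congr rfl fun τ _ => ?_
      by_cases h : e = fun b => c (τ b)
      · rw [if_pos h]
        have h3 : ∏ b, (if e b = c (τ b) then (1 : ℂ) else 0) = 1 :=
          Finset.prod_eq_one fun b _ => if_pos (congrFun h b)
        rw [h3]
        ring
      · rw [if_neg h]
        obtain ⟨b, hb⟩ := Function.ne_iff.1 h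
        have h3 : ∏ b, (if e b = c (τ b) then (1 : ℂ) else 0) = 0 :=
          Finset.prod_eq_zero (Finset.mem_univ b) (if_neg hb)
        rw [h3]
        ring
    rw [Finset.sum_congr rfl (fun e _ => h2 e), Finset.sum_comm]
    refine Finset.sum_congr rfl fun τ _ => ?_
    rw [← Finset.mul_sum, Finset.sum_ite_eq' Finset.univ (fun b => c (τ b)),
      if_pos (Finset.mem_univ _)]
  simp only [h1]
  rw [← Finset.mul_sum]
  congr 1
  rw [Finset.sum_comm]
  rfl

end

end Run7.h539
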