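import Mathlib
import Pool.Agent.Run7.h539.Pos2
import Pool.Agent.Run7.h539.Wick
import Pool.Agent.Run7.h539.PrimeAll

/-!
# Nonvanishing in top degree
-/

set_option autoImplicit false
set_option linter.unusedSectionVars false

namespace Run7.h539

open Equiv Finset MeasureTheory
open scoped ComplexConjugate

variable {k : ℕ}

/-- The normalised rank one matrices. -/
noncomputable def YM (k : ℕ) (t : ℂ) : Matrix (Fin (k + 1)) (Fin (k + 1)) ℂ :=
  fun a b => (sq k a * (-t) ^ (k - (a : ℕ))) * (sq k b * t ^ (b : ℕ))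

theorem qf_rank_one (k : ℕ) (t u c : ℂ) (z : Fin (k + 1) → ℂ) :
    qf (fun a b => c * ((sq k a * (-t) ^ (k - (a : ℕ))) * (sq k b * u ^ (b : ℕ)))) z =
      gz z t * c * fz z u := by
  unfold qf gz fz
  rw [Finset.sum_mul, Finset.sum_mul]
  refine Finset.sum_congr rfl fun a _ => ?_
  rw [Finset.mul_sum]
  refine Finset.sum_congr rfl fun b _ => ?_
  ring

theorem qf_YM (t : ℂ) (z : Fin (k + 1) → ℂ) : qf (YM k t) z = gz z t * fz z t := by
  have h1 := qf_rank_one k t t 1 z
  rw [mul_one] at h1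
  rw [← h1]
  congr 1
  ext a b
  unfold YM
  ring

theorem YM_mul (t u : ℂ) : YM k t * YM k u =
    fun a b : Fin (k + 1) =>
      (t - u) ^ k * ((sq k a * (-t) ^ (k - (a : ℕ))) * (sq k b * u ^ (b : ℕ))) := by
  ext a b
  rw [Matrix.mul_apply, sub_eq_add_neg, add_pow]
  rw [← Fin.sum_univ_eq_sum_range (fun c => t ^ c * (-u) ^ (k - c) * ((k.choose c : ℕ) : ℂ)) (k + 1)]
  rw [Finset.sum_mul]
  refine Finset.sum_congr rfl fun c _ => ?_
  unfold YM
  rw [← sq_mul_self]
  ring

theorem qf_YM_mul (t u : ℂ) (z : Fin (k + 1) → ℂ) :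
    qf (YM k t * YM k u) z = gz z t * (t - u) ^ k * fz z u := by
  rw [YM_mul, qf_rank_one]

theorem Om_fz (t : Option (Fin k × Bool) → ℂ) (z : Fin (k + 1) → ℂ) :
    Om (fz z) (gz z) t = ∑ σ : Perm (Option (Fin k × Bool)), ((Perm.sign σ : ℤ) : ℂ) *
      ∏ b : Option (Fin k), qf (pr (fun j => YM k (t (σ j))) b) z := by
  unfold Om
  refine Finset.sum_congr rfl fun σ _ => ?_
  congr 1
  rw [Fintype.prod_option]
  congr 1
  · exact (qf_YM _ _).symm
  · refine Finset.prod_congr rfl fun l _ => ?_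
    exact (qf_YM_mul _ _ _).symm

theorem integrable_Om (t : Option (Fin k × Bool) → ℂ) :
    Integrable (fun z : Fin (k + 1) → ℂ => Om (fz z) (gz z) t * gw z) := by
  simp only [Om_fz, Finset.sum_mul, mul_assoc]
  exact integrable_finsetSum _ fun σ _ => (integrable_prod_qf _).const_mul _

theorem integral_Om (t : Option (Fin k × Bool) → ℂ) :
    ∫ z : Fin (k + 1) → ℂ, Om (fz z) (gz z) t * gw z =
      (Real.pi : ℂ) ^ (k + 1) * ∑ τ : Perm (Option (Fin k)), aG (nu τ) (fun j => YM k (t j)) := by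
  simp only [Om_fz, Finset.sum_mul, mul_assoc]
  rw [integral_finsetSum _ fun σ _ => (integrable_prod_qf _).const_mul _]
  simp only [integral_const_mul, integral_prod_qf, GG_pr]
  unfold aG
  rw [Finset.mul_sum]
  simp only [Finset.mul_sum]
  rw [Finset.sum_comm]
  refine Finset.sum_congr rfl fun τ _ => Finset.sum_congr rfl fun σ _ => ?_
  ring

theorem integral_Om_ne_zero (k : ℕ) :
    ∫ z : Fin (k + 1) → ℂ, Om (fz z) (gz z) (tst k) * gw z ≠ 0 := by
  have h1 : ∀ z : Fin (k + 1) → ℂ, Om (fz z) (gz z) (tst k) * gw z =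
      VV (tst k) * (Cz z * gw z) := by
    intro z
    unfold Cz
    have := VV_tst (k := k)
    field_simp
  have hint : Integrable (fun z : Fin (k + 1) → ℂ => Cz z * gw z) := by
    have h2 := (integrable_Om (tst k)).const_mul (VV (tst k))⁻¹
    convert h2 using 2 with z
    rw [h1, ← mul_assoc, inv_mul_cancel₀ VV_tst, one_mul]
  simp only [h1]
  rw [integral_const_mul]
  refine mul_ne_zero VV_tst ?_
  intro h0
  have h2 : ∀ z : Fin (k + 1) → ℂ, (Cz z * gw z).re = (Cz z).re * Real.exp (-∑ i, ‖z i‖ ^ 2) := by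
    intro z
    unfold gw
    rw [Complex.re_mul_ofReal]
  have h3 : ∫ z : Fin (k + 1) → ℂ, (Cz z).re * Real.exp (-∑ i, ‖z i‖ ^ 2) = 0 := by
    simp only [← h2]
    have h4 : ∫ z : Fin (k + 1) → ℂ, (Cz z * gw z).re = (∫ z : Fin (k + 1) → ℂ, Cz z * gw z).re :=
      integral_re hint
    rw [h4, h0, Complex.zero_re]
  have hint2 : Integrable (fun z : Fin (k + 1) → ℂ => (Cz z).re * Real.exp (-∑ i, ‖z i‖ ^ 2)) := by
    simp only [← h2]
    exact hint.re
  have hnn : 0 ≤ (fun z : Fin (k + 1) → ℂ => (Cz z).re * Real.exp (-∑ i, ‖z i‖ ^ 2)) := by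
    intro z
    exact mul_nonneg (Cz_nonneg z).1 (Real.exp_pos _).le
  have h4 := (integral_pos_iff_support_of_nonneg hnn hint2).2 ?_
  · exact h4.ne' h3
  · obtain ⟨z, hz⟩ := exists_Cz_pos k
    refine IsOpen.measure_pos _ ?_ ⟨z, ?_⟩
    · refine Continuous.isOpen_support ?_
      exact (Complex.continuous_re.comp continuous_Cz).mul (by fun_prop)
    · rw [Function.mem_support]
      exact (mul_pos hz (Real.exp_pos _)).ne'

theorem aG_YM_ne_zero {π₀ : Perm (Option (Fin k))} (h₀ : Full π₀) :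
    aG (nu π₀) (fun j => YM k (tst k j)) ≠ 0 := by
  classical
  intro h
  apply integral_Om_ne_zero k
  rw [integral_Om, Finset.sum_eq_zero, mul_zero]
  intro π _
  by_cases hπ : Full π
  · rw [aG_nu_eq h₀ hπ, h]
  · exact aG_nu_eq_zero hπ _

/-! ### Comparison of the two normalisations -/

theorem XX_top (t : ℂ) (a b : Fin (k + 1)) : (XX (k + 1) k t : Matrix _ _ ℂ) a b =
    ((k.choose (a : ℕ) : ℕ) : ℂ) * (-t) ^ (k - (a : ℕ)) * t ^ (b : ℕ) := by
  unfold XX
  rw [Matrix.mul_assoc, Matrix.mul_apply, Finset.sum_eq_single (Fin.last k)]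
  · rw [Matrix.mul_apply, Finset.sum_eq_single 0]
    · unfold UU FF
      simp
    · intro j _ hj
      unfold FF
      have h1 : (j : ℕ) ≠ 0 := fun h => hj (Fin.ext h)
      rw [if_neg (by simp only [Fin.val_last]; omega), zero_mul]
    · intro h
      exact absurd (Finset.mem_univ _) h
  · intro i _ hi
    rw [Matrix.mul_apply, Finset.sum_eq_zero, mul_zero]
    intro j _
    unfold FF
    have h1 : (i : ℕ) ≠ k := fun h => hi (Fin.ext h)
    rw [if_neg (by have := i.2; omega), zero_mul]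
  · intro h
    exact absurd (Finset.mem_univ _) h

theorem XX_eq_conj (t : ℂ) : (XX (k + 1) k t : Matrix _ _ ℂ) =
    Matrix.diagonal (fun a : Fin (k + 1) => sq k a) * YM k t *
      Matrix.diagonal (fun a : Fin (k + 1) => (sq k a)⁻¹) := by
  ext a b
  rw [XX_top, Matrix.mul_diagonal, Matrix.diagonal_mul]
  unfold YM
  have h1 := sq_ne_zero k b
  rw [← sq_mul_self]
  field_simp

/-- **Nonvanishing in top degree.** -/
theorem core_top (k : ℕ) : Core (k + 1) k := by
  let π₀ : Perm (Option (Fin k)) := (finSuccEquiv k).permCongr (finRotate (k + 1))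
  have h₀ : Full π₀ := (full_finRotate k).permCongr _
  have h1 := aG_YM_ne_zero h₀
  have h2 : aG (nu π₀) (fun j => XX (k + 1) k (tst k j)) ≠ 0 := by
    simp only [XX_eq_conj]
    rw [aG_conj_matrix]
    · exact h1
    · rw [Matrix.diagonal_mul_diagonal, ← Matrix.diagonal_one]
      congr 1
      funext a
      exact inv_mul_cancel₀ (sq_ne_zero k a)
  have hcard : Fintype.card (Fin (2 * k + 1)) = Fintype.card (Option (Fin k × Bool)) := by
    rw [Fintype.card_fin, Fintype.card_option, Fintype.card_prod, Fintype.card_fin,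
      Fintype.card_bool, mul_comm]
  let e' : Fin (2 * k + 1) ≃ Option (Fin k × Bool) := Fintype.equivOfCardEq hcard
  refine ⟨fun i => tst k (e' i), fun h3 => h2 ?_⟩
  obtain ⟨T, hT⟩ := ((full_finRotate (2 * k)).permCongr e').isConj (full_nu h₀)
  rw [hT, aG_conj, aG_permCongr, h3, mul_zero]

end Run7.h539
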