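import Mathlib
import Pool.Agent.Run7.h539.Top
import Pool.Agent.Run7.h539.Fam2

/-!
# Nonvanishing for almost all sizes
-/

set_option autoImplicit false
set_option linter.unusedSectionVars false

namespace Run7.h539

open Equiv

theorem core_of_nu (n k : ℕ) (t : Option (Fin k × Bool) → ℂ)
    (h : aG (nu (pi0 k)) (fun j => XX n k (t j)) ≠ 0) : Core n k := by
  have hcard : Fintype.card (Fin (2 * k + 1)) = Fintype.card (Option (Fin k × Bool)) := by
    rw [Fintype.card_fin, Fintype.card_option, Fintype.card_prod, Fintype.card_fin,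
      Fintype.card_bool, mul_comm]
  let e' : Fin (2 * k + 1) ≃ Option (Fin k × Bool) := Fintype.equivOfCardEq hcard
  refine ⟨fun i => t (e' i), fun h3 => h ?_⟩
  obtain ⟨T, hT⟩ := ((full_finRotate (2 * k)).permCongr e').isConj (full_nu (full_pi0 k))
  rw [hT, aG_conj, aG_permCongr, h3, mul_zero]

theorem aG_top_ne_zero (k : ℕ) : aG (nu (pi0 k)) (fun j => XX (k + 1) k (tst k j)) ≠ 0 := by
  simp only [XX_eq_conj]
  rw [aG_conj_matrix]
  · exact aG_YM_ne_zero (full_pi0 k)
  · rw [Matrix.diagonal_mul_diagonal, ← Matrix.diagonal_one]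
    congr 1
    funext a
    exact inv_mul_cancel₀ (sq_ne_zero k a)

theorem GG_zero {N I : Type*} [Fintype N] [DecidableEq N] [Fintype I] [DecidableEq I]
    (ν : Perm I) (i : I) : GG ν (fun _ : I => (0 : Matrix N N ℂ)) = 0 := by
  unfold GG
  exact Finset.sum_eq_zero fun c _ => Finset.prod_eq_zero (Finset.mem_univ i) rfl

/-- For given `k`, the nonvanishing holds for all but at most `k (k - 1)` values of `n`. -/
theorem core_almost (k : ℕ) : ∃ S : Finset ℕ, S.card ≤ k * (k - 1) ∧
    ∀ n, k < n → n ∉ S → Core n k := by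
  classical
  obtain ⟨Q, hQd, hQe, hQn⟩ := good_nu k (tst k)
  simp only at hQe hQn
  have hQ0 : Q ≠ 0 := by
    intro h
    have h1 := hQe (k + 1)
    rw [h, Polynomial.eval_zero] at h1
    exact aG_top_ne_zero k h1.symm
  have hfin : {n : ℕ | k < n ∧ Q.eval (n : ℂ) = 0}.Finite := by
    refine Set.Finite.subset ((Polynomial.rootSet_finite Q ℂ).preimage
      (f := fun n : ℕ => (n : ℂ)) (fun a _ b _ h => Nat.cast_injective h)) ?_
    rintro n ⟨_, hn⟩
    simp [Polynomial.mem_rootSet, hQ0, hn]
  refine ⟨hfin.toFinset, ?_, fun n hkn hn => ?_⟩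
  · set S := hfin.toFinset with hS
    have hSm : ∀ n, n ∈ S ↔ k < n ∧ Q.eval (n : ℂ) = 0 := by
      intro n
      rw [hS, Set.Finite.mem_toFinset]
      rfl
    let A1 : Finset ℤ := Finset.Icc (-(k : ℤ)) k
    let A2 : Finset ℤ := S.image (fun n : ℕ => (n : ℤ))
    let A3 : Finset ℤ := S.image (fun n : ℕ => -(n : ℤ))
    have hd1 : Disjoint A1 A2 := by
      rw [Finset.disjoint_left]
      intro x h1 h2
      obtain ⟨n, hn, rfl⟩ := Finset.mem_image.1 h2
      have h3 := (Finset.mem_Icc.1 h1).2
      have h4 := ((hSm n).1 hn).1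
      omega
    have hd2 : Disjoint (A1 ∪ A2) A3 := by
      rw [Finset.disjoint_left]
      intro x h1 h2
      obtain ⟨n, hn, rfl⟩ := Finset.mem_image.1 h2
      have h4 := ((hSm n).1 hn).1
      rcases Finset.mem_union.1 h1 with h3 | h3
      · have h5 := (Finset.mem_Icc.1 h3).1
        omega
      · obtain ⟨n', hn', h5⟩ := Finset.mem_image.1 h3
        have h6 := ((hSm n').1 hn').1
        omega
    have hc : (A1 ∪ A2 ∪ A3).card = 2 * k + 1 + S.card + S.card := by
      rw [Finset.card_union_of_disjoint hd2, Finset.card_union_of_disjoint hd1]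
      have c1 : A1.card = 2 * k + 1 := by
        simp only [A1, Int.card_Icc]
        omega
      have c2 : A2.card = S.card := Finset.card_image_of_injective _ Nat.cast_injective
      have c3 : A3.card = S.card := Finset.card_image_of_injective _ (fun a b h => by
        simpa using h)
      rw [c1, c2, c3]
    have hroot : ∀ n : ℕ, n ≤ k → Q.eval (n : ℂ) = 0 := by
      intro n hn
      rw [hQe]
      unfold aG
      refine Finset.sum_eq_zero fun σ _ => ?_
      simp only [XX_eq_zero n k hn]
      rw [GG_zero _ none, mul_zero]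
    have hsub : (A1 ∪ A2 ∪ A3).image (fun z : ℤ => (z : ℂ)) ⊆ Q.roots.toFinset := by
      intro x hx
      obtain ⟨z, hz, rfl⟩ := Finset.mem_image.1 hx
      rw [Multiset.mem_toFinset, Polynomial.mem_roots hQ0]
      unfold Polynomial.IsRoot
      rcases Finset.mem_union.1 hz with hz | hz
      · rcases Finset.mem_union.1 hz with hz | hz
        · have hz := Finset.mem_Icc.1 hz
          rcases le_total 0 z with h0 | h0
          · obtain ⟨n, rfl⟩ := Int.eq_ofNat_of_zero_le h0
            simpa using hroot n (by omega)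
          · obtain ⟨n, hn⟩ := Int.eq_ofNat_of_zero_le (neg_nonneg.2 h0)
            have h1 : z = -(n : ℤ) := by omega
            rw [h1]
            push_cast
            rw [hQn, ← hQe, hroot n (by omega), neg_zero]
        · obtain ⟨n, hn, rfl⟩ := Finset.mem_image.1 hz
          simpa using ((hSm n).1 hn).2
      · obtain ⟨n, hn, rfl⟩ := Finset.mem_image.1 hz
        push_cast
        rw [hQn, ← hQe, ((hSm n).1 hn).2, neg_zero]
    have h1 := Finset.card_le_card hsub
    rw [Finset.card_image_of_injective _ Int.cast_injective, hc] at h1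
    have h2 := (Multiset.toFinset_card_le Q.roots).trans (Polynomial.card_roots' Q)
    have h3 : 2 * k + 1 + S.card + S.card ≤ 2 * k ^ 2 + 1 := (h1.trans h2).trans hQd
    rcases k with _ | k
    · simp only [Nat.mul_zero, zero_pow, ne_eq, OfNat.ofNat_ne_zero, not_false_eq_true] at h3
      omega
    · rw [Nat.add_sub_cancel]
      nlinarith
  · refine core_of_nu n k (tst k) ?_
    intro h0
    apply hn
    rw [Set.Finite.mem_toFinset]
    exact ⟨hkn, by rw [hQe, h0]⟩

end Run7.h539
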