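import Mathlib

/-!
# The submodule generated by a primitive vector
-/

set_option autoImplicit false
set_option linter.unusedSectionVars false

namespace Run7.h539

open LieModule Module

section

variable {L : Type*} [LieRing L] [LieAlgebra ℂ L] {M : Type*} [AddCommGroup M] [Module ℂ M]
  [LieRingModule L M] [LieModule ℂ L M] [FiniteDimensional ℂ M] {h e f : L}

/-- The iterates of `f` on `m`. -/
def psi (f : L) (m : M) (j : ℕ) : M := ((toEnd ℂ L M f) ^ j) m

theorem psi_succ (f : L) (m : M) (j : ℕ) : psi f m (j + 1) = ⁅f, psi f m j⁆ := by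
  simp [psi, pow_succ']

theorem psi_zero (f : L) (m : M) : psi f m 0 = m := by simp [psi]

theorem linearIndependent_psi (t : IsSl2Triple h e f) {m : M} {N : ℕ}
    (P : t.HasPrimitiveVectorWith m (N : ℂ)) :
    LinearIndependent ℂ (fun j : Fin (N + 1) => psi f m (j : ℕ)) := by
  refine Module.End.eigenvectors_linearIndependent' (toEnd ℂ L M h)
    (fun j : Fin (N + 1) => (N : ℂ) - 2 * ((j : ℕ) : ℂ)) ?_ _ ?_
  · intro i j hij
    simp only at hij
    have h1 : ((i : ℕ) : ℂ) = ((j : ℕ) : ℂ) := by linear_combination (-1 / 2) * hij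
    exact Fin.ext (by exact_mod_cast h1)
  · intro j
    rw [Module.End.hasEigenvector_iff, Module.End.mem_eigenspace_iff]
    refine ⟨?_, ?_⟩
    · rw [toEnd_apply_apply]
      exact P.lie_h_pow_toEnd_f (j : ℕ)
    · exact P.pow_toEnd_f_ne_zero_of_eq_nat rfl (by have := j.2; omega)

/-- The span of the iterates. -/
def Vspan (f : L) (m : M) (N : ℕ) : Submodule ℂ M :=
  Submodule.span ℂ (Set.range (fun j : Fin N => psi f m (j : ℕ)))

theorem psi_mem_Vspan (f : L) (m : M) {N j : ℕ} (hj : j < N) : psi f m j ∈ Vspan f m N :=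
  Submodule.subset_span ⟨⟨j, hj⟩, rfl⟩

theorem Vspan_mono (f : L) (m : M) {N N' : ℕ} (h : N ≤ N') : Vspan f m N ≤ Vspan f m N' := by
  refine Submodule.span_le.2 ?_
  rintro _ ⟨j, rfl⟩
  exact psi_mem_Vspan f m (lt_of_lt_of_le j.2 h)

theorem finrank_Vspan (t : IsSl2Triple h e f) {m : M} {N : ℕ}
    (P : t.HasPrimitiveVectorWith m (N : ℂ)) : finrank ℂ (Vspan f m (N + 1)) = N + 1 := by
  have h1 := finrank_span_eq_card (linearIndependent_psi t P)
  rw [Fintype.card_fin] at h1
  exact h1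

theorem lie_e_Vspan (t : IsSl2Triple h e f) {m : M} {N : ℕ}
    (P : t.HasPrimitiveVectorWith m (N : ℂ)) (j : ℕ) (v : M) (hv : v ∈ Vspan f m (j + 1)) :
    ⁅e, v⁆ ∈ Vspan f m j := by
  unfold Vspan at hv
  induction hv using Submodule.span_induction with
  | mem v hv =>
    obtain ⟨i, rfl⟩ := hv
    simp only
    rcases hi : (i : ℕ) with _ | i'
    · rw [psi_zero, P.lie_e]
      exact Submodule.zero_mem _
    · have h1 := P.lie_e_pow_succ_toEnd_f i'
      change ⁅e, psi f m (i' + 1)⁆ = _ • psi f m i' at h1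
      rw [h1]
      exact Submodule.smul_mem _ _ (psi_mem_Vspan f m (by have := i.2; omega))
  | zero =>
    rw [lie_zero]
    exact Submodule.zero_mem _
  | add x y _ _ hx hy =>
    rw [lie_add]
    exact Submodule.add_mem _ hx hy
  | smul a x _ hx =>
    rw [lie_smul]
    exact Submodule.smul_mem _ _ hx

theorem lie_h_Vspan (t : IsSl2Triple h e f) {m : M} {N : ℕ}
    (P : t.HasPrimitiveVectorWith m (N : ℂ)) (j : ℕ) (v : M) (hv : v ∈ Vspan f m j) :
    ⁅h, v⁆ ∈ Vspan f m j := by
  unfold Vspan at hv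
  induction hv using Submodule.span_induction with
  | mem v hv =>
    obtain ⟨i, rfl⟩ := hv
    have h1 := P.lie_h_pow_toEnd_f (i : ℕ)
    change ⁅h, psi f m (i : ℕ)⁆ = _ • psi f m (i : ℕ) at h1
    simp only
    rw [h1]
    exact Submodule.smul_mem _ _ (psi_mem_Vspan f m i.2)
  | zero =>
    rw [lie_zero]
    exact Submodule.zero_mem _
  | add x y _ _ hx hy =>
    rw [lie_add]
    exact Submodule.add_mem _ hx hy
  | smul a x _ hx =>
    rw [lie_smul]
    exact Submodule.smul_mem _ _ hx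

theorem lie_f_Vspan (t : IsSl2Triple h e f) {m : M} {N : ℕ}
    (P : t.HasPrimitiveVectorWith m (N : ℂ)) (v : M) (hv : v ∈ Vspan f m (N + 1)) :
    ⁅f, v⁆ ∈ Vspan f m (N + 1) := by
  unfold Vspan at hv
  induction hv using Submodule.span_induction with
  | mem v hv =>
    obtain ⟨i, rfl⟩ := hv
    simp only
    rw [← psi_succ]
    by_cases hi : (i : ℕ) = N
    · have h1 := P.pow_toEnd_f_eq_zero_of_eq_nat rfl
      change psi f m (N + 1) = 0 at h1
      rw [hi, h1]
      exact Submodule.zero_mem _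
    · exact psi_mem_Vspan f m (by have := i.2; omega)
  | zero =>
    rw [lie_zero]
    exact Submodule.zero_mem _
  | add x y _ _ hx hy =>
    rw [lie_add]
    exact Submodule.add_mem _ hx hy
  | smul a x _ hx =>
    rw [lie_smul]
    exact Submodule.smul_mem _ _ hx

theorem Vspan_succ (f : L) (m : M) (j : ℕ) (v : M) (hv : v ∈ Vspan f m (j + 1)) :
    ∃ (c : ℂ) (u : M), u ∈ Vspan f m j ∧ v = u + c • psi f m j := by
  unfold Vspan at hv
  induction hv using Submodule.span_induction with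
  | mem v hv =>
    obtain ⟨i, rfl⟩ := hv
    by_cases hi : (i : ℕ) = j
    · exact ⟨1, 0, Submodule.zero_mem _, by simp [hi]⟩
    · exact ⟨0, psi f m (i : ℕ), psi_mem_Vspan f m (by have := i.2; omega), by simp⟩
  | zero => exact ⟨0, 0, Submodule.zero_mem _, by simp⟩
  | add x y _ _ hx hy =>
    obtain ⟨c, u, hu, rfl⟩ := hx
    obtain ⟨c', u', hu', rfl⟩ := hy
    exact ⟨c + c', u + u', Submodule.add_mem _ hu hu', by rw [add_smul]; abel⟩
  | smul a x _ hx =>
    obtain ⟨c, u, hu, rfl⟩ := hx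
    exact ⟨a * c, a • u, Submodule.smul_mem _ _ hu, by rw [smul_add, smul_smul]⟩

theorem psi_not_mem (t : IsSl2Triple h e f) {m : M} {N : ℕ}
    (P : t.HasPrimitiveVectorWith m (N : ℂ)) (j : ℕ) (hj : j ≤ N) :
    psi f m j ∉ Vspan f m j := by
  intro hmem
  have h1 := (linearIndependent_psi t P).notMem_span_image (s := {i : Fin (N + 1) | (i : ℕ) < j})
    (x := ⟨j, by omega⟩) (by simp)
  apply h1
  refine Submodule.span_mono ?_ hmem
  rintro _ ⟨i, rfl⟩
  exact ⟨⟨(i : ℕ), by have := i.2; omega⟩, i.2, rfl⟩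

theorem mem_of_stable (t : IsSl2Triple h e f) {m : M} {N : ℕ}
    (P : t.HasPrimitiveVectorWith m (N : ℂ)) (W : Submodule ℂ M) (hW : ∀ w ∈ W, ⁅e, w⁆ ∈ W) :
    ∀ (j : ℕ), j ≤ N + 1 → ∀ w ∈ W, w ∈ Vspan f m j → w ≠ 0 → m ∈ W := by
  intro j
  induction j with
  | zero =>
    intro _ w _ hw h0
    exfalso
    apply h0
    have h1 : Vspan f m 0 = ⊥ := by
      unfold Vspan
      rw [Submodule.span_eq_bot]
      rintro _ ⟨i, rfl⟩
      exact i.elim0
    rw [h1] at hw
    exact (Submodule.mem_bot ℂ).1 hw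
  | succ j ih =>
    intro hj w hwW hwV h0
    obtain ⟨c, u, hu, hw⟩ := Vspan_succ f m j w hwV
    by_cases hc : c = 0
    · rw [hc, zero_smul, add_zero] at hw
      rw [hw] at hwW h0
      exact ih (by omega) u hwW hu h0
    · rcases j with _ | j
      · have h1 : Vspan f m 0 = ⊥ := by
          unfold Vspan
          rw [Submodule.span_eq_bot]
          rintro _ ⟨i, rfl⟩
          exact i.elim0
        rw [h1] at hu
        rw [(Submodule.mem_bot ℂ).1 hu, zero_add, psi_zero] at hw
        have h2 : m = c⁻¹ • w := by rw [hw, smul_smul, inv_mul_cancel₀ hc, one_smul]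
        rw [h2]
        exact Submodule.smul_mem _ _ hwW
      · refine ih (by omega) ⁅e, w⁆ (hW w hwW) (lie_e_Vspan t P (j + 1) w hwV) ?_
        intro h2
        rw [hw, lie_add, lie_smul] at h2
        have h3 := P.lie_e_pow_succ_toEnd_f j
        change ⁅e, psi f m (j + 1)⁆ = _ • psi f m j at h3
        rw [h3, smul_smul] at h2
        have h4 := lie_e_Vspan t P j u hu
        apply psi_not_mem t P j (by omega)
        have h5 : (c * (((j : ℂ) + 1) * ((N : ℂ) - j))) ≠ 0 := by
          refine mul_ne_zero hc (mul_ne_zero ?_ ?_)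
          · exact_mod_cast Nat.succ_ne_zero j
          · rw [sub_ne_zero]
            intro h6
            have h7 : N = j := by exact_mod_cast h6
            omega
        have h6 : psi f m j = (c * (((j : ℂ) + 1) * ((N : ℂ) - j)))⁻¹ • (-⁅e, u⁆) := by
          rw [eq_comm, inv_smul_eq_iff₀ h5]
          rw [eq_comm]
          exact (eq_neg_of_add_eq_zero_right h2)
        rw [h6]
        exact Submodule.smul_mem _ _ (Submodule.neg_mem _ h4)

theorem Vspan_irreducible (t : IsSl2Triple h e f) {m : M} {N : ℕ}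
    (P : t.HasPrimitiveVectorWith m (N : ℂ)) (W : Submodule ℂ M) (hWV : W ≤ Vspan f m (N + 1))
    (hWe : ∀ w ∈ W, ⁅e, w⁆ ∈ W) (hWf : ∀ w ∈ W, ⁅f, w⁆ ∈ W) :
    W = ⊥ ∨ W = Vspan f m (N + 1) := by
  by_cases hW : W = ⊥
  · exact Or.inl hW
  · right
    obtain ⟨w, hwW, hw0⟩ := Submodule.exists_mem_ne_zero_of_ne_bot hW
    have hm := mem_of_stable t P W hWe (N + 1) le_rfl w hwW (hWV hwW) hw0
    refine le_antisymm hWV ?_
    refine Submodule.span_le.2 ?_
    rintro _ ⟨i, rfl⟩
    have h1 : ∀ j : ℕ, psi f m j ∈ W := by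
      intro j
      induction j with
      | zero => rwa [psi_zero]
      | succ j ih =>
        rw [psi_succ]
        exact hWf _ ih
    exact h1 i

end

end Run7.h539
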