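import Mathlib
import Pool.Agent.Run7.h539.Irr
import Pool.Agent.Run7.h539.Mats

/-!
# Regular nilpotent elements and the standard triple
-/

set_option autoImplicit false
set_option linter.unusedSectionVars false

namespace Run7.h539

open Module

section

variable {M : Type*} [AddCommGroup M] [Module ℂ M] [FiniteDimensional ℂ M]

theorem comm_pow (H E : Module.End ℂ M) (hHE : H * E - E * H = (2 : ℂ) • E) (j : ℕ) :
    H * E ^ j - E ^ j * H = (2 * (j : ℂ)) • E ^ j := by
  induction j with
  | zero => simp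
  | succ j ih =>
    have h1 : H * E ^ (j + 1) - E ^ (j + 1) * H =
        (H * E ^ j - E ^ j * H) * E + E ^ j * (H * E - E * H) := by
      rw [pow_succ]
      noncomm_ring
    rw [h1, ih, hHE, smul_mul_assoc, mul_smul_comm, ← pow_succ, ← add_smul]
    congr 1
    push_cast
    ring

theorem isNilpotent_of_comm (H E : Module.End ℂ M) (hHE : H * E - E * H = (2 : ℂ) • E) :
    IsNilpotent E := by
  by_contra hc
  have h1 : ∀ j : ℕ, E ^ j ≠ 0 := fun j hj => hc ⟨j, hj⟩
  have h2 : LinearIndependent ℂ (fun j : ℕ => E ^ j) := by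
    refine Module.End.eigenvectors_linearIndependent'
      (LinearMap.mulLeft ℂ H - LinearMap.mulRight ℂ H) (fun j : ℕ => 2 * (j : ℂ)) ?_ _ ?_
    · intro i j hij
      simp only at hij
      have h3 : (i : ℂ) = (j : ℂ) := by linear_combination (1 / 2) * hij
      exact_mod_cast h3
    · intro j
      rw [Module.End.hasEigenvector_iff, Module.End.mem_eigenspace_iff]
      exact ⟨comm_pow H E hHE j, h1 j⟩
  have h3 := h2.finite_of_isNoetherian
  exact not_finite ℕ

theorem pow_finrank_eq_zero (E : Module.End ℂ M) (hE : IsNilpotent E) :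
    E ^ finrank ℂ M = 0 := by
  have h1 := LinearMap.aeval_self_charpoly E
  rw [hE.charpoly_eq_X_pow_finrank] at h1
  simpa using h1

theorem li_iter (E : Module.End ℂ M) (n : ℕ) (hE : E ^ n = 0) (w : M)
    (hw : (E ^ (n - 1)) w ≠ 0) : LinearIndependent ℂ (fun j : Fin n => (E ^ (j : ℕ)) w) := by
  rw [Fintype.linearIndependent_iff]
  intro g hg
  have hz : ∀ m, n ≤ m → (E ^ m) w = 0 := by
    intro m hm
    obtain ⟨r, rfl⟩ := Nat.exists_eq_add_of_le hm
    rw [add_comm, pow_add, hE, mul_zero]
    rfl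
  have key : ∀ (m : ℕ) (i : Fin n), (i : ℕ) = m → g i = 0 := by
    intro m
    induction m using Nat.strong_induction_on with
    | _ m ih =>
      intro i him
      have h1 := congrArg (fun x => (E ^ (n - 1 - m)) x) hg
      simp only [map_sum, map_smul, map_zero] at h1
      rw [Finset.sum_eq_single i] at h1
      · rw [← Module.End.mul_apply, ← pow_add] at h1
        have h2 : n - 1 - m + (i : ℕ) = n - 1 := by
          have := i.2
          omega
        rw [h2] at h1
        exact (smul_eq_zero.1 h1).resolve_right hw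
      · intro j _ hj
        rcases lt_trichotomy (j : ℕ) m with h2 | h2 | h2
        · rw [ih (j : ℕ) h2 j rfl, zero_smul]
        · exact absurd (Fin.ext (h2.trans him.symm)) hj
        · rw [← Module.End.mul_apply, ← pow_add, hz _ (by omega), smul_zero]
      · intro h2
        exact absurd (Finset.mem_univ _) h2
  exact fun i => key i i rfl

theorem weight_eq (H E : Module.End ℂ M) (n : ℕ) (hn : 1 ≤ n)
    (hHE : H * E - E * H = (2 : ℂ) • E) (hE : E ^ n = 0)
    (w : M) (hw : (E ^ (n - 1)) w ≠ 0) (hfin : finrank ℂ M = n)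
    (htr : LinearMap.trace ℂ M H = 0) :
    H ((E ^ (n - 1)) w) = ((n - 1 : ℕ) : ℂ) • (E ^ (n - 1)) w := by
  have hli := li_iter E n hE w hw
  have hz : ∀ m, n ≤ m → (E ^ m) w = 0 := by
    intro m hm
    obtain ⟨r, rfl⟩ := Nat.exists_eq_add_of_le hm
    rw [add_comm, pow_add, hE, mul_zero]
    rfl
  have : Nonempty (Fin n) := ⟨⟨0, hn⟩⟩
  let b := basisOfLinearIndependentOfCardEqFinrank hli (by rw [Fintype.card_fin, hfin])
  have hb : ∀ j, b j = (E ^ (j : ℕ)) w := fun j => by
    simp [b, coe_basisOfLinearIndependentOfCardEqFinrank]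
  let z0 : Fin n := ⟨0, hn⟩
  have hH : H w = ∑ i : Fin n, (b.repr (H w) i) • (E ^ (i : ℕ)) w := by
    conv_lhs => rw [← b.sum_repr (H w)]
    simp only [hb]
  have h1 : ∀ j : ℕ, H ((E ^ j) w) = (E ^ j) (H w) + (2 * (j : ℂ)) • (E ^ j) w := by
    intro j
    have h2 := congrArg (fun T : Module.End ℂ M => T w) (comm_pow H E hHE j)
    simp only [LinearMap.sub_apply, Module.End.mul_apply, LinearMap.smul_apply] at h2
    rw [← h2]
    abel
  have h2 : ∀ j : ℕ, (E ^ j) (H w) = ∑ i : Fin n, (b.repr (H w) i) • (E ^ ((i : ℕ) + j)) w := by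
    intro j
    conv_lhs => rw [hH]
    rw [map_sum]
    refine Finset.sum_congr rfl fun i _ => ?_
    rw [map_smul, ← Module.End.mul_apply, ← pow_add, add_comm j]
  have h3 : ∀ j : Fin n, b.repr ((E ^ (j : ℕ)) (H w)) j = b.repr (H w) z0 := by
    intro j
    rw [h2, map_sum, Finset.sum_apply', Finset.sum_eq_single z0]
    · rw [map_smul]
      have h4 : (E ^ ((z0 : ℕ) + (j : ℕ))) w = b j := by
        rw [hb]
        simp [z0]
      rw [h4, Basis.repr_self]
      simp
    · intro i _ hi
      rw [map_smul]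
      by_cases h4 : (i : ℕ) + (j : ℕ) < n
      · have h5 : (E ^ ((i : ℕ) + (j : ℕ))) w = b ⟨(i : ℕ) + (j : ℕ), h4⟩ := by
          rw [hb]
        rw [h5, Basis.repr_self]
        have h6 : (⟨(i : ℕ) + (j : ℕ), h4⟩ : Fin n) ≠ j := by
          intro h7
          apply hi
          apply Fin.ext
          have h8 := congrArg Fin.val h7
          simp only at h8
          simp only [z0]
          omega
        simp [h6]
      · rw [hz _ (by omega)]
        simp
    · intro h4
      exact absurd (Finset.mem_univ _) h4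
  have h4 : LinearMap.trace ℂ M H = ∑ j : Fin n, (b.repr (H w) z0 + 2 * ((j : ℕ) : ℂ)) := by
    rw [LinearMap.trace_eq_matrix_trace ℂ b, Matrix.trace]
    refine Finset.sum_congr rfl fun j _ => ?_
    rw [Matrix.diag_apply, LinearMap.toMatrix_apply, hb, h1, map_add, Finsupp.add_apply, h3,
      map_smul, ← hb, Basis.repr_self]
    simp
  have h5 : ∑ j : Fin n, 2 * ((j : ℕ) : ℂ) = (n : ℂ) * ((n : ℂ) - 1) := by
    rw [Fin.sum_univ_eq_sum_range (fun j : ℕ => 2 * (j : ℂ)) n, ← Finset.mul_sum]
    have h6 := Finset.sum_range_id_mul_two n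
    have h7 : ((∑ i ∈ Finset.range n, i : ℕ) : ℂ) * 2 = (n : ℂ) * ((n - 1 : ℕ) : ℂ) := by
      exact_mod_cast h6
    rw [Nat.cast_sub hn, Nat.cast_one] at h7
    rw [← h7]
    push_cast
    ring
  rw [htr, Finset.sum_add_distrib, h5, Finset.sum_const, Finset.card_univ, Fintype.card_fin,
    nsmul_eq_mul] at h4
  have hn0 : (n : ℂ) ≠ 0 := by
    rw [Nat.cast_ne_zero]
    omega
  have h6 : b.repr (H w) z0 = -((n : ℂ) - 1) := by
    have h7 : (n : ℂ) * (b.repr (H w) z0 + ((n : ℂ) - 1)) = 0 := by
      rw [mul_add]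
      exact h4.symm
    have h8 := (mul_eq_zero.1 h7).resolve_left hn0
    linear_combination h8
  rw [h1, h2, Finset.sum_eq_single z0]
  · rw [h6]
    have h7 : (E ^ ((z0 : ℕ) + (n - 1))) w = (E ^ (n - 1)) w := by
      simp [z0]
    rw [h7, ← add_smul]
    congr 1
    rw [Nat.cast_sub hn]
    push_cast
    ring
  · intro i _ hi
    rw [hz, smul_zero]
    have h7 : (i : ℕ) ≠ 0 := fun h8 => hi (Fin.ext h8)
    omega
  · intro h7
    exact absurd (Finset.mem_univ _) h7

end

end Run7.h539
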