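import Mathlib
import Pool.Agent.Run7.h539.Triple

/-!
# The standard form of a principal triple
-/

set_option autoImplicit false
set_option linter.unusedSectionVars false

namespace Run7.h539

open Module

attribute [local instance 100] LieRing.ofAssociativeRing

theorem exists_conj (m : ℕ) (H E F : Matrix (Fin (m + 1)) (Fin (m + 1)) ℂ) (hH : H ≠ 0)
    (hHE : H * E - E * H = (2 : ℂ) • E) (hHF : H * F - F * H = -((2 : ℂ) • F))
    (hEF : E * F - F * E = H) (hE : E ^ m ≠ 0) :
    ∃ P Q : Matrix (Fin (m + 1)) (Fin (m + 1)) ℂ, Q * P = 1 ∧ P * Q = 1 ∧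
      E * P = P * EE (m + 1) ∧ F * P = P * FF (m + 1) 1 := by
  let φ : Matrix (Fin (m + 1)) (Fin (m + 1)) ℂ ≃ₐ[ℂ] Module.End ℂ (Fin (m + 1) → ℂ) :=
    Matrix.toLinAlgEquiv'
  have hφ : ∀ (A : Matrix (Fin (m + 1)) (Fin (m + 1)) ℂ) (x : Fin (m + 1) → ℂ),
      φ A x = A.mulVec x := fun A x => rfl
  have t : IsSl2Triple (φ H) (φ E) (φ F) := by
    refine ⟨?_, ?_, ?_, ?_⟩
    · intro h
      exact hH (φ.injective (by rw [h, map_zero]))
    · rw [Ring.lie_def, ← map_mul, ← map_mul, ← map_sub, hEF]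
    · rw [Ring.lie_def, ← map_mul, ← map_mul, ← map_sub, hHE, map_smul, two_smul, two_nsmul]
    · rw [Ring.lie_def, ← map_mul, ← map_mul, ← map_sub, hHF, map_neg, map_smul, two_smul,
        two_nsmul]
  have hHE' : φ H * φ E - φ E * φ H = (2 : ℂ) • φ E := by
    rw [← map_mul, ← map_mul, ← map_sub, hHE, map_smul]
  have hfin : finrank ℂ (Fin (m + 1) → ℂ) = m + 1 := by simp
  have hEn : (φ E) ^ (m + 1) = 0 := by
    have h1 := pow_finrank_eq_zero (φ E) (isNilpotent_of_comm (φ H) (φ E) hHE')
    rwa [hfin] at h1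
  have hEm : (φ E) ^ m ≠ 0 := by
    rw [← map_pow]
    intro h
    exact hE (φ.injective (by rw [h, map_zero]))
  obtain ⟨w, hw⟩ : ∃ w, ((φ E) ^ m) w ≠ 0 := by
    by_contra hc
    push Not at hc
    exact hEm (LinearMap.ext hc)
  have htr : LinearMap.trace ℂ _ (φ H) = 0 := by
    have h1 : LinearMap.trace ℂ (Fin (m + 1) → ℂ) (φ H) = H.trace := Matrix.trace_toLin'_eq H
    rw [h1, ← hEF, Matrix.trace_sub, Matrix.trace_mul_comm, sub_self]
  have hv := weight_eq (φ H) (φ E) (m + 1) (by omega) hHE' hEn w (by simpa using hw) hfin htr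
  rw [Nat.add_sub_cancel] at hv
  set v := ((φ E) ^ m) w with hvdef
  have P0 : t.HasPrimitiveVectorWith v ((m : ℕ) : ℂ) := by
    refine ⟨hw, ?_, ?_⟩
    · exact hv
    · change (φ E) v = 0
      rw [hvdef, ← Module.End.mul_apply, ← pow_succ', hEn]
      rfl
  have hli := linearIndependent_psi t P0
  have hc : ∀ j : ℕ, j ≤ m → (m.descFactorial j : ℂ) ≠ 0 := by
    intro j hj
    rw [Nat.cast_ne_zero, Ne, Nat.descFactorial_eq_zero_iff_lt]
    omega
  let cc : Fin (m + 1) → ℂˣ := fun j =>
    Units.mk0 ((m.descFactorial (j : ℕ) : ℂ)⁻¹) (inv_ne_zero (hc j (by have := j.2; omega)))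
  have hli2 := hli.units_smul cc
  let P : Matrix (Fin (m + 1)) (Fin (m + 1)) ℂ :=
    Matrix.of (fun i j => ((m.descFactorial (j : ℕ) : ℂ)⁻¹ • psi (φ F) v (j : ℕ)) i)
  have hPcol : P.col = cc • (fun j : Fin (m + 1) => psi (φ F) v (j : ℕ)) := by
    funext j i
    rfl
  have hPu : IsUnit P := by
    rw [← Matrix.linearIndependent_cols_iff_isUnit, hPcol]
    exact hli2
  have hPd : IsUnit P.det := (Matrix.isUnit_iff_isUnit_det P).1 hPu
  have hmul : ∀ (A : Matrix (Fin (m + 1)) (Fin (m + 1)) ℂ) (i j : Fin (m + 1)),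
      (A * P) i j = ((m.descFactorial (j : ℕ) : ℂ)⁻¹ • (φ A) (psi (φ F) v (j : ℕ))) i := by
    intro A i j
    rw [← map_smul, hφ]
    rfl
  refine ⟨P, P⁻¹, Matrix.nonsing_inv_mul P hPd, Matrix.mul_nonsing_inv P hPd, ?_, ?_⟩
  · ext i j
    rw [hmul, Matrix.mul_apply]
    by_cases hj : (j : ℕ) = 0
    · rw [Finset.sum_eq_zero]
      · rw [hj, psi_zero]
        have h1 : φ E v = 0 := P0.lie_e
        rw [h1, smul_zero]
        rfl
      · intro l _
        unfold EE
        rw [if_neg (by omega), mul_zero]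
    · obtain ⟨j', hj'⟩ : ∃ j', (j : ℕ) = j' + 1 := ⟨(j : ℕ) - 1, by omega⟩
      have hjlt : j' < m + 1 := by have := j.2; omega
      rw [Finset.sum_eq_single (⟨j', hjlt⟩ : Fin (m + 1))]
      · have h1 := P0.lie_e_pow_succ_toEnd_f j'
        change (φ E) (psi (φ F) v (j' + 1)) = _ • psi (φ F) v j' at h1
        rw [hj', h1]
        unfold EE
        rw [if_pos (by simp only; omega)]
        simp only [P, Matrix.of_apply, Pi.smul_apply, smul_eq_mul]
        rw [Nat.descFactorial_succ, hj']
        have h2 := hc j' (by omega)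
        have h3 : ((m - j' : ℕ) : ℂ) ≠ 0 := by
          rw [Nat.cast_ne_zero]
          have := j.2
          omega
        rw [Nat.cast_mul]
        have h4 : ((m - j' : ℕ) : ℂ) = (m : ℂ) - j' := by
          rw [Nat.cast_sub (by have := j.2; omega)]
        rw [h4] at h3 ⊢
        push_cast
        field_simp
      · intro l _ hl
        unfold EE
        rw [if_neg, mul_zero]
        intro h2
        apply hl
        apply Fin.ext
        simp only
        omega
      · intro h2
        exact absurd (Finset.mem_univ _) h2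
  · ext i j
    rw [hmul, Matrix.mul_apply]
    have h1 : (φ F) (psi (φ F) v (j : ℕ)) = psi (φ F) v ((j : ℕ) + 1) := by
      have h2 := psi_succ (φ F) v (j : ℕ)
      rw [h2]
      rfl
    rw [h1]
    by_cases hj : (j : ℕ) = m
    · rw [Finset.sum_eq_zero]
      · have h2 := P0.pow_toEnd_f_eq_zero_of_eq_nat rfl
        change psi (φ F) v (m + 1) = 0 at h2
        rw [hj, h2, smul_zero]
        rfl
      · intro l _
        unfold FF
        rw [if_neg (by have := l.2; omega), mul_zero]
    · have hjlt : (j : ℕ) + 1 < m + 1 := by have := j.2; omega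
      rw [Finset.sum_eq_single (⟨(j : ℕ) + 1, hjlt⟩ : Fin (m + 1))]
      · unfold FF
        rw [if_pos rfl, Nat.choose_one_right]
        simp only [P, Matrix.of_apply, Pi.smul_apply, smul_eq_mul]
        rw [Nat.descFactorial_succ]
        have h2 := hc (j : ℕ) (by omega)
        have h3 : ((m - (j : ℕ) : ℕ) : ℂ) ≠ 0 := by
          rw [Nat.cast_ne_zero]
          omega
        have h4 : m + 1 - 1 - (j : ℕ) = m - (j : ℕ) := by omega
        rw [Nat.cast_mul, h4]
        field_simp
      · intro l _ hl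
        unfold FF
        rw [if_neg, mul_zero]
        intro h2
        exact hl (Fin.ext h2)
      · intro h2
        exact absurd (Finset.mem_univ _) h2

/-! ### Regular elements -/

open Matrix in
theorem exists_regular (m : ℕ) : ∃ y : LieAlgebra.SpecialLinear.sl (Fin (m + 1)) ℂ,
    finrank ℂ (LinearMap.ker (LieAlgebra.ad ℂ _ y)) + 1 ≤ m + 1 := by
  have hsum : ∑ i : Fin (m + 1), (((i : ℕ) : ℂ) - (m : ℂ) / 2) = 0 := by
    rw [Fin.sum_univ_eq_sum_range (fun i : ℕ => (i : ℂ) - (m : ℂ) / 2) (m + 1),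
      Finset.sum_sub_distrib, Finset.sum_const, Finset.card_range, nsmul_eq_mul]
    have h1 := Finset.sum_range_id_mul_two (m + 1)
    have h2 : ((∑ i ∈ Finset.range (m + 1), i : ℕ) : ℂ) * 2 =
        ((m + 1 : ℕ) : ℂ) * ((m + 1 - 1 : ℕ) : ℂ) := by
      exact_mod_cast h1
    rw [Nat.add_sub_cancel] at h2
    push_cast at h2 ⊢
    linear_combination (1 / 2) * h2
  let d : Fin (m + 1) → ℂ := fun i => ((i : ℕ) : ℂ) - (m : ℂ) / 2
  have hd : Matrix.diagonal d ∈ LieAlgebra.SpecialLinear.sl (Fin (m + 1)) ℂ := by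
    change Matrix.traceLinearMap (Fin (m + 1)) ℂ ℂ (Matrix.diagonal d) = 0
    rw [Matrix.traceLinearMap_apply, Matrix.trace_diagonal]
    exact hsum
  let y : LieAlgebra.SpecialLinear.sl (Fin (m + 1)) ℂ := ⟨Matrix.diagonal d, hd⟩
  refine ⟨y, ?_⟩
  let ψ : (LinearMap.ker (LieAlgebra.ad ℂ _ y)) × ℂ →ₗ[ℂ] (Fin (m + 1) → ℂ) :=
    { toFun := fun p i => p.1.1.1 i i + p.2
      map_add' := fun p q => by
        funext i
        simp only [Prod.fst_add, Prod.snd_add, Submodule.coe_add, Pi.add_apply]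
        change (p.1.1.1 i i + q.1.1.1 i i) + (p.2 + q.2) = _
        ring
      map_smul' := fun c p => by
        funext i
        simp only [Prod.smul_fst, Prod.smul_snd, smul_eq_mul, RingHom.id_apply, Pi.smul_apply]
        change c * p.1.1.1 i i + c * p.2 = _
        ring }
  have hψ : Function.Injective ψ := by
    rw [← LinearMap.ker_eq_bot, LinearMap.ker_eq_bot']
    rintro ⟨x, c⟩ hx
    have hx1 : ∀ i, x.1.1 i i + c = 0 := fun i => congrFun hx i
    have htr : x.1.1.trace = 0 := x.1.2
    have hc : c = 0 := by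
      have h1 : ∑ i : Fin (m + 1), (x.1.1 i i + c) = 0 :=
        Finset.sum_eq_zero fun i _ => hx1 i
      rw [Finset.sum_add_distrib, Finset.sum_const, Finset.card_univ, Fintype.card_fin,
        nsmul_eq_mul] at h1
      have h2 : ∑ i, x.1.1 i i = 0 := htr
      rw [h2, zero_add] at h1
      have h3 : ((m + 1 : ℕ) : ℂ) ≠ 0 := by
        rw [Nat.cast_ne_zero]
        omega
      exact (mul_eq_zero.1 h1).resolve_left h3
    subst hc
    have hx2 : x.1.1 = 0 := by
      ext i j
      by_cases hij : i = j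
      · subst hij
        simpa using hx1 i
      · have h1 : ⁅y, x.1⁆ = 0 := x.2
        have h2 : (Matrix.diagonal d * x.1.1 - x.1.1 * Matrix.diagonal d) i j = 0 := by
          have h3 := congrArg Subtype.val h1
          rw [LieAlgebra.SpecialLinear.sl_bracket] at h3
          change Matrix.diagonal d * x.1.1 - x.1.1 * Matrix.diagonal d = 0 at h3
          rw [h3]
          rfl
        rw [Matrix.sub_apply, Matrix.diagonal_mul, Matrix.mul_diagonal] at h2
        have h3 : (((i : ℕ) : ℂ) - ((j : ℕ) : ℂ)) * x.1.1 i j = 0 := by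
          simp only [d] at h2
          linear_combination h2
        rcases mul_eq_zero.1 h3 with h4 | h4
        · exfalso
          apply hij
          apply Fin.ext
          have h5 : ((i : ℕ) : ℂ) = ((j : ℕ) : ℂ) := by linear_combination h4
          exact_mod_cast h5
        · exact h4
    have hx3 : x = 0 := Subtype.ext (Subtype.ext hx2)
    rw [hx3]
    rfl
  have h1 := LinearMap.finrank_le_finrank_of_injective hψ
  rw [Module.finrank_prod, Module.finrank_self] at h1
  simpa using h1

end Run7.h539
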