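import Mathlib
import Pool.Agent.Run7.h539.Conj

/-!
# The centralizer of a nilpotent matrix
-/

set_option autoImplicit false
set_option linter.unusedSectionVars false

namespace Run7.h539

open Module Matrix

attribute [local instance 100] LieRing.ofAssociativeRing

variable {m : ℕ}

/-- The elements of the centralizer attached to a vector. -/
noncomputable def Acent (E : Matrix (Fin (m + 1)) (Fin (m + 1)) ℂ) (a : ℕ) (p : Fin (m + 1)) :
    (Fin (m + 1) → ℂ) →ₗ[ℂ] Matrix (Fin (m + 1)) (Fin (m + 1)) ℂ where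
  toFun u := ∑ i ∈ Finset.range a, vecMulVec ((E ^ i) *ᵥ u) ((E ^ (a - 1 - i)) p)
  map_add' u v := by
    rw [← Finset.sum_add_distrib]
    refine Finset.sum_congr rfl fun i _ => ?_
    rw [Matrix.mulVec_add, Matrix.add_vecMulVec]
  map_smul' c u := by
    rw [RingHom.id_apply, Finset.smul_sum]
    refine Finset.sum_congr rfl fun i _ => ?_
    rw [Matrix.mulVec_smul, Matrix.smul_vecMulVec]

theorem Acent_comm (E : Matrix (Fin (m + 1)) (Fin (m + 1)) ℂ) (a : ℕ) (hE : E ^ a = 0)
    (p : Fin (m + 1)) (u : Fin (m + 1) → ℂ) : E * Acent E a p u = Acent E a p u * E := by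
  rw [← sub_eq_zero]
  change E * (∑ i ∈ Finset.range a, vecMulVec ((E ^ i) *ᵥ u) ((E ^ (a - 1 - i)) p)) -
    (∑ i ∈ Finset.range a, vecMulVec ((E ^ i) *ᵥ u) ((E ^ (a - 1 - i)) p)) * E = 0
  rw [Finset.mul_sum, Finset.sum_mul, ← Finset.sum_sub_distrib]
  have h1 : ∀ i ∈ Finset.range a, E * vecMulVec ((E ^ i) *ᵥ u) ((E ^ (a - 1 - i)) p) -
      vecMulVec ((E ^ i) *ᵥ u) ((E ^ (a - 1 - i)) p) * E =
      vecMulVec ((E ^ (i + 1)) *ᵥ u) ((E ^ (a - (i + 1))) p) -
        vecMulVec ((E ^ i) *ᵥ u) ((E ^ (a - i)) p) := by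
    intro i hi
    rw [Finset.mem_range] at hi
    rw [Matrix.mul_vecMulVec, Matrix.vecMulVec_mul, Matrix.mulVec_mulVec, ← pow_succ']
    have h2 : a - 1 - i = a - (i + 1) := by omega
    have h3 : (E ^ (a - 1 - i)) p ᵥ* E = (E ^ (a - i)) p := by
      have h4 : a - i = (a - 1 - i) + 1 := by omega
      rw [h4, pow_succ]
      funext j
      rfl
    rw [h3, h2]
  rw [Finset.sum_congr rfl h1,
    Finset.sum_range_sub (fun i => vecMulVec ((E ^ i) *ᵥ u) ((E ^ (a - i)) p))]
  rw [hE, Nat.sub_zero, hE]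
  simp only [Matrix.zero_mulVec, Matrix.zero_vecMulVec, pow_zero, Matrix.one_mulVec, zero_sub,
    neg_eq_zero, Matrix.vecMulVec_eq_zero]
  exact Or.inr rfl

theorem Acent_mulVec (E : Matrix (Fin (m + 1)) (Fin (m + 1)) ℂ) (a : ℕ)
    (p : Fin (m + 1)) (u x : Fin (m + 1) → ℂ) : Acent E a p u *ᵥ x =
      ∑ i ∈ Finset.range a, ((E ^ (a - 1 - i)) p ⬝ᵥ x) • ((E ^ i) *ᵥ u) := by
  change (∑ i ∈ Finset.range a, vecMulVec ((E ^ i) *ᵥ u) ((E ^ (a - 1 - i)) p)) *ᵥ x = _
  rw [Matrix.sum_mulVec]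
  refine Finset.sum_congr rfl fun i _ => ?_
  rw [Matrix.vecMulVec_mulVec]
  funext j
  simp [mul_comm]

theorem Acent_injective (E : Matrix (Fin (m + 1)) (Fin (m + 1)) ℂ) (a : ℕ) (hE : E ^ a = 0)
    (p q : Fin (m + 1)) (hpq : (E ^ (a - 1)) p q ≠ 0) (u : Fin (m + 1) → ℂ)
    (hu : Acent E a p u = 0) : u = 0 := by
  classical
  by_contra hu0
  have hex : ∃ b, (E ^ b) *ᵥ u = 0 := ⟨a, by rw [hE, Matrix.zero_mulVec]⟩
  have hb := Nat.find_spec hex
  have hbmin := fun c hc => Nat.find_min hex (m := c) hc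
  set b := Nat.find hex with hbdef
  have hb0 : b ≠ 0 := by
    intro h
    rw [h, pow_zero, Matrix.one_mulVec] at hb
    exact hu0 hb
  have hba : b ≤ a := Nat.find_min' hex (by rw [hE, Matrix.zero_mulVec])
  have h1 : (E ^ (b - 1)) *ᵥ (Acent E a p u *ᵥ Pi.single q 1) = 0 := by
    rw [hu, Matrix.zero_mulVec, Matrix.mulVec_zero]
  rw [Acent_mulVec, Matrix.mulVec_sum, Finset.sum_eq_single 0] at h1
  · rw [Matrix.mulVec_smul, pow_zero, Matrix.one_mulVec, Nat.sub_zero] at h1
    have h2 : (E ^ (a - 1)) p ⬝ᵥ Pi.single q 1 = (E ^ (a - 1)) p q := by simp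
    rw [h2] at h1
    exact hbmin (b - 1) (by omega) ((smul_eq_zero.1 h1).resolve_left hpq)
  · intro i _ hi
    rw [Matrix.mulVec_smul, Matrix.mulVec_mulVec, ← pow_add]
    have h2 : b - 1 + i = (i - 1) + b := by omega
    rw [h2, pow_add, ← Matrix.mulVec_mulVec, hb, Matrix.mulVec_zero, smul_zero]
  · intro h2
    exact absurd (Finset.mem_range.2 (by omega)) h2

theorem le_finrank_of_pow (e : LieAlgebra.SpecialLinear.sl (Fin (m + 1)) ℂ) (he : e.1 ^ m = 0) :
    m + 1 ≤ finrank ℂ (LinearMap.ker (LieAlgebra.ad ℂ _ e)) := by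
  classical
  set E := e.1 with hEdef
  have hex : ∃ a, E ^ a = 0 := ⟨m, he⟩
  have ha := Nat.find_spec hex
  have hamin := fun c hc => Nat.find_min hex (m := c) hc
  have ham : Nat.find hex ≤ m := Nat.find_min' hex he
  set a := Nat.find hex with hadef
  have ha0 : a ≠ 0 := by
    intro h
    rw [h, pow_zero] at ha
    exact one_ne_zero ha
  have ha1 := hamin (a - 1) (by omega)
  obtain ⟨p, q, hpq⟩ : ∃ p q, (E ^ (a - 1)) p q ≠ 0 := by
    by_contra hc
    push Not at hc
    exact ha1 (Matrix.ext hc)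
  have hm1 : ((m + 1 : ℕ) : ℂ) ≠ 0 := by
    rw [Nat.cast_ne_zero]
    omega
  have htr : ∀ u, Acent E a p u - ((Acent E a p u).trace / ((m + 1 : ℕ) : ℂ)) •
      (1 : Matrix (Fin (m + 1)) (Fin (m + 1)) ℂ) ∈ LieAlgebra.SpecialLinear.sl (Fin (m + 1)) ℂ := by
    intro u
    change Matrix.traceLinearMap (Fin (m + 1)) ℂ ℂ _ = 0
    rw [Matrix.traceLinearMap_apply, Matrix.trace_sub, Matrix.trace_smul, Matrix.trace_one,
      Fintype.card_fin, smul_eq_mul, div_mul_cancel₀ _ hm1, sub_self]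
  let B : (Fin (m + 1) → ℂ) →ₗ[ℂ] LinearMap.ker (LieAlgebra.ad ℂ _ e) :=
    { toFun := fun u => ⟨⟨_, htr u⟩, by
        rw [LinearMap.mem_ker]
        apply Subtype.ext
        rw [LieAlgebra.ad_apply, LieAlgebra.SpecialLinear.sl_bracket]
        change E * (Acent E a p u - ((Acent E a p u).trace / ((m + 1 : ℕ) : ℂ)) • 1) -
          (Acent E a p u - ((Acent E a p u).trace / ((m + 1 : ℕ) : ℂ)) • 1) * E = 0
        rw [mul_sub, sub_mul, Acent_comm E a ha p u, mul_smul_comm, smul_mul_assoc, mul_one,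
          one_mul]
        abel⟩
      map_add' := fun u v => by
        apply Subtype.ext
        apply Subtype.ext
        simp only [map_add, Matrix.trace_add, add_div, add_smul, Submodule.coe_add]
        change _ = (Acent E a p u - ((Acent E a p u).trace / ((m + 1 : ℕ) : ℂ)) • 1) +
          (Acent E a p v - ((Acent E a p v).trace / ((m + 1 : ℕ) : ℂ)) • 1)
        abel
      map_smul' := fun c u => by
        apply Subtype.ext
        apply Subtype.ext
        simp only [map_smul, Matrix.trace_smul, RingHom.id_apply, Submodule.coe_smul]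
        change _ = c • (Acent E a p u - ((Acent E a p u).trace / ((m + 1 : ℕ) : ℂ)) • 1)
        rw [smul_sub, smul_smul, smul_eq_mul, mul_div_assoc] }
  have hB : Function.Injective B := by
    rw [← LinearMap.ker_eq_bot, LinearMap.ker_eq_bot']
    intro u hu
    have h1 : Acent E a p u - ((Acent E a p u).trace / ((m + 1 : ℕ) : ℂ)) • 1 = 0 := by
      have h2 := congrArg (fun z => z.1.1) hu
      exact h2
    rw [sub_eq_zero] at h1
    have hc0 : (Acent E a p u).trace / ((m + 1 : ℕ) : ℂ) = 0 := by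
      by_contra hc
      set c := (Acent E a p u).trace / ((m + 1 : ℕ) : ℂ) with hcdef
      have h2 : ∀ x : Fin (m + 1) → ℂ,
          x ∈ Submodule.span ℂ (Set.range (fun i : Fin a => (E ^ (i : ℕ)) *ᵥ u)) := by
        intro x
        have h3 : x = c⁻¹ • (Acent E a p u *ᵥ x) := by
          rw [h1, Matrix.smul_mulVec, Matrix.one_mulVec, smul_smul, inv_mul_cancel₀ hc, one_smul]
        rw [h3, Acent_mulVec]
        refine Submodule.smul_mem _ _ (Submodule.sum_mem _ fun i hi => Submodule.smul_mem _ _ ?_)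
        exact Submodule.subset_span ⟨⟨i, Finset.mem_range.1 hi⟩, rfl⟩
      have h3 : Submodule.span ℂ (Set.range (fun i : Fin a => (E ^ (i : ℕ)) *ᵥ u)) = ⊤ :=
        Submodule.eq_top_iff'.2 h2
      have h4 := finrank_range_le_card (R := ℂ) (fun i : Fin a => (E ^ (i : ℕ)) *ᵥ u)
      unfold Set.finrank at h4
      rw [h3, finrank_top] at h4
      simp only [finrank_fintype_fun_eq_card, Fintype.card_fin] at h4
      omega
    rw [hc0, zero_smul] at h1
    exact Acent_injective E a ha p q hpq u h1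
  have h1 := LinearMap.finrank_le_finrank_of_injective hB
  simpa using h1

/-- A nilpotent element with centralizer of minimal dimension is a single Jordan block. -/
theorem pow_ne_zero_of_regular (e : LieAlgebra.SpecialLinear.sl (Fin (m + 1)) ℂ)
    (hreg : ∀ y : LieAlgebra.SpecialLinear.sl (Fin (m + 1)) ℂ,
      finrank ℂ (LinearMap.ker (LieAlgebra.ad ℂ _ e)) ≤
        finrank ℂ (LinearMap.ker (LieAlgebra.ad ℂ _ y))) : e.1 ^ m ≠ 0 := by
  intro h
  obtain ⟨y, hy⟩ := exists_regular m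
  have h1 := le_finrank_of_pow e h
  have h2 := hreg y
  omega

end Run7.h539
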