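import Mathlib
import Pool.Agent.Run7.h539.Mats

/-!
# Conjugation by translations preserves subspaces stable under the raising operator
-/

set_option autoImplicit false
set_option linter.unusedSectionVars false

namespace Run7.h539

open Module

theorem EE_pow (n i : ℕ) (r s : Fin n) : ((EE n : Matrix _ _ ℂ) ^ i) r s =
    if (r : ℕ) + i = (s : ℕ) then ((s : ℕ).descFactorial i : ℂ) else 0 := by
  induction i generalizing s with
  | zero =>
    rw [pow_zero, Matrix.one_apply]
    by_cases h : r = s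
    · subst h
      simp
    · rw [if_neg h, if_neg]
      intro h2
      exact h (Fin.ext (by simpa using h2))
  | succ i ih =>
    rw [pow_succ, Matrix.mul_apply]
    by_cases hs : (s : ℕ) = 0
    · rw [Finset.sum_eq_zero, if_neg (by omega)]
      intro l _
      unfold EE
      rw [if_neg (by omega), mul_zero]
    · obtain ⟨s', hs'⟩ : ∃ s', (s : ℕ) = s' + 1 := ⟨(s : ℕ) - 1, by omega⟩
      have hlt : s' < n := by have := s.2; omega
      rw [Finset.sum_eq_single (⟨s', hlt⟩ : Fin n)]
      · rw [ih]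
        unfold EE
        simp only
        rw [if_pos (hs'.symm : s' + 1 = (s : ℕ))]
        by_cases h : (r : ℕ) + i = s'
        · rw [if_pos h, if_pos (by omega), hs', Nat.succ_descFactorial_succ]
          push_cast
          ring
        · rw [if_neg h, if_neg (by omega), zero_mul]
      · intro l _ hl
        unfold EE
        rw [if_neg, mul_zero]
        intro h2
        apply hl
        apply Fin.ext
        simp only
        omega
      · intro h2
        exact absurd (Finset.mem_univ _) h2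

theorem EE_pow_eq_zero (n : ℕ) : (EE n : Matrix (Fin n) (Fin n) ℂ) ^ n = 0 := by
  ext r s
  rw [EE_pow, if_neg (by have := s.2; omega)]
  rfl

theorem UU_eq_sum (n : ℕ) (t : ℂ) : (UU n t : Matrix (Fin n) (Fin n) ℂ) =
    ∑ i ∈ Finset.range n, ((i.factorial : ℂ)⁻¹) • (t • EE n) ^ i := by
  ext r s
  rw [Matrix.sum_apply]
  simp only [smul_pow, Matrix.smul_apply, smul_eq_mul, EE_pow]
  unfold UU
  by_cases hrs : (r : ℕ) ≤ (s : ℕ)
  · rw [Finset.sum_eq_single ((s : ℕ) - (r : ℕ))]
    · rw [if_pos (by omega), Nat.descFactorial_eq_factorial_mul_choose, Nat.choose_symm hrs]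
      have h1 : ((((s : ℕ) - (r : ℕ)).factorial : ℕ) : ℂ) ≠ 0 := by
        exact_mod_cast Nat.factorial_ne_zero _
      push_cast
      field_simp
    · intro i _ hi
      rw [if_neg (by omega)]
      ring
    · intro h
      exfalso
      apply h
      rw [Finset.mem_range]
      have := s.2
      omega
  · rw [Nat.choose_eq_zero_of_lt (by omega), Finset.sum_eq_zero]
    · simp
    · intro i _
      rw [if_neg (by omega)]
      ring

theorem conj_mem (n : ℕ) (S : Submodule ℂ (Matrix (Fin n) (Fin n) ℂ))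
    (hS : ∀ x ∈ S, EE n * x - x * EE n ∈ S) (Z : Matrix (Fin n) (Fin n) ℂ) (hZ : Z ∈ S) (t : ℂ) :
    UU n (-t) * Z * UU n t ∈ S := by
  let a : Module.End ℂ (Matrix (Fin n) (Fin n) ℂ) := LinearMap.mulLeft ℂ ((-t) • EE n)
  let b : Module.End ℂ (Matrix (Fin n) (Fin n) ℂ) := LinearMap.mulRight ℂ (t • EE n)
  have ha : a ^ n = 0 := by
    change (LinearMap.mulLeft ℂ ((-t) • EE n)) ^ n = 0
    rw [LinearMap.pow_mulLeft, smul_pow, EE_pow_eq_zero, smul_zero]
    ext x
    simp
  have hb : b ^ n = 0 := by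
    change (LinearMap.mulRight ℂ (t • EE n)) ^ n = 0
    rw [LinearMap.pow_mulRight, smul_pow, EE_pow_eq_zero, smul_zero]
    ext x
    simp
  have hab : Commute a b := LinearMap.commute_mulLeft_right _ _
  have h1 := IsNilpotent.exp_add_of_commute hab ⟨n, ha⟩ ⟨n, hb⟩
  have h2 : (IsNilpotent.exp (a + b)) Z = UU n (-t) * Z * UU n t := by
    rw [h1, Module.End.mul_apply, IsNilpotent.exp_eq_sum ha, IsNilpotent.exp_eq_sum hb]
    have h3 : (∑ i ∈ Finset.range n, (i.factorial : ℚ)⁻¹ • b ^ i) Z = Z * UU n t := by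
      rw [UU_eq_sum, Finset.mul_sum, LinearMap.sum_apply]
      refine Finset.sum_congr rfl fun i _ => ?_
      rw [LinearMap.smul_apply, mul_smul_comm]
      change (i.factorial : ℚ)⁻¹ • ((LinearMap.mulRight ℂ (t • EE n)) ^ i) Z = _
      rw [LinearMap.pow_mulRight, LinearMap.mulRight_apply, ← Rat.cast_smul_eq_qsmul ℂ]
      congr 1
      push_cast
      rfl
    have h4 : ∀ Y : Matrix (Fin n) (Fin n) ℂ,
        (∑ i ∈ Finset.range n, (i.factorial : ℚ)⁻¹ • a ^ i) Y = UU n (-t) * Y := by
      intro Y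
      rw [UU_eq_sum, Finset.sum_mul, LinearMap.sum_apply]
      refine Finset.sum_congr rfl fun i _ => ?_
      rw [LinearMap.smul_apply, smul_mul_assoc]
      change (i.factorial : ℚ)⁻¹ • ((LinearMap.mulLeft ℂ ((-t) • EE n)) ^ i) Y = _
      rw [LinearMap.pow_mulLeft, LinearMap.mulLeft_apply, ← Rat.cast_smul_eq_qsmul ℂ]
      congr 1
      push_cast
      rfl
    rw [h3, h4, mul_assoc]
  rw [← h2]
  obtain ⟨N, hN⟩ : IsNilpotent (a + b) := Commute.isNilpotent_add hab ⟨n, ha⟩ ⟨n, hb⟩
  rw [IsNilpotent.exp_eq_sum hN, LinearMap.sum_apply]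
  have h5 : ∀ i : ℕ, ((a + b) ^ i) Z ∈ S := by
    intro i
    induction i with
    | zero => simpa using hZ
    | succ i ih =>
      rw [pow_succ', Module.End.mul_apply]
      have h6 : ∀ x, (a + b) x = (-t) • (EE n * x - x * EE n) := by
        intro x
        change ((-t) • EE n) * x + x * (t • EE n) = _
        rw [smul_mul_assoc, mul_smul_comm, smul_sub, neg_smul, neg_smul]
        abel
      rw [h6]
      exact Submodule.smul_mem _ _ (hS _ ih)
  refine Submodule.sum_mem _ fun i _ => ?_
  rw [LinearMap.smul_apply, ← Rat.cast_smul_eq_qsmul ℂ]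
  exact Submodule.smul_mem _ _ (h5 i)

end Run7.h539
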