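import Mathlib
import Pool.Agent.Run7.h539.Cent
import Pool.Agent.Run7.h539.Mem
import Pool.Agent.Run7.h539.Cart2
import Pool.Agent.Run7.h539.PrimeAll

/-!
# From the alternating trace to the statement about invariant forms
-/

set_option autoImplicit false
set_option linter.unusedSectionVars false

namespace Run7.h539

open Module Equiv

attribute [local instance 100] LieRing.ofAssociativeRing

/-- The special linear Lie algebra. -/
abbrev SL (n : ℕ) : LieSubalgebra ℂ (Matrix (Fin n) (Fin n) ℂ) :=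
  LieAlgebra.SpecialLinear.sl (Fin n) ℂ

theorem mem_SL {n : ℕ} (x : Matrix (Fin n) (Fin n) ℂ) : x ∈ SL n ↔ x.trace = 0 := Iff.rfl

theorem comm_pow_smul {n : ℕ} (H E : Matrix (Fin n) (Fin n) ℂ) (c : ℂ)
    (hHE : H * E - E * H = c • E) (j : ℕ) :
    H * E ^ j - E ^ j * H = (c * (j : ℂ)) • E ^ j := by
  induction j with
  | zero => simp
  | succ j ih =>
    have h1 : H * E ^ (j + 1) - E ^ (j + 1) * H =
        (H * E ^ j - E ^ j * H) * E + E ^ j * (H * E - E * H) := by
      rw [pow_succ]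
      noncomm_ring
    rw [h1, ih, hHE, smul_mul_assoc, mul_smul_comm, ← pow_succ, ← add_smul]
    congr 1
    push_cast
    ring

/-- The projection of a matrix to its traceless part. -/
noncomputable def projSL (m : ℕ) : Matrix (Fin (m + 1)) (Fin (m + 1)) ℂ →ₗ[ℂ] SL (m + 1) where
  toFun y := ⟨y - (y.trace / ((m + 1 : ℕ) : ℂ)) • 1, by
    have hm1 : ((m + 1 : ℕ) : ℂ) ≠ 0 := by
      rw [Nat.cast_ne_zero]
      omega
    rw [mem_SL, Matrix.trace_sub, Matrix.trace_smul, Matrix.trace_one, Fintype.card_fin,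
      smul_eq_mul, div_mul_cancel₀ _ hm1, sub_self]⟩
  map_add' x y := by
    apply Subtype.ext
    change (x + y) - ((x + y).trace / ((m + 1 : ℕ) : ℂ)) • 1 =
      (x - (x.trace / ((m + 1 : ℕ) : ℂ)) • 1) + (y - (y.trace / ((m + 1 : ℕ) : ℂ)) • 1)
    rw [Matrix.trace_add, add_div, add_smul]
    abel
  map_smul' c x := by
    apply Subtype.ext
    change (c • x) - ((c • x).trace / ((m + 1 : ℕ) : ℂ)) • 1 =
      c • (x - (x.trace / ((m + 1 : ℕ) : ℂ)) • 1)
    rw [Matrix.trace_smul, smul_eq_mul, mul_div_assoc, smul_sub, smul_smul]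

theorem projSL_val (m : ℕ) (y : Matrix (Fin (m + 1)) (Fin (m + 1)) ℂ) :
    (projSL m y).1 = y - (y.trace / ((m + 1 : ℕ) : ℂ)) • 1 := rfl

theorem projSL_self (m : ℕ) (v : SL (m + 1)) : projSL m v.1 = v := by
  apply Subtype.ext
  rw [projSL_val, (mem_SL _).1 v.2]
  simp

theorem projSL_lie (m : ℕ) (x y : Matrix (Fin (m + 1)) (Fin (m + 1)) ℂ) :
    projSL m ⁅x, y⁆ = ⁅projSL m x, projSL m y⁆ := by
  apply Subtype.ext
  rw [LieAlgebra.SpecialLinear.sl_bracket, projSL_val, projSL_val, projSL_val, Ring.lie_def]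
  have h1 : (x * y - y * x).trace = 0 := by
    rw [Matrix.trace_sub, Matrix.trace_mul_comm, sub_self]
  rw [h1, zero_div, zero_smul, sub_zero]
  simp only [mul_sub, sub_mul, smul_mul_assoc, mul_smul_comm, mul_one, one_mul, smul_sub]
  rw [smul_comm]
  abel

/-- The Cartan form of `F` at `x`. -/
noncomputable def cart {n k : ℕ} (F : MultilinearMap ℂ (fun _ : Option (Fin k) => SL n) ℂ)
    (x : Option (Fin k × Bool) → SL n) : ℂ :=
  ∑ σ : Equiv.Perm (Option (Fin k × Bool)),
    (((Equiv.Perm.sign σ : ℤ) : ℂ) *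
      F (fun j : Option (Fin k) => Option.elim j (x (σ none))
        (fun i => ⁅x (σ (some (i, false))), x (σ (some (i, true)))⁆)))

theorem cart_eq {m k : ℕ} (F : MultilinearMap ℂ (fun _ : Option (Fin k) => SL (m + 1)) ℂ)
    (hinv : ∀ (y : SL (m + 1)) (x : Option (Fin k) → SL (m + 1)),
      ∑ i : Option (Fin k), F (Function.update x i ⁅y, x i⁆) = 0)
    (π₀ : Perm (Option (Fin k))) (h₀ : Full π₀) :
    ∃ C : ℂ, ∀ x : Option (Fin k × Bool) → SL (m + 1),
      cart F x = C * aG (nu π₀) (fun i => (x i).1) := by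
  let G := F.compLinearMap (fun _ => projSL m)
  have hG : ∀ (y : Matrix (Fin (m + 1)) (Fin (m + 1)) ℂ)
      (x : Option (Fin k) → Matrix (Fin (m + 1)) (Fin (m + 1)) ℂ),
      ∑ i, G (Function.update x i ⁅y, x i⁆) = 0 := by
    intro y x
    rw [← hinv (projSL m y) (fun i => projSL m (x i))]
    refine Finset.sum_congr rfl fun i _ => ?_
    change F (fun j => projSL m (Function.update x i ⁅y, x i⁆ j)) = _
    congr 1
    funext j
    by_cases hj : j = i
    · subst hj
      rw [Function.update_self, Function.update_self, projSL_lie]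
    · rw [Function.update_of_ne hj, Function.update_of_ne hj]
  obtain ⟨C, hC⟩ := cartan_form G hG π₀ h₀
  refine ⟨C, fun x => ?_⟩
  rw [← hC]
  unfold cart
  refine Finset.sum_congr rfl fun σ _ => ?_
  congr 1
  change _ = F (fun j => projSL m (com (fun i => (x (σ i)).1) j))
  congr 1
  funext j
  rcases j with _ | i
  · exact (projSL_self m _).symm
  · change _ = projSL m ⁅(x (σ (some (i, false)))).1, (x (σ (some (i, true)))).1⁆
    rw [projSL_lie, projSL_self, projSL_self]
    rfl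

theorem aG_zero_index {n : ℕ} (ν : Perm (Option (Fin 0 × Bool)))
    (x : Option (Fin 0 × Bool) → SL n) : aG ν (fun i => (x i).1) = 0 := by
  unfold aG
  refine Finset.sum_eq_zero fun σ _ => ?_
  have h1 : GG ν (fun i => (x (σ i)).1) = 0 := by
    have h2 : (x (σ none)).1.trace = 0 := (x (σ none)).2
    rw [← h2]
    unfold GG Matrix.trace
    let E : (Option (Fin 0 × Bool) → Fin n) ≃ Fin n :=
      ⟨fun c => c none, fun a _ => a, fun c => by
        funext j
        rcases j with _ | ⟨i, _⟩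
        · rfl
        · exact i.elim0, fun a => rfl⟩
    refine Fintype.sum_equiv E _ _ fun c => ?_
    have h3 : ν none = none := by
      rcases hν : ν none with _ | ⟨i, _⟩
      · rfl
      · exact i.elim0
    rw [Fintype.prod_option, h3]
    simp [E]
  rw [h1, mul_zero]

/-- **Main reduction**: if the alternating trace does not vanish on the conjugates of `F^{(k)}`,
the statement about invariant forms holds for `sl_n` in degree `2k+1`. -/
theorem wrap (n k : ℕ) (hcore : k < n → Core n k) (h e f : SL n) (ht : IsSl2Triple h e f)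
    (hreg : ∀ y : SL n, finrank ℂ (LinearMap.ker (LieAlgebra.ad ℂ (SL n) e)) ≤
      finrank ℂ (LinearMap.ker (LieAlgebra.ad ℂ (SL n) y)))
    (F : MultilinearMap ℂ (fun _ : Option (Fin k) => SL n) ℂ)
    (hinv : ∀ (y : SL n) (x : Option (Fin k) → SL n),
      ∑ i : Option (Fin k), F (Function.update x i ⁅y, x i⁆) = 0)
    (hne : ∃ x, cart F x ≠ 0) :
    ∃ V : Submodule ℂ (SL n), finrank ℂ V = 2 * k + 1 ∧
      (∀ v ∈ V, ⁅e, v⁆ ∈ V ∧ ⁅h, v⁆ ∈ V ∧ ⁅f, v⁆ ∈ V) ∧
      (∀ W : Submodule ℂ (SL n), W ≤ V →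
        (∀ w ∈ W, ⁅e, w⁆ ∈ W ∧ ⁅h, w⁆ ∈ W ∧ ⁅f, w⁆ ∈ W) → W = ⊥ ∨ W = V) ∧
      ∃ x : Option (Fin k × Bool) → SL n, (∀ a, x a ∈ V) ∧ cart F x ≠ 0 := by
  -- the size is positive
  obtain ⟨m, rfl⟩ : ∃ m, n = m + 1 := by
    rcases n with _ | m
    · exfalso
      apply ht.h_ne_zero
      apply Subtype.ext
      ext i
      exact i.elim0
    · exact ⟨m, rfl⟩
  -- the full cycle
  let π₀ : Perm (Option (Fin k)) := (finSuccEquiv k).permCongr (finRotate (k + 1))
  have h₀ : Full π₀ := (full_finRotate k).permCongr _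
  obtain ⟨C, hC⟩ := cart_eq F hinv π₀ h₀
  obtain ⟨x₀, hx₀⟩ := hne
  rw [hC] at hx₀
  have hC0 : C ≠ 0 := left_ne_zero_of_mul hx₀
  have haG := right_ne_zero_of_mul hx₀
  have hk0 : k ≠ 0 := by
    rintro rfl
    exact haG (aG_zero_index _ _)
  have hkn : k < m + 1 := by
    by_contra hc
    exact haG (aG_nu_eq_zero_of_le h₀ (by rw [Fintype.card_fin]; omega) _)
  -- the matrices of the triple
  have hHE : h.1 * e.1 - e.1 * h.1 = (2 : ℂ) • e.1 := by
    have h1 := congrArg Subtype.val ht.lie_h_e_nsmul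
    rw [LieAlgebra.SpecialLinear.sl_bracket] at h1
    rw [h1, two_nsmul, two_smul]
    rfl
  have hHF : h.1 * f.1 - f.1 * h.1 = -((2 : ℂ) • f.1) := by
    have h1 := congrArg Subtype.val ht.lie_h_f_nsmul
    rw [LieAlgebra.SpecialLinear.sl_bracket] at h1
    rw [h1, two_nsmul, two_smul]
    rfl
  have hEF : e.1 * f.1 - f.1 * e.1 = h.1 := by
    have h1 := congrArg Subtype.val ht.lie_e_f
    rw [LieAlgebra.SpecialLinear.sl_bracket] at h1
    exact h1
  have hH0 : h.1 ≠ 0 := fun h1 => ht.h_ne_zero (Subtype.ext h1)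
  obtain ⟨P, Q, hQP, hPQ, hEP, hFP⟩ := exists_conj m h.1 e.1 f.1 hH0 hHE hHF hEF
    (pow_ne_zero_of_regular e hreg)
  -- the lowest weight vector
  have hkf : (k.factorial : ℂ) ≠ 0 := by exact_mod_cast Nat.factorial_ne_zero k
  have hFpow : ∀ j : ℕ, f.1 ^ j * P = P * (FF (m + 1) 1) ^ j := by
    intro j
    induction j with
    | zero => simp
    | succ j ih =>
      rw [pow_succ, mul_assoc, hFP, ← mul_assoc, ih, mul_assoc, ← pow_succ]
  have hz0 : P * FF (m + 1) k * Q = (k.factorial : ℂ)⁻¹ • f.1 ^ k := by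
    rw [eq_inv_smul_iff₀ hkf, ← smul_mul_assoc, ← mul_smul_comm, FF_pow, ← hFpow, mul_assoc, hPQ,
      mul_one]
  have hztr : P * FF (m + 1) k * Q ∈ SL (m + 1) := by
    rw [mem_SL, Matrix.trace_mul_comm, ← mul_assoc, hQP, one_mul]
    unfold Matrix.trace
    refine Finset.sum_eq_zero fun i _ => ?_
    rw [Matrix.diag_apply]
    unfold FF
    rw [if_neg (by omega)]
  let z : SL (m + 1) := ⟨P * FF (m + 1) k * Q, hztr⟩
  have hzne : z ≠ 0 := by
    intro h1
    have h2 : P * FF (m + 1) k * Q = 0 := congrArg Subtype.val h1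
    have h3 : (FF (m + 1) k : Matrix _ _ ℂ) = 0 := by
      calc (FF (m + 1) k : Matrix _ _ ℂ) = Q * P * FF (m + 1) k * (Q * P) := by
            rw [hQP, one_mul, mul_one]
        _ = Q * (P * FF (m + 1) k * Q) * P := by simp only [mul_assoc]
        _ = 0 := by rw [h2, mul_zero, zero_mul]
    have h4 := congrFun (congrFun h3 ⟨k, hkn⟩) 0
    unfold FF at h4
    simp only [Fin.val_zero, zero_add, Nat.add_sub_cancel, Nat.sub_zero, if_true,
      Matrix.zero_apply, Nat.cast_eq_zero] at h4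
    exact (Nat.choose_pos (by omega : k ≤ m)).ne' h4
  have Pz : ht.symm.HasPrimitiveVectorWith z ((2 * k : ℕ) : ℂ) := by
    refine ⟨hzne, ?_, ?_⟩
    · apply Subtype.ext
      rw [neg_lie]
      change -(⁅h, z⁆ : SL (m + 1)).1 = ((2 * k : ℕ) : ℂ) • z.1
      rw [LieAlgebra.SpecialLinear.sl_bracket]
      change -(h.1 * (P * FF (m + 1) k * Q) - (P * FF (m + 1) k * Q) * h.1) =
        ((2 * k : ℕ) : ℂ) • (P * FF (m + 1) k * Q)
      rw [hz0, mul_smul_comm, smul_mul_assoc, ← smul_sub,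
        comm_pow_smul h.1 f.1 (-2) (by rw [hHF, neg_smul]) k, ← smul_neg, ← neg_smul, smul_comm]
      congr 1
      push_cast
      ring
    · apply Subtype.ext
      rw [LieAlgebra.SpecialLinear.sl_bracket]
      change f.1 * (P * FF (m + 1) k * Q) - (P * FF (m + 1) k * Q) * f.1 = 0
      rw [hz0, mul_smul_comm, smul_mul_assoc, ← pow_succ', ← pow_succ, sub_self]
  let V := Vspan e z (2 * k + 1)
  refine ⟨V, finrank_Vspan ht.symm Pz, ?_, ?_, ?_⟩
  · intro v hv
    refine ⟨lie_f_Vspan ht.symm Pz v hv, ?_, ?_⟩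
    · have h1 := lie_h_Vspan ht.symm Pz (2 * k + 1) v hv
      rw [neg_lie] at h1
      exact (Submodule.neg_mem_iff _).1 h1
    · exact Vspan_mono e z (by omega) (lie_e_Vspan ht.symm Pz (2 * k) v hv)
  · intro W hWV hW
    exact Vspan_irreducible ht.symm Pz W hWV (fun w hw => (hW w hw).2.2)
      (fun w hw => (hW w hw).1)
  · -- the conjugates belong to `V`
    let ι : SL (m + 1) →ₗ[ℂ] Matrix (Fin (m + 1)) (Fin (m + 1)) ℂ :=
      (SL (m + 1)).toSubmodule.subtype
    let c : Matrix (Fin (m + 1)) (Fin (m + 1)) ℂ →ₗ[ℂ] Matrix (Fin (m + 1)) (Fin (m + 1)) ℂ :=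
      (LinearMap.mulRight ℂ Q).comp (LinearMap.mulLeft ℂ P)
    have hc : ∀ X, c X = P * X * Q := fun X => rfl
    have hEc : ∀ X, c (EE (m + 1) * X - X * EE (m + 1)) = e.1 * c X - c X * e.1 := by
      intro X
      rw [hc, hc]
      have h1 : P * EE (m + 1) = e.1 * P := hEP.symm
      have h2 : EE (m + 1) * Q = Q * e.1 := by
        calc (EE (m + 1) : Matrix _ _ ℂ) * Q = Q * (P * EE (m + 1)) * Q := by
              rw [← mul_assoc, hQP, one_mul]
          _ = Q * e.1 * (P * Q) := by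
              rw [h1]
              simp only [mul_assoc]
          _ = Q * e.1 := by rw [hPQ, mul_one]
      rw [mul_sub, sub_mul]
      congr 1
      · rw [← mul_assoc, h1]
        simp only [mul_assoc]
      · rw [mul_assoc, mul_assoc, h2]
        simp only [mul_assoc]
    let S : Submodule ℂ (Matrix (Fin (m + 1)) (Fin (m + 1)) ℂ) := (V.map ι).comap c
    have hS : ∀ X ∈ S, EE (m + 1) * X - X * EE (m + 1) ∈ S := by
      intro X hX
      obtain ⟨v, hv, hvX⟩ := hX
      refine ⟨⁅e, v⁆, lie_f_Vspan ht.symm Pz v hv, ?_⟩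
      change (⁅e, v⁆ : SL (m + 1)).1 = c (EE (m + 1) * X - X * EE (m + 1))
      rw [LieAlgebra.SpecialLinear.sl_bracket, hEc]
      have h1 : v.1 = c X := hvX
      rw [h1]
    have hZ : FF (m + 1) k ∈ S := by
      refine ⟨z, ?_, rfl⟩
      have h1 := psi_mem_Vspan e z (show 0 < 2 * k + 1 by omega)
      rw [psi_zero] at h1
      exact h1
    have hXX : ∀ t : ℂ, ∃ v ∈ V, v.1 = P * XX (m + 1) k t * Q := by
      intro t
      obtain ⟨v, hv, hvX⟩ := conj_mem (m + 1) S hS (FF (m + 1) k) hZ t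
      exact ⟨v, hv, hvX⟩
    choose v hvV hvX using hXX
    obtain ⟨t, ht0⟩ := hcore hkn
    have hcard : Fintype.card (Fin (2 * k + 1)) = Fintype.card (Option (Fin k × Bool)) := by
      rw [Fintype.card_fin, Fintype.card_option, Fintype.card_prod, Fintype.card_fin,
        Fintype.card_bool, mul_comm]
    let e' : Fin (2 * k + 1) ≃ Option (Fin k × Bool) := Fintype.equivOfCardEq hcard
    refine ⟨fun a => v (t (e'.symm a)), fun a => hvV _, ?_⟩
    rw [hC]
    refine mul_ne_zero hC0 ?_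
    obtain ⟨T, hT⟩ := ((full_finRotate (2 * k)).permCongr e').isConj (full_nu h₀)
    simp only [hvX]
    rw [aG_conj_matrix _ (fun a => XX (m + 1) k (t (e'.symm a))) P Q hQP, hT, aG_conj,
      aG_permCongr]
    simp only [Equiv.symm_apply_apply]
    refine mul_ne_zero ?_ ht0
    rcases Int.units_eq_one_or (Perm.sign T) with h5 | h5 <;> rw [h5] <;> simp

end Run7.h539
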