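import Pool.Agent.Run7.h539.SPH.O3
import Pool.Agent.Y577.BT.R
import Pool.Agent.N672.HR.Defs
import Pool.Agent.N672.HR.Car
import Pool.Agent.N672.HR.Nat
import Pool.Agent.N672.HR.Ipr
import Pool.Agent.N672.HR.Ebp
import Pool.Agent.N672.HR.Lin
import Pool.Agent.N672.HR.Pai
import Pool.Agent.N672.HR.Vec

set_option autoImplicit false

/-!
# Ranks of the syzygies of modules with rotation symmetries

Let `S` be a domain over `ℂ` with a regular sequence `f_0, …, f_m` such that `e = dim S / (f)` is finite
(for example a Cohen-Macaulay local domain with coefficient field `ℂ` and a system of parameters, and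
`e = 1` for a regular system of parameters, or for the variables of a polynomial ring), and let
`M ≠ 0` be an `S`-module of finite dimension over `ℂ` with a Hermitian inner product. Let the `f_j` be
partitioned into blocks, and let `M` have compatible infinitesimal rotations in every block and a degree for
every block except one, the block `b₀`, which must not consist of a single `f_j` (it may be empty).
Suppose

* that there is only one block (so this is the case of an action of `SO(m + 1)`; no grading is
  needed if `m ≥ 1`), or
* that the block of `f_m` is `{f_m}` (the other blocks are arbitrary).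

Then the `(i + 1)`-st syzygy module of `M`, the image of `F_(i + 1) → F_i` for a resolution `F` by
finite free `S`-modules, has rank at least `binom(m, i) / e`, for all `i ≥ 0`. For the polynomial
ring in `c = m + 1` variables (`e = 1`) this is the inequality `rank Ω_i ≥ binom(c - 1, i - 1)` of Buchsbaum, Eisenbud
and Horrocks for the syzygies.

Idea of the proof. The number `e · rank Ω_(i + 1)` is at least the dimension of the kernel of `f_m` on the
Koszul homology `H_i(f_0, …, f_(m - 1); M)` (alternating sums of ranks; starting library `Y577/BT`), and
the kernel and the cokernel have the same dimension. Harmonic elements of the Koszul complex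
of `f_0, …, f_(m - 1)` which are killed by `f_m` inject into the kernel, and those killed by the adjoint
of `f_m` inject into the cokernel. For a set `J` of `i` of the `f_0, …, f_(m - 1)` the elements
of `J` are paired with elements outside (if `2 i ≤ m`), or the elements outside with elements of `J` (if
`2 i > m`), without using `f_m`. The lowest eigenspace of the corresponding rotation has a vector which
is killed by the adjoints of the unpaired `f_j`, or by the unpaired `f_j`, including `f_m` (they are
nilpotent and commute); its products with the extreme vectors of the pairing are harmonic, and these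
vectors span the exterior power of degree `i`.
-/

namespace Pool.Agent.Run7.h539.RotationSyzygies

open Pool.Agent.N672.HR Pool.Agent.Y577.BT

universe v w

/-- `D` are self-adjoint operators giving the degree in every block except the block `b₀`. -/
structure DegreesExcept {S : Type w} [CommRing S] {m : ℕ} (f : Fin m → S) (M : Type v)
    [NormedAddCommGroup M] [InnerProductSpace ℂ M] [Module S M] {s : ℕ} (B : Fin m → Fin s)
    (b₀ : Fin s) (D : Fin s → M →ₗ[ℂ] M) : Prop where
  symmetric : ∀ b, b ≠ b₀ → (D b).IsSymmetric
  degree : ∀ b, b ≠ b₀ → ∀ (j : Fin m) (x : M), D b (f j • x) =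
    f j • D b x + if B j = b then f j • x else 0

/-- **Ranks of syzygies of modules with rotation symmetries.** -/
theorem result (S : Type w) [CommRing S] [IsDomain S] [Algebra ℂ S] (m : ℕ)
    (f : Fin (m + 1) → S) (hreg : RegularSeq f) (hfin : FiniteColength f)
    (M : Type v) [NormedAddCommGroup M] [InnerProductSpace ℂ M] [FiniteDimensional ℂ M]
    [Nontrivial M] [Module S M] [IsScalarTower ℂ S M]
    (s : ℕ) (B : Fin (m + 1) → Fin s) (b₀ : Fin s) (D : Fin s → M →ₗ[ℂ] M)
    (L : Fin (m + 1) → Fin (m + 1) → M →ₗ[ℂ] M)
    (hb : ∀ j, B j = b₀ → ∃ j', j' ≠ j ∧ B j' = b₀)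
    (hlast : (∀ j, B j = B (Fin.last m)) ∨ ∀ j, B j = B (Fin.last m) → j = Fin.last m)
    (hdeg : DegreesExcept f M B b₀ D) (hrot : BlockRotations f M B L)
    (R : FreeRes S M) (i : ℕ) :
    m.choose i ≤ colength f * Module.finrank S (LinearMap.range (R.d i)) := by
  have hfin1 : Module.Finite ℂ (S ⧸ Ideal.span (Set.range f)) := hfin
  exact Pool.Agent.Run7.h539.SPH.syz_part t_nat t_nat t_ipr t_ebp t_lin t_pai
    (t_vec t_car t_nat t_ebp) S m s B b₀ hb hlast f hreg M D hdeg.symmetric hdeg.degree L hrot.skew
    hrot.rotation R i

end Pool.Agent.Run7.h539.RotationSyzygies
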